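import Pool.Agent.Helper23K9.Q4.Tra

/-!
The criterion for quadratic twists by polynomials of odd degree.
-/

set_option autoImplicit false
set_option linter.all false

open Polynomial IsDedekindDomain WeierstrassCurve WeierstrassCurve.Affine
open scoped Classical IntermediateField

namespace Pool.Agent.Helper23K9.Q4

open Pool.Agent.TH115.GD (vInf pl Pt act incl rs ak IsCoc LocTriv Sep Comp IsTower Preserves
  LocallyTrivial act_act vInf_poly)
open Pool.Agent.Helper7K9.T3 (TateAt IsTateClass IsTC IsInv tate_of_part crv3)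
open Pool.Agent.Helper23K9.Q5 (dvd_map_irr sep_map qtw)
open Pool.Agent.Helper23K9.Q3 (bad3 bad3_map bad3_ne)

/-- The square root of an element of `k(z, θ)`. -/
theorem exists_sign' {k k' : Type} [Field k] [Field k'] [Algebra k k'] [IsGalois k k'] {z θ ρ : k'}
    (hθ : ρ ^ 2 ∈ IntermediateField.adjoin k {z, θ}) (hρ : ρ ∉ IntermediateField.adjoin k {z, θ}) :
    ∃ s0 : k' ≃ₐ[IntermediateField.adjoin k {z}] k', s0 θ = θ ∧ s0 ρ = -ρ := by
  have h1 : ∃ σ : k' ≃ₐ[IntermediateField.adjoin k {z, θ}] k', σ ρ ≠ ρ := by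
    by_contra hcon
    push Not at hcon
    have h2 := (InfiniteGalois.mem_bot_iff_fixed ρ).2 hcon
    rw [IntermediateField.mem_bot] at h2
    obtain ⟨y, rfl⟩ := h2
    exact hρ y.2
  obtain ⟨σ, hσ⟩ := h1
  have h3 : (σ ρ) ^ 2 = ρ ^ 2 := by
    rw [← map_pow]
    exact σ.commutes ⟨ρ ^ 2, hθ⟩
  have h4 : σ ρ = -ρ := by
    rcases sq_eq_sq_iff_eq_or_eq_neg.1 h3 with h | h
    · exact absurd h hσ
    · exact h
  have h5 : σ θ = θ := σ.commutes ⟨θ, IntermediateField.subset_adjoin k _ (by simp)⟩
  have hle : IntermediateField.adjoin k {z} ≤ IntermediateField.adjoin k {z, θ} :=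
    IntermediateField.adjoin.mono k _ _ (by simp)
  exact ⟨AlgEquiv.ofRingEquiv (f := σ.toRingEquiv) (fun x => σ.commutes ⟨x.1, hle x.2⟩), h5, h4⟩

/-- The Jacobian of the hyperelliptic curve `s ^ 2 = D(t)`, `D` of odd degree, has no point of order
three over `k`: in every equation `p ^ 2 - D q ^ 2 = κ w ^ 3` with `q ≠ 0`, and such that the common
irreducible factors of `p` and `q` divide `D`, the degree of `w` is greater than the genus
`(deg D - 1) / 2`. -/
def NoThree {k : Type} [Field k] (D : k[X]) : Prop :=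
  ∀ (p q w : k[X]) (κ : k), q ≠ 0 → (∀ π, Irreducible π → π ∣ p → π ∣ q → π ∣ D) →
    p ^ 2 - D * q ^ 2 = C κ * w ^ 3 → D.natDegree < 2 * w.natDegree

section crit

variable {k k' K F : Type} [Field k] [Field k'] [Algebra k k'] [Field K] [Algebra k[X] K]
    [Field F] [Algebra k'[X] F] [IsFractionRing k'[X] F] [Algebra K F]

/-- The quadratic twist of `y² + a x y + b y = x³` by `D`. -/
noncomputable def twD (K : Type) [Field K] [Algebra k[X] K] (a b D : k[X]) :
    WeierstrassCurve K :=
  qtw (algebraMap k[X] K D) (crv3 (algebraMap k[X] K a) (algebraMap k[X] K b))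

/-- The Tate conjecture at 3, and multiplication by three is bijective on the rational points. -/
def TateD (k' K F : Type) [Field k'] [Field K] [Algebra k[X] K] [Field F] [Algebra k'[X] F]
    [IsFractionRing k'[X] F] [Algebra K F] (a b D : k[X]) : Prop :=
  TateAt (F := F) 3 k' (twD K a b D) ∧
    Function.Bijective fun Q : Pt (twD K a b D) K => 3 • Q

/-- The values of `D` at the roots `θ` of `bad` are zero or not squares in `k(z, θ)`. -/
def NonSq {k k' : Type} [Field k] [Field k'] [Algebra k k'] (a b D : k[X]) (z : k') : Prop :=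
  ∀ θ : k', aeval θ (bad3 a b) = 0 → aeval θ D ≠ 0 →
    ∀ x ∈ IntermediateField.adjoin k {z, θ}, x ^ 2 ≠ aeval θ D

/-- **The criterion for quadratic twists by polynomials of odd degree.** -/
theorem critD (hT : IsTower k k' K F) (h2 : (2 : k) ≠ 0) (h3 : (3 : k) ≠ 0) {a b D : k[X]}
    (hbad : bad3 a b ≠ 0)
    (hsep : ∀ π : k[X], Irreducible π → π ∣ bad3 a b → π.Separable)
    (hD : Odd D.natDegree) (hDs : D.Separable)
    {z : k'} (hz : z ^ 2 + z + 1 = 0)
    (hb : NonSq a b D z)
    (hno : NoThree (D.map (algebraMap k (IntermediateField.adjoin k {z})))) :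
    TateD k' K F a b D := by
  haveI := hT.sep
  haveI := hT.fracK
  haveI : IsSepClosed k' := IsSepClosure.sep_closed k
  haveI : IsGalois k k' := inferInstance
  obtain ⟨z0, hz0'⟩ : ∃ z0 : IntermediateField.adjoin k {z}, z0 =
    ⟨z, IntermediateField.mem_adjoin_simple_self k z⟩ := ⟨_, rfl⟩
  have hz0 : z0 ^ 2 + z0 + 1 = 0 := by
    have h1 : algebraMap (IntermediateField.adjoin k {z}) k' z0 = z := by rw [hz0']; rfl
    apply (algebraMap (IntermediateField.adjoin k {z}) k').injective
    simp only [map_add, map_pow, map_one, map_zero, h1]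
    exact hz
  obtain ⟨nb, nd⟩ := bad3_ne hbad
  have hinj := (algebraMap k (IntermediateField.adjoin k {z})).injective
  have nb1 : b.map (algebraMap k (IntermediateField.adjoin k {z})) ≠ 0 :=
    (Polynomial.map_ne_zero_iff hinj).2 nb
  have em : (a.map (algebraMap k (IntermediateField.adjoin k {z}))) ^ 3 -
      27 * b.map (algebraMap k (IntermediateField.adjoin k {z})) =
      (a ^ 3 - 27 * b).map (algebraMap k (IntermediateField.adjoin k {z})) := by
    simp only [Polynomial.map_mul, Polynomial.map_sub, Polynomial.map_pow, Polynomial.map_ofNat]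
  have nd1 : (a.map (algebraMap k (IntermediateField.adjoin k {z}))) ^ 3 -
      27 * b.map (algebraMap k (IntermediateField.adjoin k {z})) ≠ 0 := by
    rw [em]
    exact (Polynomial.map_ne_zero_iff hinj).2 nd
  have key : ∀ q : (IntermediateField.adjoin k {z})[X], Irreducible q →
      q ∣ (bad3 a b).map (algebraMap k (IntermediateField.adjoin k {z})) → q.Separable :=
    fun q hq hd => sep_map _ hbad hsep hq hd
  have e1 : (bad3 a b).map (algebraMap k (IntermediateField.adjoin k {z})) =
      b.map (algebraMap k (IntermediateField.adjoin k {z})) *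
        ((a.map (algebraMap k (IntermediateField.adjoin k {z}))) ^ 3 -
          27 * b.map (algebraMap k (IntermediateField.adjoin k {z}))) := by
    rw [bad3_map, bad3]
  have hDe : ∀ θ : k', (D.map (algebraMap k k')).eval θ = aeval θ D := fun θ => by
    rw [aeval_def, eval_map]
  -- automorphisms
  have haut : ∀ θ ρ : k', aeval θ (bad3 a b) = 0 → ρ ^ 2 = (D.map (algebraMap k k')).eval θ →
      ρ ≠ 0 → ∃ s0 : k' ≃ₐ[IntermediateField.adjoin k {z}] k', s0 θ = θ ∧ s0 ρ = -ρ := by
    intro θ ρ hev hρ hρ0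
    rw [hDe] at hρ
    have hDθ : aeval θ D ≠ 0 := by
      rw [← hρ]
      exact pow_ne_zero 2 hρ0
    have h3 := hb θ hev hDθ
    refine exists_sign' ?_ fun hm => h3 ρ hm hρ
    rw [hρ]
    have hθm : θ ∈ IntermediateField.adjoin k {z, θ} :=
      IntermediateField.subset_adjoin k _ (by simp)
    have h4 : aeval θ D = algebraMap (IntermediateField.adjoin k {z, θ}) k'
        (aeval (⟨θ, hθm⟩ : IntermediateField.adjoin k {z, θ}) D) := by
      rw [← aeval_algebraMap_apply]
      rfl
    rw [h4]
    exact (aeval (⟨θ, hθm⟩ : IntermediateField.adjoin k {z, θ}) D).2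
  have hev : ∀ (q : (IntermediateField.adjoin k {z})[X]) (θ : k'),
      q ∣ (bad3 a b).map (algebraMap k (IntermediateField.adjoin k {z})) →
      (q.map (algebraMap (IntermediateField.adjoin k {z}) k')).eval θ = 0 →
      aeval θ (bad3 a b) = 0 := by
    intro q θ hd h0
    obtain ⟨r, hr⟩ := hd
    have h4 : aeval θ (bad3 a b) = ((bad3 a b).map (algebraMap k k')).eval θ := by
      rw [aeval_def, eval_map]
    rw [h4, IsScalarTower.algebraMap_eq k (IntermediateField.adjoin k {z}) k', ← Polynomial.map_map,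
      hr, Polynomial.map_mul, eval_mul, h0, zero_mul]
  have hp1 : b.map (algebraMap k (IntermediateField.adjoin k {z})) ∣
      (bad3 a b).map (algebraMap k (IntermediateField.adjoin k {z})) := by
    rw [e1]; exact dvd_mul_right _ _
  have hp2 : (a.map (algebraMap k (IntermediateField.adjoin k {z}))) ^ 3 -
      27 * b.map (algebraMap k (IntermediateField.adjoin k {z})) ∣
      (bad3 a b).map (algebraMap k (IntermediateField.adjoin k {z})) := by
    rw [e1]; exact dvd_mul_left _ _
  have hsq : Squarefree (D.map (algebraMap k k')) := (hDs.map).squarefree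
  obtain ⟨r1, r2⟩ := tate_twD (k1 := IntermediateField.adjoin k {z}) hT h2 h3 hz0 (pa := a)
    (pb := b) rfl rfl nb1 nd1 (fun q hq hd => key q hq (hd.trans hp1))
    (fun q hq hd => key q hq (hd.trans hp2)) rfl rfl hD hsq rfl
    (fun θ ρ h0 hρ hρ0 => haut θ ρ (hev _ _ hp1 h0) hρ hρ0)
    (fun θ ρ h0 hρ hρ0 => haut θ ρ (hev _ _ hp2 h0) hρ hρ0)
    (fun p q w κ hq hcf h => by
      have := hno p q w κ hq hcf h
      rwa [natDegree_map] at this)
  exact ⟨r1, (Function.bijective_iff_existsUnique _).2 r2⟩

end crit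

end Pool.Agent.Helper23K9.Q4
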