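import Pool.Agent.Helper23K9.Q4.Red

/-!
Descent of elements of `k'(C)` modulo cubes to the field `k`.
-/

set_option autoImplicit false
set_option linter.all false

open Polynomial
open scoped Classical

namespace Pool.Agent.Helper23K9.Q4

/-- The coprime quotient. -/
theorem coprime_quot {κ : Type} [Field κ] {U w : κ[X]} (hU : U ≠ 0) : ∃ G n1 n2 : κ[X],
    IsCoprime n1 n2 ∧ U = G * n1 ∧ w = G * n2 := by
  obtain ⟨n1, h1⟩ := EuclideanDomain.gcd_dvd_left U w
  obtain ⟨n2, h2⟩ := EuclideanDomain.gcd_dvd_right U w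
  have h3 := EuclideanDomain.gcd_eq_gcd_ab U w
  obtain ⟨G, hG⟩ : ∃ G, G = EuclideanDomain.gcd U w := ⟨_, rfl⟩
  rw [← hG] at h1 h2 h3
  have hG0 : G ≠ 0 := by
    rintro rfl
    apply hU
    rw [h1, zero_mul]
  obtain ⟨A, hA⟩ : ∃ A, A = EuclideanDomain.gcdA U w := ⟨_, rfl⟩
  obtain ⟨B, hB⟩ : ∃ B, B = EuclideanDomain.gcdB U w := ⟨_, rfl⟩
  rw [← hA, ← hB] at h3
  refine ⟨G, n1, n2, ⟨A, B, ?_⟩, h1, h2⟩
  apply mul_left_cancel₀ hG0
  linear_combination -h3 + A * (-h1) + B * (-h2)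

section int

variable {κ L : Type} [Field κ] [Field L] (i : κ[X] →+* L) (hi : Function.Injective i) {r : L}
  {D : κ[X]} (hr : r ^ 2 = i D) (hD : Odd D.natDegree) (hsq : Squarefree D) (h2 : (2 : κ) ≠ 0)

include hi hr hD in
theorem mul_eq {A B U V : κ[X]} (h : i A + i B * r = i U + i V * r) : A = U ∧ B = V := by
  have h1 : i (A - U) + i (B - V) * r = 0 := by
    rw [map_sub, map_sub]
    linear_combination h
  obtain ⟨h3, h4⟩ := ind i hi hr hD h1
  exact ⟨sub_eq_zero.1 h3, sub_eq_zero.1 h4⟩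

include hi hr hD hsq h2 in
theorem int_prime {π U V A B : κ[X]} (hπ : Irreducible π)
    (h : (i U + i V * r) ^ 3 = i π ^ 3 * (i A + i B * r)) : π ∣ U ∧ π ∣ V := by
  have e1 := conj_eq i hi hr hD (m := π ^ 3) (a := 1) (b := 0) (p := A) (q := B) (u := U) (v := V)
    (by rw [h]; simp)
  have e2 : (i U + i V * r) ^ 3 = i (U ^ 3 + 3 * U * V ^ 2 * D) +
      i (3 * U ^ 2 * V + V ^ 3 * D) * r := by
    simp only [map_add, map_mul, map_pow, map_ofNat, ← hr]
    ring
  have e3 : i π ^ 3 * (i A + i B * r) = i (π ^ 3 * A) + i (π ^ 3 * B) * r := by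
    simp only [map_mul, map_pow]
    ring
  rw [e2, e3] at h
  obtain ⟨c1, c2⟩ := mul_eq i hi hr hD h
  have n1 : (U ^ 2 - D * V ^ 2) ^ 3 = (π ^ 2) ^ 3 * (A ^ 2 - D * B ^ 2) := by
    linear_combination (U ^ 3 + 3 * U * V ^ 2 * D + π ^ 3 * A) * c1 -
      D * (3 * U ^ 2 * V + V ^ 3 * D + π ^ 3 * B) * c2
  have n2 : π ^ 2 ∣ U ^ 2 - D * V ^ 2 := by
    rw [← IsIntegrallyClosed.pow_dvd_pow_iff (three_ne_zero), n1]
    exact dvd_mul_right _ _
  have hU : π ∣ U := by
    have h4 : π ∣ C 4 * U ^ 3 := by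
      have e4 : (C 4 : κ[X]) * U ^ 3 = π ^ 3 * A + 3 * U * (U ^ 2 - D * V ^ 2) := by
        have : (C 4 : κ[X]) = 4 := map_ofNat C 4
        rw [this]
        linear_combination c1
      rw [e4]
      exact dvd_add ((dvd_pow_self π three_ne_zero).mul_right _)
        (((dvd_pow_self π two_ne_zero).trans n2).mul_left _)
    rcases hπ.prime.dvd_or_dvd h4 with h5 | h5
    · exfalso
      apply hπ.not_isUnit
      refine isUnit_of_dvd_unit h5 (isUnit_C.2 (isUnit_iff_ne_zero.2 ?_))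
      have : (4 : κ) = 2 * 2 := by norm_num
      rw [this]
      exact mul_ne_zero h2 h2
    · exact hπ.prime.dvd_of_dvd_pow h5
  refine ⟨hU, ?_⟩
  by_contra hV
  have h5 : π ^ 2 ∣ D * V ^ 2 := by
    have e5 : D * V ^ 2 = U ^ 2 - (U ^ 2 - D * V ^ 2) := by ring
    rw [e5]
    exact dvd_sub (pow_dvd_pow_of_dvd hU 2) n2
  have h6 : IsCoprime (π ^ 2) (V ^ 2) := by
    apply IsCoprime.pow
    exact (Irreducible.coprime_iff_not_dvd hπ).2 hV
  have h7 : π * π ∣ D := by
    rw [← pow_two]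
    exact h6.dvd_of_dvd_mul_right h5
  exact hπ.not_isUnit (hsq π h7)

include hi hr hD hsq h2 in
theorem int_all (e : κ[X]) : e ≠ 0 → ∀ {U V A B : κ[X]},
    (i U + i V * r) ^ 3 = i e ^ 3 * (i A + i B * r) → e ∣ U ∧ e ∣ V := by
  refine WfDvdMonoid.induction_on_irreducible e (fun h => absurd rfl h) ?_ ?_
  · intro u hu _ U V A B _
    exact ⟨hu.dvd, hu.dvd⟩
  · intro a π ha hπ ih _ U V A B h
    obtain ⟨⟨U1, rfl⟩, ⟨V1, rfl⟩⟩ := int_prime i hi hr hD hsq h2 (π := π) (U := U) (V := V)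
      (A := a ^ 3 * A) (B := a ^ 3 * B) hπ (by
        rw [h]
        simp only [map_mul, map_pow]
        ring)
    have h3 : i π ≠ 0 := by
      rw [Ne, map_eq_zero_iff i hi]
      exact hπ.ne_zero
    obtain ⟨h4, h5⟩ := ih ha (U := U1) (V := V1) (A := A) (B := B) (by
      apply mul_left_cancel₀ (pow_ne_zero 3 h3)
      simp only [map_mul] at h
      linear_combination h)
    exact ⟨mul_dvd_mul_left _ h4, mul_dvd_mul_left _ h5⟩

end int

/-- The coprime quotient. -/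
theorem coprime_quot' {κ : Type} [Field κ] {U w : κ[X]} (hU : U ≠ 0 ∨ w ≠ 0) : ∃ G n1 n2 : κ[X],
    IsCoprime n1 n2 ∧ U = G * n1 ∧ w = G * n2 := by
  by_cases h : U = 0
  · exact ⟨w, 0, 1, isCoprime_zero_left.2 isUnit_one, by rw [h, mul_zero], by rw [mul_one]⟩
  · exact coprime_quot h

section desc

variable {k k' L : Type} [Field k] [Field k'] [Algebra k k'] [IsSepClosure k k'] [Field L]
  (i : k'[X] →+* L) (hi : Function.Injective i) {r : L} {D : k[X]}
  (hr : r ^ 2 = i (D.map (algebraMap k k'))) (hD : Odd D.natDegree)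
  (hsq : Squarefree (D.map (algebraMap k k'))) (h2 : (2 : k') ≠ 0) (h3 : (3 : k') ≠ 0)
  {z0 : k} (hz0 : z0 ^ 2 + z0 + 1 = 0)
  (hspan : ∀ x : L, ∃ U V e : k'[X], e ≠ 0 ∧ i e * x = i U + i V * r)
  {f0 : L} (hf0 : f0 ≠ 0)

/-- Reduced representatives of the inverse of `f0` modulo cubes. -/
structure Rd (i : k'[X] →+* L) (r : L) (D' : k'[X]) (f0 : L) (p q w : k'[X]) : Prop where
  ne : w ≠ 0
  nrm : p ^ 2 - D' * q ^ 2 = w ^ 3
  cub : ∃ x, f0 * (i p + i q * r) = x ^ 3

include hi hr hD hsq h2 hspan hf0 in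
/-- Comparison of a reduced representative with its conjugate. -/
theorem Rd.comp {p q w : k'[X]} (h : Rd i r (D.map (algebraMap k k')) f0 p q w)
    (hdeg : 2 * w.natDegree < D.natDegree)
    (hmin : ∀ p' q' w', Rd i r (D.map (algebraMap k k')) f0 p' q' w' →
      w.natDegree ≤ w'.natDegree) (hq : q ≠ 0) {s0 : k' ≃ₐ[k] k'} {T : L →+* L}
    (hT : ∀ p, T (i p) = i (p.map (s0 : k' →+* k'))) (hTr : T r = r) {w1 : L}
    (hw1 : T f0 = f0 * w1 ^ 3) : ∃ c : k', p.map (s0 : k' →+* k') = C c * p ∧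
      q.map (s0 : k' →+* k') = C c * q := by
  obtain ⟨x, hx⟩ := h.cub
  have hs : Function.Injective (s0 : k' →+* k') := s0.injective
  have hD' : Odd (D.map (algebraMap k k')).natDegree := by rwa [natDegree_map]
  have hDs : (D.map (algebraMap k k')).map (s0 : k' →+* k') = D.map (algebraMap k k') := by
    rw [Polynomial.map_map]
    congr 1
    ext x
    exact s0.commutes x
  obtain ⟨ps, hps⟩ : ∃ ps, ps = p.map (s0 : k' →+* k') := ⟨_, rfl⟩
  obtain ⟨qs, hqs⟩ : ∃ qs, qs = q.map (s0 : k' →+* k') := ⟨_, rfl⟩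
  obtain ⟨ws, hws⟩ : ∃ ws, ws = w.map (s0 : k' →+* k') := ⟨_, rfl⟩
  rw [← hps, ← hqs]
  have nrs : ps ^ 2 - D.map (algebraMap k k') * qs ^ 2 = ws ^ 3 := by
    have := congrArg (Polynomial.map (s0 : k' →+* k')) h.nrm
    simp only [Polynomial.map_sub, Polynomial.map_mul, Polynomial.map_pow, hDs] at this
    rw [hps, hqs, hws]
    exact this
  have hwsn : ws ≠ 0 := by
    rw [hws]
    exact (Polynomial.map_ne_zero_iff hs).2 h.ne
  have hwi : i w ≠ 0 := by
    rw [Ne, map_eq_zero_iff i hi]; exact h.ne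
  have iN : (i p + i q * r) * (i p - i q * r) = i w ^ 3 := by
    have := congrArg i h.nrm
    simp only [map_sub, map_mul, map_pow, ← hr] at this
    linear_combination this
  have hF : i p + i q * r ≠ 0 := by
    intro h0
    rw [h0, zero_mul] at iN
    exact pow_ne_zero 3 hwi iN.symm
  have hx0 : x ≠ 0 := by
    rintro rfl
    rw [zero_pow three_ne_zero] at hx
    exact mul_ne_zero hf0 hF hx
  have hTf0 : T f0 ≠ 0 := (_root_.map_ne_zero T).2 hf0
  have hw10 : w1 ≠ 0 := by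
    rintro rfl
    rw [zero_pow three_ne_zero, mul_zero] at hw1
    exact hTf0 hw1
  have hTx : T f0 * (i ps + i qs * r) = (T x) ^ 3 := by
    rw [← map_pow, ← hx, map_mul, map_add, map_mul, hT, hT, hTr, hps, hqs]
  obtain ⟨x3, hx3⟩ : ∃ x3, x3 = T x / (w1 * x) * i w := ⟨_, rfl⟩
  have e1 : (i ps + i qs * r) * (i p - i q * r) = x3 ^ 3 := by
    apply mul_left_cancel₀ (mul_ne_zero hTf0 (mul_ne_zero (pow_ne_zero 3 hx0) hF))
    rw [hx3]
    have e2 : (T x / (w1 * x) * i w) ^ 3 = (T x) ^ 3 * i w ^ 3 / (w1 ^ 3 * x ^ 3) := by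
      field_simp
    rw [e2, hw1]
    field_simp
    rw [hw1] at hTx
    linear_combination (-(w1 ^ 3 * (i ps + i qs * r) * (i p - i q * r))) * hx +
      (i w ^ 3) * hTx + (f0 * w1 ^ 3 * (i ps + i qs * r)) * iN
  -- integrality
  obtain ⟨U, V, hUV⟩ : ∃ U V : k'[X], x3 = i U + i V * r := by
    obtain ⟨U1, V1, e, he, h4⟩ := hspan x3
    have hei : i e ≠ 0 := by
      rw [Ne, map_eq_zero_iff i hi]; exact he
    obtain ⟨⟨U, rfl⟩, ⟨V, rfl⟩⟩ := int_all i hi hr hD' hsq h2 e he (U := U1) (V := V1)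
      (A := ps * p - D.map (algebraMap k k') * (qs * q)) (B := qs * p - ps * q) (by
        rw [← h4, mul_pow, ← e1]
        simp only [map_sub, map_mul, ← hr]
        ring)
    refine ⟨U, V, ?_⟩
    apply mul_left_cancel₀ hei
    rw [h4, map_mul, map_mul]
    ring
  have hconj := conj_eq i hi hr hD' (m := 1) (a := ps * p - D.map (algebraMap k k') * (qs * q))
    (b := qs * p - ps * q) (p := 1) (q := 0) (u := U) (v := V) (by
      rw [← hUV, ← e1]
      simp only [map_sub, map_mul, ← hr, map_one, map_zero]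
      ring)
  have hnorm : (U ^ 2 - D.map (algebraMap k k') * V ^ 2) ^ 3 = (ws * w) ^ 3 := by
    apply hi
    have e5 := congrArg i nrs
    have e6 := congrArg i h.nrm
    have e7 := e1
    rw [hUV] at e7
    simp only [map_sub, map_mul, map_pow, ← hr, map_one, map_zero] at e5 e6 e7 hconj ⊢
    have e8 : (i U ^ 2 - r ^ 2 * i V ^ 2) ^ 3 = (i U + i V * r) ^ 3 * (i U - i V * r) ^ 3 := by ring
    rw [e8, hconj, ← e7, mul_pow, ← e5, ← e6]
    ring
  have hV : V = 0 := by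
    by_contra hV
    have h5 := norm_deg hD' (u := U) hV
    have h6 := congrArg natDegree hnorm
    rw [natDegree_pow, natDegree_pow, natDegree_mul hwsn h.ne, hws,
      natDegree_map_eq_of_injective hs] at h6
    rw [natDegree_map] at h5
    omega
  rw [hV, map_zero, zero_mul, add_zero] at hUV
  have e9 : i ps * i w ^ 3 + i qs * i w ^ 3 * r = i U ^ 3 * i p + i U ^ 3 * i q * r := by
    rw [← hUV, ← e1, ← iN]
    ring
  obtain ⟨c1, c2⟩ := mul_eq i hi hr hD' (A := ps * w ^ 3) (B := qs * w ^ 3) (U := U ^ 3 * p)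
    (V := U ^ 3 * q) (by simpa only [map_mul, map_pow] using e9)
  -- the coprime quotient
  have hU0 : U ≠ 0 := by
    rintro rfl
    rw [hV] at hnorm
    have h7 : (0 : k'[X]) = (ws * w) ^ 3 := by
      rw [← hnorm]
      ring
    exact pow_ne_zero 3 (mul_ne_zero hwsn h.ne) h7.symm
  obtain ⟨G, n1, n2, hcop, hG1, hG2⟩ := coprime_quot (w := w) hU0
  have hG0 : G ≠ 0 := by
    rintro rfl
    apply hU0
    rw [hG1, zero_mul]
  have hn2 : n2 ≠ 0 := by
    rintro rfl
    apply h.ne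
    rw [hG2, mul_zero]
  have hn1 : n1 ≠ 0 := by
    rintro rfl
    apply hU0
    rw [hG1, mul_zero]
  have d1 : ps * n2 ^ 3 = n1 ^ 3 * p := by
    apply mul_left_cancel₀ (pow_ne_zero 3 hG0)
    rw [hG1, hG2] at c1
    linear_combination c1
  have d2 : qs * n2 ^ 3 = n1 ^ 3 * q := by
    apply mul_left_cancel₀ (pow_ne_zero 3 hG0)
    rw [hG1, hG2] at c2
    linear_combination c2
  have hcop3 : IsCoprime (n2 ^ 3) (n1 ^ 3) := hcop.symm.pow
  obtain ⟨p1, hp1⟩ : n2 ^ 3 ∣ p := hcop3.dvd_of_dvd_mul_left ⟨ps, by rw [← d1]; ring⟩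
  obtain ⟨q1, hq1⟩ : n2 ^ 3 ∣ q := hcop3.dvd_of_dvd_mul_left ⟨qs, by rw [← d2]; ring⟩
  obtain ⟨w2, hw2⟩ : n2 ^ 2 ∣ w := by
    rw [← IsIntegrallyClosed.pow_dvd_pow_iff (three_ne_zero), ← h.nrm, hp1, hq1]
    exact ⟨p1 ^ 2 - D.map (algebraMap k k') * q1 ^ 2, by ring⟩
  have hw20 : w2 ≠ 0 := by
    rintro rfl
    apply h.ne
    rw [hw2, mul_zero]
  have hR : Rd i r (D.map (algebraMap k k')) f0 p1 q1 w2 := by
    refine ⟨hw20, ?_, ?_⟩
    · apply mul_left_cancel₀ (pow_ne_zero 6 hn2)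
      have := h.nrm
      rw [hp1, hq1, hw2] at this
      linear_combination this
    · refine ⟨x / i n2, ?_⟩
      have hn2i : i n2 ≠ 0 := by
        rw [Ne, map_eq_zero_iff i hi]; exact hn2
      rw [div_pow, ← hx, hp1, hq1]
      simp only [map_mul, map_pow]
      field_simp
  have hd2 : n2.natDegree = 0 := by
    have h8 := hmin _ _ _ hR
    have h9 : w.natDegree = 2 * n2.natDegree + w2.natDegree := by
      rw [hw2, natDegree_mul (pow_ne_zero 2 hn2) hw20, natDegree_pow]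
    omega
  have hqsn : qs ≠ 0 := by
    rw [hqs]
    exact (Polynomial.map_ne_zero_iff hs).2 hq
  have hd1 : n1.natDegree = 0 := by
    have h8 := congrArg natDegree d2
    rw [natDegree_mul hqsn (pow_ne_zero 3 hn2), natDegree_mul (pow_ne_zero 3 hn1) hq, natDegree_pow,
      natDegree_pow, hd2, hqs, natDegree_map_eq_of_injective hs] at h8
    omega
  obtain ⟨b2, hb2⟩ : ∃ b, n2 = C b := ⟨_, eq_C_of_natDegree_eq_zero hd2⟩
  obtain ⟨b1, hb1⟩ : ∃ b, n1 = C b := ⟨_, eq_C_of_natDegree_eq_zero hd1⟩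
  have hb20 : b2 ≠ 0 := by
    rintro rfl
    exact hn2 (by rw [hb2, C_0])
  have hcc : (C (b1 ^ 3 / b2 ^ 3) : k'[X]) * n2 ^ 3 = n1 ^ 3 := by
    rw [hb1, hb2, ← C_pow, ← C_pow, ← C_mul, div_mul_cancel₀ _ (pow_ne_zero 3 hb20)]
  refine ⟨b1 ^ 3 / b2 ^ 3, ?_, ?_⟩
  · apply mul_right_cancel₀ (pow_ne_zero 3 hn2)
    rw [d1, ← hcc]
    ring
  · apply mul_right_cancel₀ (pow_ne_zero 3 hn2)
    rw [d2, ← hcc]
    ring

omit [IsSepClosure k k'] in
theorem lift_fixed [IsGalois k k'] {p : k'[X]}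
    (h : ∀ s0 : k' ≃ₐ[k] k', p.map (s0 : k' →+* k') = p) : ∃ p0 : k[X], p0.map (algebraMap k k') = p := by
  have h1 : p ∈ Polynomial.lifts (algebraMap k k') := by
    rw [Polynomial.lifts_iff_coeff_lifts]
    intro n
    rw [InfiniteGalois.mem_range_algebraMap_iff_fixed]
    intro s0
    have := congrArg (fun q => q.coeff n) (h s0)
    simp only [coeff_map] at this
    exact this
  rw [Polynomial.mem_lifts] at h1
  exact h1

include hi hr hD hsq h2 h3 hz0 hspan hf0 in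
/-- **The descent**: if there are no points of order three over `k` then `f0` is a cube. -/
theorem descend (hgal : ∀ s0 : k' ≃ₐ[k] k', ∃ T : L →+* L,
      (∀ p, T (i p) = i (p.map (s0 : k' →+* k'))) ∧ T r = r ∧ ∃ w1, T f0 = f0 * w1 ^ 3)
    (hred : ∃ p q w, Rd i r (D.map (algebraMap k k')) f0 p q w ∧ 2 * w.natDegree < D.natDegree)
    (hcont : ∀ p q w, Rd i r (D.map (algebraMap k k')) f0 p q w → ∀ ϖ : k'[X], Irreducible ϖ →
      ¬ ϖ ∣ D.map (algebraMap k k') → ϖ ∣ p → ϖ ∣ q → ϖ ^ 3 ∣ p ∧ ϖ ^ 3 ∣ q)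
    (hno : ∀ (p q w : k[X]) (κ : k), q ≠ 0 → (∀ π, Irreducible π → π ∣ p → π ∣ q → π ∣ D) →
      p ^ 2 - D * q ^ 2 = C κ * w ^ 3 → D.natDegree < 2 * w.natDegree) : ∃ x : L, f0 = x ^ 3 := by
  haveI : IsSepClosed k' := IsSepClosure.sep_closed k
  haveI : IsGalois k k' := inferInstance
  haveI : NeZero ((3 : ℕ) : k') := ⟨by exact_mod_cast h3⟩
  -- the minimum
  obtain ⟨n, hn, hnmin⟩ : ∃ n, (∃ p q w, Rd i r (D.map (algebraMap k k')) f0 p q w ∧
      w.natDegree = n) ∧ ∀ m, (∃ p q w, Rd i r (D.map (algebraMap k k')) f0 p q w ∧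
      w.natDegree = m) → n ≤ m := by
    obtain ⟨p, q, w, h, -⟩ := hred
    have hex : ∃ n, ∃ p q w, Rd i r (D.map (algebraMap k k')) f0 p q w ∧ w.natDegree = n :=
      ⟨_, p, q, w, h, rfl⟩
    exact ⟨Nat.find hex, Nat.find_spec hex, fun m hm => Nat.find_min' hex hm⟩
  obtain ⟨p, q, w, h, hwn⟩ := hn
  have hdeg : 2 * w.natDegree < D.natDegree := by
    obtain ⟨p', q', w', h', hd⟩ := hred
    have := hnmin _ ⟨p', q', w', h', rfl⟩
    omega
  have hmin : ∀ p' q' w', Rd i r (D.map (algebraMap k k')) f0 p' q' w' →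
      w.natDegree ≤ w'.natDegree := by
    intro p' q' w' h'
    rw [hwn]
    exact hnmin _ ⟨p', q', w', h', rfl⟩
  have hwi : i w ≠ 0 := by
    rw [Ne, map_eq_zero_iff i hi]; exact h.ne
  obtain ⟨x, hx⟩ := h.cub
  by_cases hq : q = 0
  · have hp : p ≠ 0 := by
      rintro rfl
      have := h.nrm
      rw [hq] at this
      apply pow_ne_zero 3 h.ne
      rw [← this]
      ring
    have hpi : i p ≠ 0 := by
      rw [Ne, map_eq_zero_iff i hi]; exact hp
    refine ⟨x * i w / i p, ?_⟩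
    have e1 := congrArg i h.nrm
    rw [hq] at e1 hx
    simp only [map_sub, map_mul, map_pow, map_zero] at e1 hx
    have e2 : i p ^ 2 = i w ^ 3 := by linear_combination e1
    rw [div_pow, mul_pow, ← hx, ← e2, eq_div_iff (pow_ne_zero 3 hpi)]
    ring
  · exfalso
    -- a monic representative
    obtain ⟨c, hc⟩ : ∃ c, c = q.leadingCoeff⁻¹ := ⟨_, rfl⟩
    have hc0 : c ≠ 0 := by
      rw [hc]
      exact inv_ne_zero (leadingCoeff_ne_zero.2 hq)
    obtain ⟨ξ, hξ⟩ := IsSepClosed.exists_pow_nat_eq (c ^ 2) 3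
    obtain ⟨η, hη⟩ := IsSepClosed.exists_pow_nat_eq c 3
    have hξ0 : ξ ≠ 0 := by
      rintro rfl
      rw [zero_pow three_ne_zero] at hξ
      exact pow_ne_zero 2 hc0 hξ.symm
    have hR : Rd i r (D.map (algebraMap k k')) f0 (C c * p) (C c * q) (C ξ * w) := by
      refine ⟨mul_ne_zero (C_ne_zero.2 hξ0) h.ne, ?_, i (C η) * x, ?_⟩
      · rw [mul_pow (C ξ), ← C_pow, hξ, C_pow, ← h.nrm]
        ring
      · rw [mul_pow, ← map_pow i, ← C_pow, hη, ← hx, map_mul, map_mul]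
        ring
    have hmon : (C c * q).Monic := by
      rw [hc, mul_comm]
      exact monic_mul_leadingCoeff_inv hq
    have hdw : (C ξ * w).natDegree = w.natDegree := natDegree_C_mul hξ0
    obtain ⟨p', hp'⟩ : ∃ p', p' = C c * p := ⟨_, rfl⟩
    obtain ⟨q', hq'⟩ : ∃ q', q' = C c * q := ⟨_, rfl⟩
    obtain ⟨w', hw'⟩ : ∃ w', w' = C ξ * w := ⟨_, rfl⟩
    rw [← hp', ← hq', ← hw'] at hR
    rw [← hq'] at hmon
    rw [← hw'] at hdw
    have hfix : ∀ s0 : k' ≃ₐ[k] k', p'.map (s0 : k' →+* k') = p' ∧ q'.map (s0 : k' →+* k') = q' := by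
      intro s0
      obtain ⟨T, hT, hTr, w1, hw1⟩ := hgal s0
      obtain ⟨c', h4, h5⟩ := hR.comp i hi hr hD hsq h2 hspan hf0 (by rw [hdw]; exact hdeg)
        (by rw [hdw]; exact hmin) hmon.ne_zero hT hTr hw1
      have h6 := congrArg leadingCoeff h5
      rw [(hmon.map _).leadingCoeff, leadingCoeff_mul, leadingCoeff_C, hmon.leadingCoeff,
        mul_one] at h6
      rw [← h6, C_1, one_mul] at h4 h5
      exact ⟨h4, h5⟩
    obtain ⟨p0, hp0⟩ := lift_fixed fun s0 => (hfix s0).1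
    obtain ⟨q0, hq0⟩ := lift_fixed fun s0 => (hfix s0).2
    have hDs : ∀ s0 : k' ≃ₐ[k] k', (D.map (algebraMap k k')).map (s0 : k' →+* k') =
        D.map (algebraMap k k') := by
      intro s0
      rw [Polynomial.map_map]
      congr 1
      ext x
      exact s0.commutes x
    have hw3 : ∀ s0 : k' ≃ₐ[k] k', (w'.map (s0 : k' →+* k')) ^ 3 = w' ^ 3 := by
      intro s0
      rw [← hR.nrm, ← Polynomial.map_pow, ← hR.nrm, Polynomial.map_sub, Polynomial.map_mul,
        Polynomial.map_pow, Polynomial.map_pow, (hfix s0).1, (hfix s0).2, hDs]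
    obtain ⟨w2, hw2⟩ : ∃ w2, w2 = C w'.leadingCoeff⁻¹ * w' := ⟨_, rfl⟩
    have hw'0 : w' ≠ 0 := hR.ne
    have hlc : w'.leadingCoeff ≠ 0 := leadingCoeff_ne_zero.2 hw'0
    have hwfix : ∀ s0 : k' ≃ₐ[k] k', w2.map (s0 : k' →+* k') = w2 := by
      intro s0
      have h4 : ∃ ω : k', ω ≠ 0 ∧ w'.map (s0 : k' →+* k') = C ω * w' := by
        have h5 := hw3 s0
        obtain ⟨z, hz⟩ : ∃ z : k', z = algebraMap k k' z0 := ⟨_, rfl⟩
        have hz1 : z ^ 2 + z + 1 = 0 := by
          rw [hz, ← map_pow, ← map_add, ← map_one (algebraMap k k'), ← map_add, hz0, map_zero]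
        have hz2 : (C z : k'[X]) ^ 2 + C z + 1 = 0 := by
          rw [← C_pow, ← C_add, ← C_1, ← C_add, hz1, C_0]
        have hzn : z ≠ 0 := by
          rintro rfl
          simp at hz1
        have h6 : (w'.map (s0 : k' →+* k') - w') * ((w'.map (s0 : k' →+* k') - C z * w') *
            (w'.map (s0 : k' →+* k') - C (z ^ 2) * w')) = 0 := by
          rw [C_pow]
          generalize w'.map (s0 : k' →+* k') = A at h5
          linear_combination h5 + (-(A ^ 2 * w') + (C z) * A * w' ^ 2 - (C z - 1) * w' ^ 3) * hz2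
        rcases mul_eq_zero.1 h6 with h7 | h7
        · exact ⟨1, one_ne_zero, by rw [C_1, one_mul]; exact sub_eq_zero.1 h7⟩
        · rcases mul_eq_zero.1 h7 with h8 | h8
          · exact ⟨z, hzn, sub_eq_zero.1 h8⟩
          · exact ⟨z ^ 2, pow_ne_zero 2 hzn, sub_eq_zero.1 h8⟩
      obtain ⟨ω, hω, e⟩ := h4
      have h5 := congrArg leadingCoeff e
      rw [leadingCoeff_map_of_injective (s0 : k' →+* k').injective, leadingCoeff_mul,
        leadingCoeff_C] at h5
      rw [hw2, Polynomial.map_mul, map_C, e, map_inv₀, h5, ← mul_assoc, ← C_mul]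
      congr 2
      field_simp
    obtain ⟨w0, hw0⟩ := lift_fixed hwfix
    -- the equation over `k`
    obtain ⟨ν, hν⟩ : ∃ ν, ν = p0 ^ 2 - D * q0 ^ 2 := ⟨_, rfl⟩
    have hνw : ν.map (algebraMap k k') = w' ^ 3 := by
      rw [hν, ← hR.nrm, ← hp0, ← hq0]
      simp only [Polynomial.map_sub, Polynomial.map_mul, Polynomial.map_pow]
    have hww : w' = C w'.leadingCoeff * w2 := by
      rw [hw2, ← mul_assoc, ← C_mul, mul_inv_cancel₀ hlc, C_1, one_mul]
    have hw2m : w2.Monic := by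
      rw [hw2, mul_comm]
      exact monic_mul_leadingCoeff_inv hw'0
    have hνlc : algebraMap k k' ν.leadingCoeff = w'.leadingCoeff ^ 3 := by
      rw [← leadingCoeff_map_of_injective (algebraMap k k').injective, hνw, leadingCoeff_pow]
    have heq : p0 ^ 2 - D * q0 ^ 2 = C ν.leadingCoeff * w0 ^ 3 := by
      apply Polynomial.map_injective (algebraMap k k') (algebraMap k k').injective
      rw [← hν, hνw, Polynomial.map_mul, Polynomial.map_pow, map_C, hw0, hνlc, C_pow, ← mul_pow,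
        ← hww]
    have hq00 : q0 ≠ 0 := by
      rintro rfl
      rw [Polynomial.map_zero] at hq0
      exact hmon.ne_zero hq0.symm
    have hcom : ∀ π : k[X], Irreducible π → π ∣ p0 → π ∣ q0 → π ∣ D := by
      intro π hπ h1 h2'
      by_contra hπD
      have hcop : IsCoprime π D := (Irreducible.coprime_iff_not_dvd hπ).2 hπD
      have hcop' : IsCoprime (π.map (algebraMap k k')) (D.map (algebraMap k k')) :=
        hcop.map (mapRingHom (algebraMap k k'))
      have hπ0 : π.map (algebraMap k k') ≠ 0 :=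
        (Polynomial.map_ne_zero_iff (algebraMap k k').injective).2 hπ.ne_zero
      have hπu : ¬ IsUnit (π.map (algebraMap k k')) := by
        intro hu
        have h3' := natDegree_eq_zero_of_isUnit hu
        rw [natDegree_map] at h3'
        exact absurd h3' hπ.natDegree_pos.ne'
      obtain ⟨ϖ, hϖ, hϖπ⟩ := WfDvdMonoid.exists_irreducible_factor hπu hπ0
      have hϖD : ¬ ϖ ∣ D.map (algebraMap k k') := fun h3' =>
        hϖ.not_isUnit (hcop'.isUnit_of_dvd' hϖπ h3')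
      have hϖp : ϖ ∣ p' := by
        rw [← hp0]
        exact hϖπ.trans (Polynomial.map_dvd _ h1)
      have hϖq : ϖ ∣ q' := by
        rw [← hq0]
        exact hϖπ.trans (Polynomial.map_dvd _ h2')
      obtain ⟨⟨p1, hp1⟩, ⟨q1, hq1⟩⟩ := hcont p' q' w' hR ϖ hϖ hϖD hϖp hϖq
      obtain ⟨w3, hw3'⟩ : ϖ ^ 2 ∣ w' := by
        rw [← IsIntegrallyClosed.pow_dvd_pow_iff (three_ne_zero), ← hR.nrm, hp1, hq1]
        exact ⟨p1 ^ 2 - D.map (algebraMap k k') * q1 ^ 2, by ring⟩
      have hw30 : w3 ≠ 0 := by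
        rintro rfl
        apply hw'0
        rw [hw3', mul_zero]
      obtain ⟨x', hx'⟩ := hR.cub
      have hR' : Rd i r (D.map (algebraMap k k')) f0 p1 q1 w3 := by
        refine ⟨hw30, ?_, x' / i ϖ, ?_⟩
        · apply mul_left_cancel₀ (pow_ne_zero 6 hϖ.ne_zero)
          have := hR.nrm
          rw [hp1, hq1, hw3'] at this
          linear_combination this
        · have hn2i : i ϖ ≠ 0 := by
            rw [Ne, map_eq_zero_iff i hi]; exact hϖ.ne_zero
          rw [div_pow, ← hx', hp1, hq1]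
          simp only [map_mul, map_pow]
          field_simp
      have h8 := hmin _ _ _ hR'
      have h9 : w'.natDegree = 2 * ϖ.natDegree + w3.natDegree := by
        rw [hw3', natDegree_mul (pow_ne_zero 2 hϖ.ne_zero) hw30, natDegree_pow]
      have h10 := hϖ.natDegree_pos
      omega
    have h9 := hno p0 q0 w0 _ hq00 hcom heq
    have h10 : w0.natDegree = w'.natDegree := by
      rw [hww, natDegree_C_mul hlc, ← hw0, natDegree_map]
    omega

end desc

end Pool.Agent.Helper23K9.Q4
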