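import Pool.Agent.Helper23K9.Q4.Zer

/-!
Almost all twists by cubic polynomials over number fields.
-/

set_option autoImplicit false
set_option linter.all false

open Polynomial IsDedekindDomain WeierstrassCurve WeierstrassCurve.Affine NumberField
open scoped Classical IntermediateField

namespace Pool.Agent.Helper23K9.Q4

open Pool.Agent.TH115.GD (vInf pl Pt act incl rs ak IsCoc LocTriv Sep Comp IsTower Preserves
  LocallyTrivial act_act vInf_poly)
open Pool.Agent.Helper7K9.T3 (TateAt IsTateClass IsTC IsInv tate_of_part crv3)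
open Pool.Agent.Helper23K9.Q5 (Zr el boxfin)
open Pool.Agent.Helper23K9.Q3 (bad3)

section dens

variable {k k' K F : Type} [Field k] [NumberField k] [Field k'] [Algebra k k'] [Field K]
    [Algebra k[X] K] [Field F] [Algebra k'[X] F] [IsFractionRing k'[X] F] [Algebra K F]
    {J : Type} [Fintype J] (B : Module.Basis J ℤ (𝓞 k))

/-- **Almost all twists by cubic polynomials with given leading coefficient.** -/
theorem dens_cub (hT : IsTower k k' K F) {a b : k[X]} (hbad : bad3 a b ≠ 0) {c : 𝓞 k}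
    (hc : c ≠ 0) : Zr {x : Fin 3 × J → ℤ | ¬ TateD k' K F a b
      (cub (algebraMap (𝓞 k) k c) fun i => algebraMap (𝓞 k) k (el3 B x i))} := by
  haveI := hT.sep
  haveI : IsSepClosed k' := IsSepClosure.sep_closed k
  haveI : IsGalois k k' := inferInstance
  haveI : CharZero k' := charZero_of_injective_algebraMap (algebraMap k k').injective
  haveI : IsAlgClosed k' := inferInstance
  obtain ⟨z, hz⟩ : ∃ z : k', z ^ 2 + z + 1 = 0 := by
    obtain ⟨z, hz⟩ := IsAlgClosed.exists_root (X ^ 2 + X + 1 : k'[X]) (by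
      have : (X ^ 2 + X + 1 : k'[X]).degree = 2 := by compute_degree!
      rw [this]
      norm_num)
    refine ⟨z, ?_⟩
    simpa [IsRoot.def] using hz
  haveI hfd : FiniteDimensional k (IntermediateField.adjoin k {z}) :=
    IntermediateField.finiteDimensional_adjoin fun x _ => Algebra.IsIntegral.isIntegral x
  haveI : NumberField (IntermediateField.adjoin k {z}) :=
    NumberField.of_module_finite k _
  haveI hfd2 : ∀ θ : k', FiniteDimensional k (IntermediateField.adjoin k {z, θ}) := fun θ =>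
    IntermediateField.finiteDimensional_adjoin fun x _ => Algebra.IsIntegral.isIntegral x
  haveI hnf : ∀ θ : k', NumberField (IntermediateField.adjoin k {z, θ}) := fun θ =>
    NumberField.of_module_finite k _
  have hmem : ∀ θ : k', θ ∈ IntermediateField.adjoin k {z, θ} := fun θ =>
    IntermediateField.subset_adjoin k _ (by simp)
  have hc0 : algebraMap (𝓞 k) k c ≠ 0 := by
    rw [Ne, map_eq_zero_iff _ (IsFractionRing.injective (𝓞 k) k)]
    exact hc
  obtain ⟨γ, hγ⟩ : ∃ γ, γ = algebraMap (𝓞 k) (𝓞 (IntermediateField.adjoin k {z})) c := ⟨_, rfl⟩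
  have hγc : algebraMap (𝓞 (IntermediateField.adjoin k {z})) (IntermediateField.adjoin k {z}) γ =
      algebraMap k (IntermediateField.adjoin k {z}) (algebraMap (𝓞 k) k c) := by
    rw [hγ]
    rfl
  have hγ0 : γ ≠ 0 := by
    rintro rfl
    rw [map_zero] at hγc
    exact (_root_.map_ne_zero (algebraMap k (IntermediateField.adjoin k {z}))).2 hc0 hγc.symm
  have h1 : Zr (⋃ θ ∈ ((bad3 a b).map (algebraMap k k')).roots.toFinset, {x : Fin 3 × J → ℤ |
      IsSquare ((cub (algebraMap (𝓞 (IntermediateField.adjoin k {z, θ}))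
        (IntermediateField.adjoin k {z, θ})
        (algebraMap (𝓞 k) (𝓞 (IntermediateField.adjoin k {z, θ})) c))
        (cM (IntermediateField.adjoin k {z, θ}) B x)).eval
        (⟨θ, hmem θ⟩ : IntermediateField.adjoin k {z, θ}))}) :=
    Zr.biUnion _ _ fun θ _ => zr_val B _ _
  refine (((zr_dbl (M := IntermediateField.adjoin k {z}) B hγ0).union
    (zr_flx (M := IntermediateField.adjoin k {z}) B hγ0)).union h1).mono ?_
  intro x hx
  by_contra hcon
  rw [Set.mem_union, Set.mem_union, not_or, not_or] at hcon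
  obtain ⟨⟨h2, h3⟩, h4⟩ := hcon
  rw [Set.mem_setOf_eq, not_not, hγc] at h2 h3
  apply hx
  have hbad' : (bad3 a b).map (algebraMap k k') ≠ 0 :=
    (Polynomial.map_ne_zero_iff (algebraMap k k').injective).2 hbad
  refine critD hT (by norm_num) (by norm_num) hbad (fun π hπ _ => hπ.separable) ?_ ?_ hz ?_ ?_
  · rw [cub_deg hc0]
    exact ⟨1, rfl⟩
  · rw [← Polynomial.separable_map (algebraMap k (IntermediateField.adjoin k {z})), cub_map]
    exact h2
  · intro θ hθ _ y hy e
    apply h4
    rw [Set.mem_iUnion₂]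
    refine ⟨θ, ?_, ⟨y, hy⟩, ?_⟩
    · rw [Multiset.mem_toFinset, mem_roots hbad', IsRoot.def, eval_map_algebraMap]
      exact hθ
    · apply (algebraMap (IntermediateField.adjoin k {z, θ}) k').injective
      rw [map_mul]
      show algebraMap (IntermediateField.adjoin k {z, θ}) k' _ = y * y
      rw [← pow_two, e]
      have h5 : cub (algebraMap (𝓞 (IntermediateField.adjoin k {z, θ}))
          (IntermediateField.adjoin k {z, θ})
          (algebraMap (𝓞 k) (𝓞 (IntermediateField.adjoin k {z, θ})) c))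
          (cM (IntermediateField.adjoin k {z, θ}) B x) =
          (cub (algebraMap (𝓞 k) k c) fun i => algebraMap (𝓞 k) k (el3 B x i)).map
            (algebraMap k (IntermediateField.adjoin k {z, θ})) := by
        rw [cub_map]
        rfl
      rw [h5, eval_map_algebraMap, ← aeval_algebraMap_apply]
      rfl
  · rw [cub_map]
    exact h3

/-- Density zero in terms of triples of integers. -/
theorem ints3 {S : Set (Fin 3 → 𝓞 k)} (h : Zr {x : Fin 3 × J → ℤ | el3 B x ∈ S}) {η : ℝ}
    (hη : 0 < η) : ∃ H0 : ℕ, ∀ H : ℕ, H0 ≤ H →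
      (({t : Fin 3 → 𝓞 k | (∀ i j, |B.repr (t i) j| ≤ (H : ℤ)) ∧ t ∈ S}.ncard : ℕ) : ℝ) ≤
        η * (2 * H + 1) ^ (3 * Fintype.card J) := by
  obtain ⟨H0, hH⟩ := h η hη
  refine ⟨H0, fun H hHH => ?_⟩
  have h0 := hH H hHH
  rw [Fintype.card_prod, Fintype.card_fin] at h0
  refine le_trans ?_ h0
  let φ : (Fin 3 → 𝓞 k) → Fin 3 × J → ℤ := fun t ij => B.repr (t ij.1) ij.2
  have hφ : ∀ t, el3 B (φ t) = t := fun t => funext fun i => B.sum_repr (t i)
  have hinj : Function.Injective φ := fun s t h => by rw [← hφ s, ← hφ t, h]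
  rw [← Set.ncard_image_of_injective _ hinj]
  have hsub : φ '' {t : Fin 3 → 𝓞 k | (∀ i j, |B.repr (t i) j| ≤ (H : ℤ)) ∧ t ∈ S} ⊆
      {x : Fin 3 × J → ℤ | (∀ i, |x i| ≤ (H : ℤ)) ∧ x ∈ {x : Fin 3 × J → ℤ | el3 B x ∈ S}} := by
    rintro _ ⟨t, ht, rfl⟩
    refine ⟨fun ij => ht.1 ij.1 ij.2, ?_⟩
    rw [Set.mem_setOf_eq, hφ]
    exact ht.2
  exact_mod_cast Set.ncard_le_ncard hsub (boxfin _ H)

/-- `TateD` holds for almost all cubic polynomials `D` with the leading coefficient `c` and integral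
coefficients: the proportion of the exceptions in the box with the coordinates (with respect to the
integral basis `B`) in `[-H, H]` tends to zero. -/
def MostCubics (k' K F : Type) [Field k'] [Field K] [Algebra k[X] K] [Field F] [Algebra k'[X] F]
    [IsFractionRing k'[X] F] [Algebra K F] (B : Module.Basis J ℤ (𝓞 k)) (a b : k[X]) (c : 𝓞 k) :
    Prop :=
  ∀ η : ℝ, 0 < η → ∃ H₀ : ℕ, ∀ H : ℕ, H₀ ≤ H →
    (({t : Fin 3 → 𝓞 k | (∀ i j, |B.repr (t i) j| ≤ (H : ℤ)) ∧
      ¬ TateD k' K F a b (C (algebraMap (𝓞 k) k c) * X ^ 3 + C (algebraMap (𝓞 k) k (t 2)) * X ^ 2 +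
        C (algebraMap (𝓞 k) k (t 1)) * X + C (algebraMap (𝓞 k) k (t 0)))}.ncard : ℕ) : ℝ) ≤
      η * (2 * H + 1) ^ (3 * Fintype.card J)

theorem most_cubics (hT : IsTower k k' K F) {a b : k[X]} (hbad : bad3 a b ≠ 0) {c : 𝓞 k}
    (hc : c ≠ 0) : MostCubics k' K F B a b c := fun _ hη =>
  ints3 B (S := {t : Fin 3 → 𝓞 k | ¬ TateD k' K F a b
    (cub (algebraMap (𝓞 k) k c) fun i => algebraMap (𝓞 k) k (t i))})
    (dens_cub B hT hbad hc) hη

end dens

end Pool.Agent.Helper23K9.Q4
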