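import Pool.Agent.Helper23K9.Q4.Nrm
import Pool.Agent.Helper23K9.Q3.Grp

/-!
The quadratic extension `L = F0(√D)`.
-/

set_option autoImplicit false
set_option linter.all false

open Polynomial IsDedekindDomain
open scoped Classical

namespace Pool.Agent.Helper23K9.Q4

open Pool.Agent.TH115.GD (pl cm cm_mem cm_val Preserves restr lift preserves val_poly mem_pl wv wv_coe
  Comp)

/-- `L = F0(r)`, `r ^ 2 = D`. -/
structure IsL {k' F0 L : Type} [Field k'] [Field F0] [Algebra k'[X] F0] [Field L] [Algebra F0 L]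
    (D : k'[X]) (r : L) : Prop where
  sq : r ^ 2 = algebraMap F0 L (algebraMap k'[X] F0 D)
  span : ∀ x : L, ∃ A B : F0, x = algebraMap F0 L A + algebraMap F0 L B * r
  nm : ∀ x : F0, algebraMap F0 L x ≠ r

section ex

variable {k' F0 : Type} [Field k'] [Field F0] [Algebra k'[X] F0] [IsFractionRing k'[X] F0]

theorem not_sq {D : k'[X]} (hD : Odd D.natDegree) (x : F0) : x ^ 2 ≠ algebraMap k'[X] F0 D := by
  intro h
  obtain ⟨n, e, he, rfl⟩ := IsFractionRing.div_surjective (A := k'[X]) x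
  have he0 : e ≠ 0 := nonZeroDivisors.ne_zero he
  have hei : algebraMap k'[X] F0 e ≠ 0 := by simpa using he0
  have h1 : n ^ 2 - D * e ^ 2 = 0 := by
    apply IsFractionRing.injective k'[X] F0
    rw [div_pow, div_eq_iff (pow_ne_zero 2 hei)] at h
    simp only [map_sub, map_mul, map_pow, map_zero]
    linear_combination h
  exact he0 (norm_ne hD h1).2

theorem exists_L {Ω : Type} [Field Ω] [Algebra F0 Ω] [IsSepClosed Ω] (h2 : (2 : Ω) ≠ 0) {D : k'[X]}
    (hD : Odd D.natDegree) : ∃ (L : Type) (_ : Field L) (_ : Algebra F0 L) (_ : Algebra L Ω)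
      (_ : IsScalarTower F0 L Ω) (r : L), IsL (F0 := F0) D r := by
  haveI : NeZero ((2 : ℕ) : Ω) := ⟨by exact_mod_cast h2⟩
  obtain ⟨ρ, hρ⟩ := IsSepClosed.exists_pow_nat_eq (algebraMap F0 Ω (algebraMap k'[X] F0 D)) 2
  have hint : IsIntegral F0 ρ := by
    apply IsIntegral.of_pow (n := 2) (by norm_num)
    rw [hρ]
    exact isIntegral_algebraMap
  refine ⟨IntermediateField.adjoin F0 {ρ}, inferInstance, inferInstance, inferInstance,
    inferInstance, ⟨ρ, IntermediateField.mem_adjoin_simple_self F0 ρ⟩, ?_, ?_, ?_⟩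
  · apply (algebraMap (IntermediateField.adjoin F0 {ρ}) Ω).injective
    rw [map_pow, ← IsScalarTower.algebraMap_apply]
    exact hρ
  · intro x
    have hx : (x : Ω) ∈ Algebra.adjoin F0 {ρ} := by
      rw [← IntermediateField.adjoin_simple_toSubalgebra_of_isAlgebraic hint.isAlgebraic]
      exact x.2
    have key : ∀ y ∈ Algebra.adjoin F0 {ρ}, ∃ A B : F0, y = algebraMap F0 Ω A +
        algebraMap F0 Ω B * ρ := by
      intro y hy
      induction hy using Algebra.adjoin_induction with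
      | mem y hy =>
        rw [Set.mem_singleton_iff.1 hy]
        exact ⟨0, 1, by simp⟩
      | algebraMap c => exact ⟨c, 0, by simp⟩
      | add y y' _ _ h h' =>
        obtain ⟨A, B, rfl⟩ := h
        obtain ⟨A', B', rfl⟩ := h'
        exact ⟨A + A', B + B', by simp only [map_add]; ring⟩
      | mul y y' _ _ h h' =>
        obtain ⟨A, B, rfl⟩ := h
        obtain ⟨A', B', rfl⟩ := h'
        refine ⟨A * A' + B * B' * algebraMap k'[X] F0 D, A * B' + A' * B, ?_⟩
        simp only [map_add, map_mul, ← hρ]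
        ring
    obtain ⟨A, B, e⟩ := key x hx
    exact ⟨A, B, Subtype.ext e⟩
  · intro x h
    apply not_sq (F0 := F0) hD x
    apply (algebraMap F0 Ω).injective
    rw [map_pow, ← hρ]
    congr 1
    exact congrArg (algebraMap (IntermediateField.adjoin F0 {ρ}) Ω) h

/-- Factorization of homomorphisms. -/
theorem factor {A B C : Type} [Field A] [Field B] [Field C] (f : A →+* C) (g : B →+* C)
    (h : ∀ a, ∃ b, f a = g b) : ∃ T : A →+* B, ∀ a, g (T a) = f a := by
  choose T hT using h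
  refine ⟨{ toFun := T, map_one' := ?_, map_mul' := ?_, map_zero' := ?_, map_add' := ?_ },
    fun a => (hT a).symm⟩
  · apply g.injective
    rw [← hT, map_one, map_one]
  · intro x y
    apply g.injective
    rw [← hT, map_mul, map_mul, hT, hT]
  · apply g.injective
    rw [← hT, map_zero, map_zero]
  · intro x y
    apply g.injective
    rw [← hT, map_add, map_add, hT, hT]

end ex

section gal

variable {k k' K F0 L Ω : Type} [Field k] [Field k'] [Algebra k k'] [IsSepClosure k k'] [Field K]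
  [Algebra k[X] K] [IsFractionRing k[X] K] [Field F0] [Algebra k'[X] F0] [IsFractionRing k'[X] F0]
  [Algebra K F0] [Field L] [Algebra F0 L] [Algebra K L]
  [IsScalarTower K F0 L] [Field Ω] [Algebra F0 Ω] [Algebra L Ω] [Algebra K Ω]
  [IsScalarTower F0 L Ω] [IsScalarTower K F0 Ω] [IsScalarTower K L Ω] [IsSepClosure F0 Ω]
  (hKF : ∀ p : k[X], algebraMap K F0 (algebraMap k[X] K p) =
      algebraMap k'[X] F0 (p.map (algebraMap k k')))
  {D : k[X]} {r : L} (hL : IsL (F0 := F0) (D.map (algebraMap k k')) r)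

include hL

/-- Every element is a quotient. -/
theorem IsL.quot (x : L) : ∃ U V e : k'[X], e ≠ 0 ∧
    algebraMap F0 L (algebraMap k'[X] F0 e) * x = algebraMap F0 L (algebraMap k'[X] F0 U) +
      algebraMap F0 L (algebraMap k'[X] F0 V) * r := by
  obtain ⟨A, B, rfl⟩ := hL.span x
  obtain ⟨n, e, he, rfl⟩ := IsFractionRing.div_surjective (A := k'[X]) A
  obtain ⟨n', e', he', rfl⟩ := IsFractionRing.div_surjective (A := k'[X]) B
  have he0 : e ≠ 0 := nonZeroDivisors.ne_zero he
  have he0' : e' ≠ 0 := nonZeroDivisors.ne_zero he'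
  have hi : algebraMap F0 L (algebraMap k'[X] F0 e) ≠ 0 := by simpa using he0
  have hi' : algebraMap F0 L (algebraMap k'[X] F0 e') ≠ 0 := by simpa using he0'
  refine ⟨n * e', n' * e, e * e', mul_ne_zero he0 he0', ?_⟩
  simp only [map_mul, map_div₀]
  field_simp

omit [IsFractionRing k[X] K] [IsSepClosure k k'] [IsFractionRing k'[X] F0] [IsSepClosure F0 Ω]
  [IsScalarTower F0 L Ω] in
include hKF in
theorem IsL.sqK : r ^ 2 = algebraMap K L (algebraMap k[X] K D) := by
  rw [hL.sq, IsScalarTower.algebraMap_apply K F0 L, hKF]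

omit [IsFractionRing k[X] K] [IsSepClosure k k'] [IsFractionRing k'[X] F0] [IsSepClosure F0 Ω] in
include hKF in
theorem IsL.pm (τ : Ω →ₐ[K] Ω) : τ (algebraMap L Ω r) = algebraMap L Ω r ∨
      τ (algebraMap L Ω r) = -algebraMap L Ω r := by
  have h1 : (τ (algebraMap L Ω r)) ^ 2 = (algebraMap L Ω r) ^ 2 := by
    rw [← map_pow, ← map_pow, hL.sqK hKF, ← IsScalarTower.algebraMap_apply K L Ω, τ.commutes]
  exact sq_eq_sq_iff_eq_or_eq_neg.1 h1

include hKF in
theorem IsL.pres : Preserves K L Ω := by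
  have hpres : Preserves K F0 Ω := preserves hKF
  intro τ x
  obtain ⟨A, B, rfl⟩ := hL.span x
  obtain ⟨A', hA⟩ := hpres τ A
  obtain ⟨B', hB⟩ := hpres τ B
  rw [IsScalarTower.algebraMap_apply F0 L Ω] at hA hB
  rw [IsScalarTower.algebraMap_apply F0 L Ω] at hA hB
  rcases hL.pm (Ω := Ω) hKF (τ : Ω →ₐ[K] Ω) with h | h
  · refine ⟨algebraMap F0 L A' + algebraMap F0 L B' * r, ?_⟩
    have h' : τ (algebraMap L Ω r) = algebraMap L Ω r := h
    rw [map_add, map_mul, map_add, map_mul, h', hA, hB, map_add, map_mul]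
  · refine ⟨algebraMap F0 L A' - algebraMap F0 L B' * r, ?_⟩
    have h' : τ (algebraMap L Ω r) = -algebraMap L Ω r := h
    rw [map_add, map_mul, map_add, map_mul, h', hA, hB, map_sub, map_mul]
    ring

/-- There is an automorphism over `F0` with `r ↦ -r`. -/
theorem IsL.exists_neg [IsGalois F0 Ω] : ∃ τ : Ω ≃ₐ[F0] Ω,
    τ (algebraMap L Ω r) = -algebraMap L Ω r := by
  by_contra hcon
  push Not at hcon
  have h1 : algebraMap L Ω r ∈ Set.range (algebraMap F0 Ω) := by
    rw [InfiniteGalois.mem_range_algebraMap_iff_fixed]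
    intro τ
    have h2 : (τ (algebraMap L Ω r)) ^ 2 = (algebraMap L Ω r) ^ 2 := by
      rw [← map_pow, ← map_pow, hL.sq, ← IsScalarTower.algebraMap_apply F0 L Ω, τ.commutes]
    exact (sq_eq_sq_iff_eq_or_eq_neg.1 h2).resolve_right (hcon τ)
  obtain ⟨x, hx⟩ := h1
  rw [IsScalarTower.algebraMap_apply F0 L Ω] at hx
  exact hL.nm x ((algebraMap L Ω).injective hx)

include hKF in
/-- An automorphism over `K` with given action on the constants and given sign. -/
theorem IsL.lift [IsGalois F0 Ω] (s0 : k' ≃ₐ[k] k') (b : Bool) : ∃ τ : Ω ≃ₐ[K] Ω,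
      τ (algebraMap L Ω r) = (if b then -algebraMap L Ω r else algebraMap L Ω r) ∧ ∀ p : k'[X],
      τ (algebraMap F0 Ω (algebraMap k'[X] F0 p)) =
        algebraMap F0 Ω (algebraMap k'[X] F0 (p.map (s0 : k' →+* k'))) := by
  obtain ⟨τ0, h0⟩ := Pool.Agent.TH115.GD.lift (F := F0) (Ω := Ω) hKF s0
  obtain ⟨τ1, h1⟩ := hL.exists_neg (Ω := Ω)
  have h2 : ∀ p : k'[X], (τ0.trans (τ1.restrictScalars K)) (algebraMap F0 Ω (algebraMap k'[X] F0 p)) =
      algebraMap F0 Ω (algebraMap k'[X] F0 (p.map (s0 : k' →+* k'))) := by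
    intro p
    show τ1 (τ0 (algebraMap F0 Ω (algebraMap k'[X] F0 p))) = _
    rw [h0, τ1.commutes]
  have h3 : (τ0.trans (τ1.restrictScalars K)) (algebraMap L Ω r) = τ1 (τ0 (algebraMap L Ω r)) := rfl
  rcases hL.pm (Ω := Ω) hKF (τ0 : Ω →ₐ[K] Ω) with h | h
  · have h' : τ0 (algebraMap L Ω r) = algebraMap L Ω r := h
    cases b
    · exact ⟨τ0, h', h0⟩
    · exact ⟨_, by rw [h3, h', h1]; rfl, h2⟩
  · have h' : τ0 (algebraMap L Ω r) = -algebraMap L Ω r := h
    cases b
    · exact ⟨_, by rw [h3, h', map_neg, h1, neg_neg]; rfl, h2⟩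
    · exact ⟨τ0, h', h0⟩

end gal

end Pool.Agent.Helper23K9.Q4
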