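import Pool.Agent.Helper23K9.Q4.Ext
import Pool.Agent.Helper23K9.Q3.Loc

/-!
Good places.
-/

set_option autoImplicit false
set_option linter.all false

open Polynomial IsDedekindDomain WeierstrassCurve WeierstrassCurve.Affine
open scoped Classical

namespace Pool.Agent.Helper23K9.Q4

open Pool.Agent.TH115.GD (pl cm cm_mem cm_val wv wv_coe sqrt_one Comp Pt act rs ak LocTriv Sep wFin)
open Pool.Agent.Helper7K9.T3 (om om_of_Cu Cu gen0 gen1 loc0T loc1T S0 ch InT isE3 crv3 cube_roots)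
open Pool.Agent.Helper23K9.Q5
open Pool.Agent.Helper23K9.Q3 (K3)

section emb

variable {k' F0 L Ω : Type} [Field k'] [IsSepClosed k'] [Field F0] [Algebra k'[X] F0]
  [IsFractionRing k'[X] F0] [Field L] [Algebra F0 L] [Field Ω] [Algebra F0 Ω] [Algebra L Ω]
  [IsScalarTower F0 L Ω] {D : k'[X]} {r : L} (hL : IsL (F0 := F0) D r)

include hL in
/-- The embedding in the completion which is compatible with a given embedding `ι` of `Ω`. -/
theorem exists_pl (h2 : (2 : k') ≠ 0) (v : HeightOneSpectrum k'[X])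
    (hv : D ∉ v.asIdeal) {Ω' : Type} [Field Ω'] [Algebra (Comp k'[X] F0 v) Ω']
    [Algebra F0 Ω'] [IsScalarTower F0 (Comp k'[X] F0 v) Ω'] (ι : Ω →ₐ[F0] Ω') :
    ∃ j : L →+* Comp k'[X] F0 v, (∀ x : F0, j (algebraMap F0 L x) = algebraMap F0 _ x) ∧
      ∀ x : L, ι (algebraMap L Ω x) = algebraMap (Comp k'[X] F0 v) Ω' (j x) := by
  obtain ⟨s, hs⟩ := sq_comp (F0 := F0) h2 v hv
  have h1 : (ι (algebraMap L Ω r)) ^ 2 = (algebraMap (Comp k'[X] F0 v) Ω' s) ^ 2 := by
    rw [← map_pow, ← map_pow, ← map_pow, hs, hL.sq, ← IsScalarTower.algebraMap_apply F0 L Ω,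
      ι.commutes, ← IsScalarTower.algebraMap_apply F0 (Comp k'[X] F0 v) Ω']
  obtain ⟨s', e⟩ : ∃ s' : Comp k'[X] F0 v, 
      ι (algebraMap L Ω r) = algebraMap (Comp k'[X] F0 v) Ω' s' := by
    rcases sq_eq_sq_iff_eq_or_eq_neg.1 h1 with h | h
    · exact ⟨s, h⟩
    · exact ⟨-s, by rw [h, map_neg]⟩
  have hF : ∀ x : F0, ι (algebraMap L Ω (algebraMap F0 L x)) =
      algebraMap (Comp k'[X] F0 v) Ω' (algebraMap F0 _ x) := by
    intro x
    rw [← IsScalarTower.algebraMap_apply F0 L Ω, ι.commutes,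
        ← IsScalarTower.algebraMap_apply F0 (Comp k'[X] F0 v) Ω']
  obtain ⟨j, hj⟩ := factor ((ι : Ω →+* Ω').comp (algebraMap L Ω))
    (algebraMap (Comp k'[X] F0 v) Ω') (fun x => by
      obtain ⟨A, B, rfl⟩ := hL.span x
      refine ⟨algebraMap F0 _ A + algebraMap F0 _ B * s', ?_⟩
      show ι (algebraMap L Ω _) = _
      rw [map_add, map_mul, map_add, map_mul, hF, hF, e, map_add, map_mul])
  refine ⟨j, fun x => ?_, fun x => (hj x).symm⟩
  apply (algebraMap (Comp k'[X] F0 v) Ω').injective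
  exact (hj _).trans (hF x)

end emb

section good

variable {k k' K F0 L : Type} [Field k] [Field k'] [Algebra k k'] [IsSepClosed k'] [Field K]
  [Algebra k[X] K] [IsFractionRing k[X] K] [Field F0] [Algebra k'[X] F0] [IsFractionRing k'[X] F0]
  [Algebra K F0]
  (hKF : ∀ p : k[X], algebraMap K F0 (algebraMap k[X] K p) =
      algebraMap k'[X] F0 (p.map (algebraMap k k')))
  [Field L] [Algebra F0 L] [Algebra K L]
  [IsScalarTower K F0 L] [Algebra L (Sep F0)] [IsScalarTower F0 L (Sep F0)]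
  [IsScalarTower K L (Sep F0)] {D' : k'[X]} {r : L} (hL : IsL (F0 := F0) D' r)
  (h2 : (2 : k') ≠ 0) (h2Ω : (2 : Sep F0) ≠ 0)
  {pa pb : k[X]} {a b d : K} (ea : a = algebraMap k[X] K pa) (eb : b = algebraMap k[X] K pb)
  (h3 : (3 : K) ≠ 0) (hb : b ≠ 0) (hd : a ^ 3 - 27 * b ≠ 0) {z : L} (hz : z ^ 2 + z + 1 = 0)
  (hE : (crv3 a b).Δ ≠ 0) (hr : (algebraMap L (Sep F0) r) ^ 2 = algebraMap K (Sep F0) d)
  (hr0 : algebraMap L (Sep F0) r ≠ 0)
  {f : (Sep F0 ≃ₐ[F0] Sep F0) → Pt (qtw d (crv3 a b)) (Sep F0)}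
  {g : (Sep F0 ≃ₐ[L] Sep F0) → Pt (crv3 a b) (Sep F0)}
  (hg : ∀ σ, tw hE h2Ω hr hr0 (g σ) = f (σ.restrictScalars F0))
  {v : HeightOneSpectrum k'[X]} (hu : D' ∉ v.asIdeal)
  (hloc : LocTriv (qtw d (crv3 a b)) (Comp k'[X] F0 v) (Sep (Comp k'[X] F0 v)) f)

include hKF h2 h3 hb hd hz hL hg hu hloc ea eb in
theorem first_goodL (hg3 : ∀ σ, g σ + g σ + g σ = 0)
    {s : Sep F0} {f0 : L} (hk : K3 (fun σ => S0 a b (g σ)) s f0)
    (hv1 : pb.map (algebraMap k k') ∉ v.asIdeal) :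
    ∃ W : Valuation L (WithZero (Multiplicative ℤ)), (∀ x : F0, W (algebraMap F0 L x) =
      v.valuation F0 x) ∧ Cu (W f0) := by
  obtain ⟨ι, P, h⟩ := hloc
  obtain ⟨j, j1, j2⟩ := exists_pl hL h2 v hu ι
  refine ⟨(wv v).comap j, fun x => ?_, ?_⟩
  · show wv v (j _) = _
    rw [j1, wv_coe]
  letI : Algebra L (Comp k'[X] F0 v) := j.toAlgebra
  haveI : IsScalarTower K L (Comp k'[X] F0 v) := by
    refine IsScalarTower.of_algebraMap_eq fun x => ?_
    show algebraMap K (Comp k'[X] F0 v) x = j (algebraMap K L x)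
    rw [IsScalarTower.algebraMap_apply K F0 L, j1, ← IsScalarTower.algebraMap_apply K F0]
  haveI : IsGalois L (Sep F0) := IsGalois.tower_top_of_isGalois F0 L (Sep F0)
  have hval : ∀ p : k[X], ((wv v).comap j) (algebraMap K L (algebraMap k[X] K p)) =
      v.intValuation (p.map (algebraMap k k')) := by
    intro p
    show wv v (j _) = _
    rw [IsScalarTower.algebraMap_apply K F0 L, j1, wv_coe, hKF, v.valuation_of_algebraMap]
  let ι' : Sep F0 →ₐ[L] Sep (Comp k'[X] F0 v) :=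
    { (ι : Sep F0 →+* Sep (Comp k'[X] F0 v)) with commutes' := fun x => j2 x }
  have hloc' : LocTriv (crv3 a b) (Comp k'[X] F0 v) (Sep (Comp k'[X] F0 v)) g :=
    loc_tw hE h2Ω hr hr0 h ι' (fun x => rfl) (y := j r) (j2 _) hg
  have h3L : (3 : Sep (Comp k'[X] F0 v)) ≠ 0 := by
    have : (3 : Sep (Comp k'[X] F0 v)) = algebraMap K (Sep (Comp k'[X] F0 v)) 3 :=
      (map_ofNat _ _).symm
    rw [this]
    exact (_root_.map_ne_zero _).2 h3
  have h4 := loc0T (F := L) (L := Comp k'[X] F0 v) (Ω' := Sep (Comp k'[X] F0 v)) h3 hb hd hz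
    (cube_roots _ h3L) hg3 hloc' hk.ne hk.cube hk.act
  refine gen0 (F := L) (L := Comp k'[X] F0 v) (wv (F := F0) v) ((wv v).comap j)
    (fun x => rfl) ?_ ?_ h4
  · rw [ea, hval]
    exact v.intValuation_le_one _
  · rw [eb, hval, HeightOneSpectrum.intValuation_eq_one_iff]
    exact hv1

include hKF h2 h3 hb hd hz hL hg hu hloc ea eb in
theorem second_goodL (hg3 : ∀ σ, InT (isE3 a b (Sep F0) h3 hb hd) (g σ))
    {s : Sep F0} {f0 : L} (hk : K3 (fun σ => ch (algebraMap L (Sep F0) z) (g σ)) s f0)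
    (hv1 : (pa ^ 3 - 27 * pb).map (algebraMap k k') ∉ v.asIdeal) :
    ∃ W : Valuation L (WithZero (Multiplicative ℤ)), (∀ x : F0, W (algebraMap F0 L x) =
      v.valuation F0 x) ∧ Cu (W f0) := by
  obtain ⟨ι, P, h⟩ := hloc
  obtain ⟨j, j1, j2⟩ := exists_pl hL h2 v hu ι
  refine ⟨(wv v).comap j, fun x => ?_, ?_⟩
  · show wv v (j _) = _
    rw [j1, wv_coe]
  letI : Algebra L (Comp k'[X] F0 v) := j.toAlgebra
  haveI : IsScalarTower K L (Comp k'[X] F0 v) := by
    refine IsScalarTower.of_algebraMap_eq fun x => ?_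
    show algebraMap K (Comp k'[X] F0 v) x = j (algebraMap K L x)
    rw [IsScalarTower.algebraMap_apply K F0 L, j1, ← IsScalarTower.algebraMap_apply K F0]
  haveI : IsGalois L (Sep F0) := IsGalois.tower_top_of_isGalois F0 L (Sep F0)
  have hval : ∀ p : k[X], ((wv v).comap j) (algebraMap K L (algebraMap k[X] K p)) =
      v.intValuation (p.map (algebraMap k k')) := by
    intro p
    show wv v (j _) = _
    rw [IsScalarTower.algebraMap_apply K F0 L, j1, wv_coe, hKF, v.valuation_of_algebraMap]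
  let ι' : Sep F0 →ₐ[L] Sep (Comp k'[X] F0 v) :=
    { (ι : Sep F0 →+* Sep (Comp k'[X] F0 v)) with commutes' := fun x => j2 x }
  have hloc' : LocTriv (crv3 a b) (Comp k'[X] F0 v) (Sep (Comp k'[X] F0 v)) g :=
    loc_tw hE h2Ω hr hr0 h ι' (fun x => rfl) (y := j r) (j2 _) hg
  have h4 := loc1T (F := L) (L := Comp k'[X] F0 v) (Ω' := Sep (Comp k'[X] F0 v)) h3 hb hd hz
    hg3 hloc' hk.ne hk.cube hk.act
  refine gen1 (F := L) (L := Comp k'[X] F0 v) (wv (F := F0) v) ((wv v).comap j)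
    (fun x => rfl) ?_ ?_ ?_ h4
  · have e3 : (3 : L) = algebraMap K L (algebraMap k[X] K 3) := by
      rw [map_ofNat, map_ofNat]
    rw [e3, hval]
    exact v.intValuation_le_one _
  · rw [ea, hval]
    exact v.intValuation_le_one _
  · have e4 : a ^ 3 - 27 * b = algebraMap k[X] K (pa ^ 3 - 27 * pb) := by
      rw [ea, eb, map_sub, map_pow, map_mul, map_ofNat]
    rw [e4, hval, HeightOneSpectrum.intValuation_eq_one_iff]
    exact hv1

end good

end Pool.Agent.Helper23K9.Q4
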