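import Pool.Agent.Helper23K9.Q4.Des
import Pool.Agent.Helper7K9.T3.Ord

/-!
The normal form of elements with trivial ramification.
-/

set_option autoImplicit false
set_option linter.all false

open Polynomial IsDedekindDomain
open scoped Classical

namespace Pool.Agent.Helper23K9.Q4

open Pool.Agent.Helper7K9.T3 (om om_mul om_pow om_one om_cube om_of_Cu Cu cube_F)

section val

variable {k' F0 : Type} [Field k'] [Field F0] [Algebra k'[X] F0] [IsFractionRing k'[X] F0]

theorem val_dec (v : HeightOneSpectrum k'[X]) : ∃ π : k'[X], Irreducible π ∧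
    (∀ p, p ∈ v.asIdeal ↔ π ∣ p) ∧ ∀ p : k'[X], p ≠ 0 → ∃ (n : ℕ) (q : k'[X]), p = π ^ n * q ∧
      ¬ π ∣ q ∧ v.intValuation p = WithZero.exp (-(n : ℤ)) := by
  obtain ⟨π, hπ⟩ := (IsPrincipalIdealRing.principal v.asIdeal).principal
  have hπ' : v.asIdeal = Ideal.span {π} := hπ
  have hπ0 : π ≠ 0 := by
    rintro rfl
    apply v.ne_bot
    rw [hπ', Ideal.span_singleton_eq_bot]
  have hpr : Prime π := (Ideal.span_singleton_prime hπ0).1 (hπ' ▸ v.isPrime)
  have hmem : ∀ p, p ∈ v.asIdeal ↔ π ∣ p := by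
    intro p
    rw [hπ', Ideal.mem_span_singleton]
  refine ⟨π, hpr.irreducible, hmem, fun p hp => ?_⟩
  obtain ⟨q, hq, e⟩ := (FiniteMultiplicity.of_prime_left hpr hp).exists_eq_pow_mul_and_not_dvd
  obtain ⟨n, hn⟩ : ∃ n, n = multiplicity π p := ⟨_, rfl⟩
  rw [← hn] at hq
  refine ⟨n, q, hq, e, ?_⟩
  have e1 : v.intValuation q = 1 := by
    rw [HeightOneSpectrum.intValuation_eq_one_iff, hmem]
    exact e
  have e2 : v.intValuation π = WithZero.exp (-1 : ℤ) := v.intValuation_singleton hπ0 hπ'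
  rw [hq, map_mul, map_pow, e1, e2, mul_one, ← WithZero.exp_nsmul, nsmul_eq_mul]
  congr 1
  ring

/-- The valuation of a squarefree polynomial. -/
theorem val_sqf (v : HeightOneSpectrum k'[X]) {p : k'[X]} (hp : Squarefree p) (hv : p ∈ v.asIdeal) :
    v.valuation F0 (algebraMap k'[X] F0 p) = WithZero.exp (-1 : ℤ) := by
  obtain ⟨π, hπ, hmem, hdec⟩ := val_dec v
  obtain ⟨n, q, e, hq, hval⟩ := hdec p hp.ne_zero
  have h1 : n = 1 := by
    rcases n with _ | _ | n
    · exfalso
      rw [hmem, e, pow_zero, one_mul] at hv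
      exact hq hv
    · rfl
    · exfalso
      apply hπ.not_isUnit
      apply hp
      rw [e]
      exact ⟨π ^ n * q, by ring⟩
  rw [v.valuation_of_algebraMap, hval, h1]
  rfl

theorem om_not (v : HeightOneSpectrum k'[X]) {p : k'[X]} (hv : p ∉ v.asIdeal) :
    om v (algebraMap k'[X] F0 p) = 0 := by
  apply om_of_Cu
  rw [v.valuation_of_algebraMap, (HeightOneSpectrum.intValuation_eq_one_iff).2 hv]
  exact Cu.one

theorem om_sqf (v : HeightOneSpectrum k'[X]) {p : k'[X]} (hp : Squarefree p) (hv : p ∈ v.asIdeal) :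
    om v (algebraMap k'[X] F0 p) = 1 := by
  unfold om
  rw [val_sqf v hp hv, WithZero.log_exp]
  norm_num

theorem om_eq {v : HeightOneSpectrum k'[X]} {x y : F0} (h : v.valuation F0 x = v.valuation F0 y) :
    om v x = om v y := by
  unfold om
  rw [h]

end val

section nrm

variable {k' F0 L : Type} [Field k'] [IsSepClosed k'] [Field F0] [Algebra k'[X] F0]
  [IsFractionRing k'[X] F0] [Field L] [Algebra F0 L] {D : k'[X]} (hD : Odd D.natDegree)
  (hsq : Squarefree D) (h3 : (3 : k') ≠ 0)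
  {r : L} (hr : r ^ 2 = algebraMap F0 L (algebraMap k'[X] F0 D))

theorem zm1 : ∀ x : ZMod 3, 2 * x = 0 → x = 0 := by decide

theorem zm2 : ∀ x : ZMod 3, 2 * x + 1 = 0 → x = 1 := by decide

include hsq in
/-- The order of the constant at the ramified places. -/
theorem om_ram {c g0 : F0} (hc : c ≠ 0) {a b : k'[X]} (hab : IsCoprime a b)
    (hQ : a ^ 2 - D * b ^ 2 ≠ 0)
    (hN : c ^ 2 * algebraMap k'[X] F0 (a ^ 2 - D * b ^ 2) = g0 ^ 3) (v : HeightOneSpectrum k'[X])
    (hv : D ∈ v.asIdeal) : om v c = if a ∈ v.asIdeal then 1 else 0 := by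
  have hQ' : algebraMap k'[X] F0 (a ^ 2 - D * b ^ 2) ≠ 0 := by
    rw [Ne, map_eq_zero_iff _ (IsFractionRing.injective k'[X] F0)]
    exact hQ
  have e1 := congrArg (om v) hN
  rw [om_mul v (pow_ne_zero 2 hc) hQ', om_pow, om_pow] at e1
  have h30 : ((3 : ℕ) : ZMod 3) = 0 := by decide
  rw [h30, zero_mul] at e1
  split_ifs with ha
  · have hb : b ∉ v.asIdeal := by
      intro hb
      obtain ⟨x, y, hxy⟩ := hab
      apply v.isPrime.ne_top
      rw [Ideal.eq_top_iff_one, ← hxy]
      exact v.asIdeal.add_mem (v.asIdeal.mul_mem_left _ ha) (v.asIdeal.mul_mem_left _ hb)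
    have v1 : v.valuation F0 (algebraMap k'[X] F0 (D * b ^ 2)) = WithZero.exp (-1 : ℤ) := by
      rw [map_mul, map_mul, val_sqf v hsq hv, map_pow, map_pow, v.valuation_of_algebraMap,
        (HeightOneSpectrum.intValuation_eq_one_iff).2 hb, one_pow, mul_one]
    have v2 : v.valuation F0 (algebraMap k'[X] F0 (a ^ 2)) < WithZero.exp (-1 : ℤ) := by
      have h4 : v.intValuation a ≤ WithZero.exp (-((1 : ℕ) : ℤ)) := by
        rw [v.intValuation_le_pow_iff_dvd, pow_one, Ideal.dvd_span_singleton]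
        exact ha
      rw [map_pow, map_pow, v.valuation_of_algebraMap]
      calc v.intValuation a ^ 2 ≤ (WithZero.exp (-((1 : ℕ) : ℤ))) ^ 2 := pow_le_pow_left₀ zero_le h4 2
        _ < WithZero.exp (-1 : ℤ) := by
          rw [← WithZero.exp_nsmul, WithZero.exp_lt_exp]
          norm_num
    have v3 : v.valuation F0 (algebraMap k'[X] F0 (a ^ 2 - D * b ^ 2)) =
        v.valuation F0 (algebraMap k'[X] F0 (D * b ^ 2)) := by
      rw [map_sub]
      apply Valuation.map_sub_eq_of_lt_right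
      rw [v1]
      exact v2
    have v4 : om v (algebraMap k'[X] F0 (a ^ 2 - D * b ^ 2)) = 1 := by
      unfold om
      rw [v3, v1, WithZero.log_exp]
      norm_num
    rw [v4] at e1
    exact zm2 _ (by exact_mod_cast e1)
  · have h5 : a ^ 2 - D * b ^ 2 ∉ v.asIdeal := by
      intro h
      apply ha
      apply v.isPrime.mem_of_pow_mem 2
      have h6 : a ^ 2 = (a ^ 2 - D * b ^ 2) + D * b ^ 2 := by ring
      rw [h6]
      exact v.asIdeal.add_mem h (v.asIdeal.mul_mem_right _ hv)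
    rw [om_not v h5, add_zero] at e1
    exact zm1 _ (by exact_mod_cast e1)

include hD hsq h3 hr in
/-- Elements with trivial ramification have reduced representatives. -/
theorem to_Rd {c g0 : F0} (hc : c ≠ 0) {a b : k'[X]} (hab : IsCoprime a b)
    (hN : c ^ 2 * algebraMap k'[X] F0 (a ^ 2 - D * b ^ 2) = g0 ^ 3)
    (hom : ∀ v : HeightOneSpectrum k'[X], D ∉ v.asIdeal → om v c = 0) :
    ∃ p q w, Rd ((algebraMap F0 L).comp (algebraMap k'[X] F0)) r D (algebraMap F0 L c *
      (algebraMap F0 L (algebraMap k'[X] F0 a) + algebraMap F0 L (algebraMap k'[X] F0 b) * r))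
      p q w ∧ 2 * w.natDegree < D.natDegree := by
  obtain ⟨i, hi⟩ : ∃ i : k'[X] →+* L, i = (algebraMap F0 L).comp (algebraMap k'[X] F0) := ⟨_, rfl⟩
  have hia : ∀ p, i p = algebraMap F0 L (algebraMap k'[X] F0 p) := fun p => by rw [hi]; rfl
  have hinj : Function.Injective i := by
    rw [hi]
    exact (algebraMap F0 L).injective.comp (IsFractionRing.injective k'[X] F0)
  rw [← hi, ← hia, ← hia]
  have hr' : r ^ 2 = i D := by rw [hia]; exact hr
  have hQ : a ^ 2 - D * b ^ 2 ≠ 0 := by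
    intro h0
    obtain ⟨rfl, rfl⟩ := norm_ne hD h0
    exact not_isCoprime_zero_zero hab
  -- the common divisor
  obtain ⟨m, hm1, hm2, x, y, hxy⟩ : ∃ m, m ∣ a ∧ m ∣ D ∧ ∃ x y, m = a * x + D * y :=
    ⟨EuclideanDomain.gcd a D, EuclideanDomain.gcd_dvd_left a D, EuclideanDomain.gcd_dvd_right a D,
      _, _, EuclideanDomain.gcd_eq_gcd_ab a D⟩
  have hmsq : Squarefree m := hsq.squarefree_of_dvd hm2
  have hm0 : m ≠ 0 := hmsq.ne_zero
  have hmF : algebraMap k'[X] F0 m ≠ 0 := by simpa using hm0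
  have hmod : ∀ v : HeightOneSpectrum k'[X], om v (c / algebraMap k'[X] F0 m) = 0 := by
    intro v
    have e1 : om v c = om v (algebraMap k'[X] F0 m) := by
      by_cases hv : D ∈ v.asIdeal
      · rw [om_ram hsq hc hab hQ hN v hv]
        split_ifs with ha
        · rw [om_sqf v hmsq]
          rw [hxy]
          exact v.asIdeal.add_mem (v.asIdeal.mul_mem_right _ ha) (v.asIdeal.mul_mem_right _ hv)
        · rw [om_not v]
          intro hm
          exact ha (v.asIdeal.mem_of_dvd hm1 hm)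
      · rw [hom v hv, om_not v]
        intro hm
        exact hv (v.asIdeal.mem_of_dvd hm2 hm)
    have e2 : c = c / algebraMap k'[X] F0 m * algebraMap k'[X] F0 m :=
      (div_mul_cancel₀ _ hmF).symm
    have e3 := congrArg (om v) e2
    rw [om_mul v (div_ne_zero hc hmF) hmF, e1] at e3
    exact left_eq_add.1 ((add_comm _ _).trans e3.symm).symm |> fun h => by simpa using h
  obtain ⟨u, s, hu, hs, e⟩ := cube_F (div_ne_zero hc hmF) hmod
  haveI : NeZero ((3 : ℕ) : k') := ⟨by exact_mod_cast h3⟩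
  obtain ⟨u1, hu1⟩ := IsSepClosed.exists_pow_nat_eq u 3
  have hu10 : u1 ≠ 0 := by
    rintro rfl
    rw [zero_pow three_ne_zero] at hu1
    exact hu hu1.symm
  obtain ⟨t, ht⟩ : ∃ t : F0, t = algebraMap k'[X] F0 (C u1) * s := ⟨_, rfl⟩
  have ht0 : t ≠ 0 := by
    rw [ht]
    exact mul_ne_zero (by simpa using hu10) hs
  have hct : c = algebraMap k'[X] F0 m * t ^ 3 := by
    rw [ht, mul_pow, ← map_pow, ← C_pow, hu1, ← e]
    field_simp
  -- the norm
  obtain ⟨g, hg⟩ : ∃ g : k'[X], algebraMap k'[X] F0 g = g0 / t ^ 2 := by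
    apply IsIntegrallyClosed.exists_algebraMap_eq_of_isIntegral_pow (n := 3) (by norm_num)
    have e4 : (g0 / t ^ 2) ^ 3 = algebraMap k'[X] F0 (m ^ 2 * (a ^ 2 - D * b ^ 2)) := by
      rw [div_pow, ← hN, hct, map_mul, map_pow]
      field_simp
    rw [e4]
    exact isIntegral_algebraMap
  have hg3 : m ^ 2 * (a ^ 2 - D * b ^ 2) = g ^ 3 := by
    apply IsFractionRing.injective k'[X] F0
    rw [map_pow, hg, div_pow, ← hN, hct, map_mul, map_pow]
    field_simp
  have hg0 : g ≠ 0 := by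
    rintro rfl
    rw [zero_pow three_ne_zero] at hg3
    exact mul_ne_zero (pow_ne_zero 2 hm0) hQ hg3
  obtain ⟨U, V, p, q, w, -, hw, e5, e6, e7⟩ := reduce i hinj hr' hD hm0 hm1 hm2 hab hg0 hg3
  refine ⟨p, q, w, ⟨hw, e6, algebraMap F0 L t * (i U + i V * r), ?_⟩, e7⟩
  rw [mul_pow, e5, hct, map_mul, map_pow, hia m]
  ring

end nrm

end Pool.Agent.Helper23K9.Q4
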