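import Mathlib

/-!
Reduction of elements of `κ[X][√D]` modulo cubes.
-/

set_option autoImplicit false
set_option linter.all false

open Polynomial

namespace Pool.Agent.Helper23K9.Q4

section lin

variable {κ : Type} [Field κ]

/-- Solutions of a congruence of small degree. -/
theorem exists_uv {g : κ[X]} (s : κ[X]) (hg : g ≠ 0) {P Q : ℕ} (h : g.natDegree < P + Q) :
    ∃ u v : κ[X], (u ≠ 0 ∨ v ≠ 0) ∧ u.degree < P ∧ v.degree < Q ∧ g ∣ u + v * s := by
  let φ : (degreeLT κ P × degreeLT κ Q) →ₗ[κ] AdjoinRoot g :=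
    { toFun := fun x => AdjoinRoot.mk g ((x.1 : κ[X]) + (x.2 : κ[X]) * s)
      map_add' := fun x y => by
        rw [← map_add]
        congr 1
        simp only [Prod.fst_add, Prod.snd_add, Submodule.coe_add]
        ring
      map_smul' := fun c x => by
        simp only [Prod.smul_fst, Prod.smul_snd, Submodule.coe_smul, RingHom.id_apply]
        rw [smul_mul_assoc, ← smul_add, AdjoinRoot.smul_mk] }
  haveI : Module.Finite κ (AdjoinRoot g) := (AdjoinRoot.powerBasis hg).finite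
  haveI : Module.Finite κ (degreeLT κ P) := Module.Finite.equiv (degreeLTEquiv κ P).symm
  haveI : Module.Finite κ (degreeLT κ Q) := Module.Finite.equiv (degreeLTEquiv κ Q).symm
  have h1 : Module.finrank κ (AdjoinRoot g) <
      Module.finrank κ (degreeLT κ P × degreeLT κ Q) := by
    rw [(AdjoinRoot.powerBasis hg).finrank, AdjoinRoot.powerBasis_dim, Module.finrank_prod,
      LinearEquiv.finrank_eq (degreeLTEquiv κ P), LinearEquiv.finrank_eq (degreeLTEquiv κ Q),
      Module.finrank_fin_fun, Module.finrank_fin_fun]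
    exact h
  have h2 := LinearMap.ker_ne_bot_of_finrank_lt (f := φ) h1
  obtain ⟨x, hx, hx0⟩ := Submodule.exists_mem_ne_zero_of_ne_bot h2
  refine ⟨x.1, x.2, ?_, mem_degreeLT.1 x.1.2, mem_degreeLT.1 x.2.2, ?_⟩
  · by_contra hcon
    push Not at hcon
    apply hx0
    ext1
    · exact Subtype.ext hcon.1
    · exact Subtype.ext hcon.2
  · have h3 : AdjoinRoot.mk g ((x.1 : κ[X]) + (x.2 : κ[X]) * s) = 0 := hx
    rwa [AdjoinRoot.mk_eq_zero] at h3

/-- The norm form of a polynomial of odd degree. -/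
theorem norm_ne {D : κ[X]} (hD : Odd D.natDegree) {u v : κ[X]} (h : u ^ 2 - D * v ^ 2 = 0) :
    u = 0 ∧ v = 0 := by
  have hD0 : D ≠ 0 := by
    rintro rfl
    simp at hD
  by_cases hv : v = 0
  · rw [hv] at h
    refine ⟨?_, hv⟩
    simpa using h
  · exfalso
    have h1 : u ^ 2 = D * v ^ 2 := sub_eq_zero.1 h
    have h2 := congrArg natDegree h1
    rw [natDegree_pow, natDegree_mul hD0 (pow_ne_zero 2 hv), natDegree_pow] at h2
    obtain ⟨n, hn⟩ := hD
    omega

/-- The degree of the norm. -/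
theorem norm_deg {D : κ[X]} (hD : Odd D.natDegree) {u v : κ[X]} (hv : v ≠ 0) :
    D.natDegree + 2 * v.natDegree ≤ (u ^ 2 - D * v ^ 2).natDegree := by
  have hD0 : D ≠ 0 := by
    rintro rfl
    simp at hD
  have e1 : (D * v ^ 2).natDegree = D.natDegree + 2 * v.natDegree := by
    rw [natDegree_mul hD0 (pow_ne_zero 2 hv), natDegree_pow]
  have e2 : (u ^ 2).natDegree = 2 * u.natDegree := natDegree_pow _ _
  obtain ⟨n, hn⟩ := hD
  rcases lt_trichotomy (u ^ 2).natDegree (D * v ^ 2).natDegree with h | h | h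
  · rw [natDegree_sub_eq_right_of_natDegree_lt h, e1]
  · omega
  · rw [natDegree_sub_eq_left_of_natDegree_lt h, ← e1]
    exact h.le

end lin

section red

variable {κ L : Type} [Field κ] [Field L] (i : κ[X] →+* L) (hi : Function.Injective i) {r : L}
  {D : κ[X]} (hr : r ^ 2 = i D) (hD : Odd D.natDegree)

include hi hr hD

theorem ind {u v : κ[X]} (h : i u + i v * r = 0) : u = 0 ∧ v = 0 := by
  apply norm_ne hD
  apply hi
  rw [map_sub, map_mul, map_pow, map_pow, map_zero, ← hr]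
  linear_combination (i u - i v * r) * h

theorem conj0 {u v : κ[X]} (h : i u + i v * r = 0) : i u - i v * r = 0 := by
  obtain ⟨rfl, rfl⟩ := ind i hi hr hD h
  simp

/-- Conjugation of an equation. -/
theorem conj_eq {m a b p q u v : κ[X]}
    (h : (i u + i v * r) ^ 3 = i m * (i a + i b * r) * (i p + i q * r)) :
    (i u - i v * r) ^ 3 = i m * (i a - i b * r) * (i p - i q * r) := by
  have h1 : i (u ^ 3 + 3 * u * v ^ 2 * D - m * (a * p + b * q * D)) +
      i (3 * u ^ 2 * v + v ^ 3 * D - m * (a * q + b * p)) * r = 0 := by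
    simp only [map_add, map_sub, map_mul, map_pow, map_ofNat, ← hr]
    linear_combination h
  obtain ⟨h2, h3⟩ := ind i hi hr hD h1
  have h4 := congrArg i h2
  have h5 := congrArg i h3
  simp only [map_add, map_sub, map_mul, map_pow, map_ofNat, ← hr, map_zero] at h4 h5
  linear_combination h4 - r * h5

/-- **The reduction.** -/
theorem reduce {m a b g : κ[X]} (hm : m ≠ 0) (ha : m ∣ a) (hmD : m ∣ D) (hab : IsCoprime a b)
    (hg0 : g ≠ 0) (hg : m ^ 2 * (a ^ 2 - D * b ^ 2) = g ^ 3) :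
    ∃ u v p q w : κ[X], (u ≠ 0 ∨ v ≠ 0) ∧ w ≠ 0 ∧
      (i u + i v * r) ^ 3 = i m * (i a + i b * r) * (i p + i q * r) ∧
      p ^ 2 - D * q ^ 2 = w ^ 3 ∧ 2 * w.natDegree < D.natDegree := by
  obtain ⟨a', rfl⟩ := ha
  obtain ⟨D1, hD1⟩ := hmD
  have hmg : m ∣ g := by
    rw [← IsIntegrallyClosed.pow_dvd_pow_iff (three_ne_zero), ← hg, hD1]
    exact ⟨m * a' ^ 2 - D1 * b ^ 2, by ring⟩
  obtain ⟨h, rfl⟩ := hmg
  have hh0 : h ≠ 0 := right_ne_zero_of_mul hg0
  have e1 : (m * a') ^ 2 - D * b ^ 2 = m * h ^ 3 := by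
    apply mul_left_cancel₀ (pow_ne_zero 2 hm)
    rw [hg]
    ring
  have hcop : IsCoprime (m * h ^ 3) b := by
    rw [← e1]
    have h1 : IsCoprime ((m * a') ^ 2) b := hab.pow_left
    have h2 : (m * a') ^ 2 - D * b ^ 2 = (m * a') ^ 2 + b * (-(D * b)) := by ring
    rw [h2]
    exact (IsCoprime.add_mul_left_left_iff).2 h1
  obtain ⟨α, β, hαβ⟩ := hcop
  obtain ⟨γ, hγ⟩ := hD
  have hD : Odd D.natDegree := ⟨γ, hγ⟩
  obtain ⟨N, hN⟩ : ∃ N, N = (m * h).natDegree := ⟨_, rfl⟩
  obtain ⟨u, v, huv, hu, hv, y, hy⟩ := exists_uv (-(m * a' * β)) hg0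
    (P := (N + γ) / 2 + 1) (Q := (N + 1 - γ) / 2) (by omega)
  -- the element `ε`
  obtain ⟨ε, hε⟩ : ∃ ε, ε = i β - i α * i b * i D + i α * i (m * a') * r := ⟨_, rfl⟩
  have hαβ' : i α * (i m * i h ^ 3) + i β * i b = 1 := by
    have := congrArg i hαβ
    simpa only [map_add, map_mul, map_pow, map_one] using this
  have e1' : (i m * i a') ^ 2 - i D * i b ^ 2 = i m * i h ^ 3 := by
    have := congrArg i e1
    simpa only [map_sub, map_mul, map_pow] using this
  have key : (i (m * a') - i b * r) * (r + i (m * a') * i β) = i m * i h ^ 3 * ε := by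
    rw [hε, map_mul]
    linear_combination (-(i b)) * hr + (i β) * e1' + (-(i m * i a' * r) + i b * i D) * hαβ'
  have hD1' : i D = i m * i D1 := by rw [hD1, map_mul]
  have hy' : i u = i m * i h * i y + i v * (i m * i a' * i β) := by
    have h1 : u = m * h * y + v * (m * a' * β) := by linear_combination hy
    rw [h1]
    simp only [map_add, map_mul]
  obtain ⟨s, hs⟩ : ∃ s, s = r + i m * i a' * i β := ⟨_, rfl⟩
  rw [map_mul, ← hs] at key
  have hx : i u + i v * r = i m * i h * i y + i v * s := by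
    rw [hy', hs]; ring
  have hs2 : s ^ 2 = i m * (i D1 + i m * i a' ^ 2 * i β ^ 2 + 2 * i a' * i β * r) := by
    rw [hs]
    linear_combination hr + hD1'
  obtain ⟨ε0, hε0⟩ : ∃ ε0, ε0 = β - α * b * D := ⟨_, rfl⟩
  obtain ⟨ε1, hε1⟩ : ∃ ε1, ε1 = α * m * a' := ⟨_, rfl⟩
  have hεε : ε = i ε0 + i ε1 * r := by
    rw [hε, hε0, hε1]
    simp only [map_sub, map_mul]
    ring
  obtain ⟨p, hp⟩ : ∃ p, p = m * y ^ 3 * (m * a') + 3 * m * h ^ 2 * y ^ 2 * v * ε0 +
    3 * h * y * v ^ 2 * (m * a' * β * ε0 + ε1 * D) +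
    v ^ 3 * ((D1 + m * a' ^ 2 * β ^ 2) * ε0 + 2 * a' * β * ε1 * D) := ⟨_, rfl⟩
  obtain ⟨q, hq⟩ : ∃ q, q = -(m * y ^ 3 * b) + 3 * m * h ^ 2 * y ^ 2 * v * ε1 +
    3 * h * y * v ^ 2 * (ε0 + m * a' * β * ε1) +
    v ^ 3 * ((D1 + m * a' ^ 2 * β ^ 2) * ε1 + 2 * a' * β * ε0) := ⟨_, rfl⟩
  have hP : i p + i q * r = i m * i y ^ 3 * (i m * i a' - i b * r) +
      3 * i m * i h ^ 2 * i y ^ 2 * i v * ε + 3 * i h * i y * i v ^ 2 * (s * ε) +
      i v ^ 3 * (i D1 + i m * i a' ^ 2 * i β ^ 2 + 2 * i a' * i β * r) * ε := by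
    rw [hp, hq, hεε, hs]
    simp only [map_add, map_sub, map_mul, map_pow, map_ofNat, map_neg]
    linear_combination (-(3 * i h * i y * i v ^ 2 * i ε1) - 2 * i v ^ 3 * i a' * i β * i ε1) * hr
  have hne : i m * i a' - i b * r ≠ 0 := by
    intro h0
    have h1 : i (m * a') + i (-b) * r = 0 := by
      rw [map_mul, map_neg]
      linear_combination h0
    obtain ⟨h2, h3⟩ := ind i hi hr hD h1
    rw [h2, neg_eq_zero.1 h3] at hab
    exact not_isCoprime_zero_zero hab
  have main : (i u + i v * r) ^ 3 = i m * (i (m * a') + i b * r) * (i p + i q * r) := by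
    apply mul_left_cancel₀ hne
    rw [map_mul, hx, hP]
    have e2 : (i m * i a' - i b * r) * (i m * i a' + i b * r) = i m * i h ^ 3 := by
      linear_combination e1' - (i b) ^ 2 * hr
    linear_combination (3 * (i m * i h * i y) ^ 2 * i v + 3 * (i m * i h * i y) * i v ^ 2 * s +
      i v ^ 3 * s ^ 2) * key + i v ^ 3 * (i m * i h ^ 3 * ε) * hs2 -
      i m * (i m * i y ^ 3 * (i m * i a' - i b * r) +
      3 * i m * i h ^ 2 * i y ^ 2 * i v * ε + 3 * i h * i y * i v ^ 2 * (s * ε) +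
      i v ^ 3 * (i D1 + i m * i a' ^ 2 * i β ^ 2 + 2 * i a' * i β * r) * ε) * e2
  have main' := conj_eq i hi hr hD main
  have hN3 : (u ^ 2 - D * v ^ 2) ^ 3 = (m * h) ^ 3 * (p ^ 2 - D * q ^ 2) := by
    apply hi
    have e3 := congrArg i hg
    simp only [map_sub, map_mul, map_pow, ← hr] at e3 main main' ⊢
    have e4 : (i u ^ 2 - r ^ 2 * i v ^ 2) ^ 3 = (i u + i v * r) ^ 3 * (i u - i v * r) ^ 3 := by ring
    rw [e4, main, main', ← e3]
    ring
  have hNx : u ^ 2 - D * v ^ 2 ≠ 0 := by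
    intro h0
    obtain ⟨h1, h2⟩ := norm_ne hD h0
    rcases huv with h3 | h3
    · exact h3 h1
    · exact h3 h2
  obtain ⟨w, hw⟩ : m * h ∣ u ^ 2 - D * v ^ 2 := by
    rw [← IsIntegrallyClosed.pow_dvd_pow_iff (three_ne_zero), hN3]
    exact dvd_mul_right _ _
  have hw0 : w ≠ 0 := by
    rintro rfl
    rw [mul_zero] at hw
    exact hNx hw
  refine ⟨u, v, p, q, w, huv, hw0, main, ?_, ?_⟩
  · rw [hw, mul_pow] at hN3
    exact (mul_left_cancel₀ (pow_ne_zero 3 hg0) hN3).symm
  · have h1 : (u ^ 2 - D * v ^ 2).natDegree = N + w.natDegree := by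
      rw [hw, natDegree_mul hg0 hw0, hN]
    have h2 : (u ^ 2 - D * v ^ 2).natDegree ≤ N + γ := by
      refine (natDegree_sub_le _ _).trans (max_le ?_ ?_)
      · rw [natDegree_pow]
        by_cases hu0 : u = 0
        · rw [hu0, natDegree_zero]; omega
        · rw [degree_eq_natDegree hu0] at hu
          have : u.natDegree < (N + γ) / 2 + 1 := by exact_mod_cast hu
          omega
      · by_cases hv0 : v = 0
        · rw [hv0, zero_pow (two_ne_zero), mul_zero, natDegree_zero]; omega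
        · rw [degree_eq_natDegree hv0] at hv
          have h3 : v.natDegree < (N + 1 - γ) / 2 := by exact_mod_cast hv
          have hD0 : D ≠ 0 := by
            rintro rfl
            simp at hγ
          rw [natDegree_mul hD0 (pow_ne_zero 2 hv0), natDegree_pow, hγ]
          omega
    omega

end red

end Pool.Agent.Helper23K9.Q4
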