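import Pool.Agent.Helper23K9.Q5.Sie

/-!
Sets of density zero of cubic polynomials.
-/

set_option autoImplicit false
set_option linter.all false

open Polynomial NumberField
open scoped Classical

namespace Pool.Agent.Helper23K9.Q4

open Pool.Agent.R939.EI
open Pool.Agent.Helper23K9.Q5

/-- Preimages under homomorphisms. -/
theorem pre_card {G H : Type} [AddCommGroup G] [Fintype G] [AddCommGroup H] [Fintype H]
    (f : G →+ H) (hf : Function.Surjective f) (T : Finset H) :
    (Finset.univ.filter fun y => f y ∈ T).card * Fintype.card H = T.card * Fintype.card G := by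
  have e1 := Finset.card_eq_sum_card_fiberwise (f := f)
    (s := Finset.univ.filter fun y : G => f y ∈ T) (t := T) (fun y hy => by simpa using hy)
  rw [e1, Finset.sum_mul, ← smul_eq_mul (T.card), ← Finset.sum_const]
  refine Finset.sum_congr rfl fun s hs => ?_
  rw [← fiber_card f hf s]
  congr 2
  ext y
  simp only [Finset.mem_filter, Finset.mem_univ, true_and]
  constructor
  · exact fun h => h.2
  · intro h
    exact ⟨by rw [h]; exact hs, h⟩

section zr3

variable {k M : Type} [Field k] [NumberField k] [Field M] [NumberField M] [Algebra k M]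
  {J : Type} [Fintype J] (B : Module.Basis J ℤ (𝓞 k))

/-- Triples of integers with given coordinates. -/
noncomputable def el3 (x : Fin 3 × J → ℤ) (i : Fin 3) : 𝓞 k := el B fun j => x (i, j)

/-- The sieve for triples of integers. -/
theorem zr3 {δ : ℝ} (hδ0 : 0 < δ) (hδ : δ ≤ 1) {N : ℕ} (hN : N ≠ 0)
    (S : (p : ℕ) → (𝓞 M →+* ZMod p) → Set (Fin 3 → ZMod p))
    (hS : ∀ (p : ℕ) [Fact p.Prime] (φ : 𝓞 M →+* ZMod p), ¬ p ∣ N →
      δ * (p : ℝ) ^ 3 ≤ (S p φ).ncard) :
    Zr {x : Fin 3 × J → ℤ | ∀ (p : ℕ) (φ : 𝓞 M →+* ZMod p), p.Prime →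
      (fun i => φ (algebraMap (𝓞 k) (𝓞 M) (el3 B x i))) ∉ S p φ} := by
  let Ω : (p : ℕ) → Set (Fin 3 × J → ZMod p) := fun p => {y | ∃ φ : 𝓞 M →+* ZMod p,
    (fun i => ∑ j, y (i, j) * φ (algebraMap (𝓞 k) (𝓞 M) (B j))) ∈ S p φ}
  have h1 : Zr {x : Fin 3 × J → ℤ | ∀ p : ℕ, p.Prime → (fun i => (x i : ZMod p)) ∉ Ω p} := by
    refine zr_sieve hδ0 hδ Ω fun N' => ?_
    obtain ⟨q, hq, hqN, ⟨φ⟩⟩ := Pool.Agent.H637R2.Leo.exists_hom M (N * N'.factorial)
      (mul_ne_zero hN (Nat.factorial_ne_zero _))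
    haveI : Fact q.Prime := ⟨hq⟩
    have hq1 : ¬ q ∣ N := fun h => hqN (h.mul_right _)
    have hq2 : N' < q := by
      by_contra hcon
      exact hqN (((Nat.Prime.dvd_factorial hq).2 (not_lt.1 hcon)).mul_left _)
    refine ⟨q, hq2.le, hq, ?_⟩
    let f : (Fin 3 × J → ZMod q) →+ (Fin 3 → ZMod q) :=
      { toFun := fun y i => ∑ j, y (i, j) * φ (algebraMap (𝓞 k) (𝓞 M) (B j))
        map_zero' := by
          funext i
          simp
        map_add' := fun y y' => by
          funext i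
          rw [Pi.add_apply, ← Finset.sum_add_distrib]
          exact Finset.sum_congr rfl fun j _ => by rw [Pi.add_apply, add_mul] }
    have hfe : ∀ y i, f y i = ∑ j, y (i, j) * φ (algebraMap (𝓞 k) (𝓞 M) (B j)) := fun y i => rfl
    have hsurj : Function.Surjective f := by
      intro a
      have h2 : ∀ i, ∃ a' : 𝓞 k, φ (algebraMap (𝓞 k) (𝓞 M) a') = a i := by
        intro i
        obtain ⟨n, hn⟩ := ZMod.intCast_surjective (a i)
        exact ⟨(n : 𝓞 k), by rw [map_intCast, map_intCast, hn]⟩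
      choose a' ha' using h2
      refine ⟨fun ij => ((B.repr (a' ij.1) ij.2 : ℤ) : ZMod q), ?_⟩
      funext i
      rw [hfe, ← ha' i]
      conv_rhs => rw [← B.sum_repr (a' i), map_sum, map_sum]
      exact Finset.sum_congr rfl fun j _ => by rw [zsmul_eq_mul, map_mul, map_mul, map_intCast,
        map_intCast]
    obtain ⟨T, hT⟩ : ∃ T : Finset (Fin 3 → ZMod q), T = (Set.toFinite (S q φ)).toFinset := ⟨_, rfl⟩
    have hTc : ((S q φ).ncard : ℕ) = T.card := by
      rw [hT, Set.ncard_eq_toFinset_card _ (Set.toFinite (S q φ))]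
    have hSc := hS q φ hq1
    rw [hTc] at hSc
    obtain ⟨Y, hY⟩ : ∃ Y : Finset (Fin 3 × J → ZMod q), Y = Finset.univ.filter fun y => f y ∈ T :=
      ⟨_, rfl⟩
    have hcard : Y.card * Fintype.card (Fin 3 → ZMod q) =
        T.card * Fintype.card (Fin 3 × J → ZMod q) := by
      rw [hY]
      convert pre_card f hsurj T
    rw [Fintype.card_fun, Fintype.card_fun, Fintype.card_fin, ZMod.card, Fintype.card_prod,
      Fintype.card_fin] at hcard
    have hsub : (Y : Set (Fin 3 × J → ZMod q)) ⊆ Ω q := by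
      intro y hy
      have h3 : f y ∈ T := by
        rw [hY] at hy
        simpa using hy
      rw [hT, Set.Finite.mem_toFinset] at h3
      exact ⟨φ, h3⟩
    have h4 := Set.ncard_le_ncard hsub (Set.toFinite _)
    rw [Set.ncard_coe_finset] at h4
    have hq0 : (0 : ℝ) < (q : ℝ) ^ 3 := by
      have : (0 : ℝ) < q := by exact_mod_cast hq.pos
      positivity
    have h6 : (Y.card : ℝ) * (q : ℝ) ^ 3 = T.card * (q : ℝ) ^ (3 * Fintype.card J) := by
      exact_mod_cast hcard
    have h7 : (Y.card : ℝ) ≤ ((Ω q).ncard : ℝ) := by exact_mod_cast h4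
    refine le_trans ?_ h7
    refine le_of_mul_le_mul_right ?_ hq0
    rw [h6, Fintype.card_prod, Fintype.card_fin]
    have h8 : (0 : ℝ) ≤ (q : ℝ) ^ (3 * Fintype.card J) := by positivity
    nlinarith
  refine h1.mono ?_
  intro x hx p hp hmem
  obtain ⟨φ, hφ⟩ := hmem
  apply hx p φ hp
  convert hφ using 1
  funext i
  rw [el3, el, map_sum, map_sum]
  exact Finset.sum_congr rfl fun j _ => by rw [zsmul_eq_mul, map_mul, map_mul, map_intCast,
    map_intCast]

end zr3

section counts

variable {p : ℕ} [Fact p.Prime]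

/-- The lower coefficients of `c (X - e) ^ 2 (X - f)`. -/
def dbl {R : Type} [CommRing R] (c e f : R) : Fin 3 → R :=
  ![-(c * (e ^ 2 * f)), c * (e ^ 2 + 2 * e * f), -(c * (2 * e + f))]

/-- The lower coefficients of `(α X + β) ^ 2 + c (X - e) ^ 3`. -/
def flx {R : Type} [CommRing R] (c α β e : R) : Fin 3 → R :=
  ![β ^ 2 - c * e ^ 3, 2 * α * β + 3 * c * e ^ 2, α ^ 2 - 3 * c * e]

theorem card3 : Fintype.card (Fin 3 → ZMod p) = p ^ 3 := by
  rw [Fintype.card_fun, ZMod.card, Fintype.card_fin]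

theorem compl_card (T : Set (Fin 3 → ZMod p)) : (Tᶜ.ncard : ℝ) = (p : ℝ) ^ 3 - T.ncard := by
  have h1 := Set.ncard_add_ncard_compl T
  rw [Nat.card_eq_fintype_card, card3] at h1
  have h2 : (T.ncard : ℝ) + Tᶜ.ncard = (p : ℝ) ^ 3 := by exact_mod_cast h1
  linarith

theorem dbl_card (c : ZMod p) : (1 / 4 : ℝ) * (p : ℝ) ^ 3 ≤
    (({y : Fin 3 → ZMod p | ∃ e f, y = dbl c e f}ᶜ).ncard : ℝ) := by
  rw [compl_card]
  have h1 : {y : Fin 3 → ZMod p | ∃ e f, y = dbl c e f} =
      (fun x : ZMod p × ZMod p => dbl c x.1 x.2) '' Set.univ := by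
    ext y
    simp only [Set.mem_setOf_eq, Set.image_univ, Set.mem_range, Prod.exists]
    constructor
    · rintro ⟨e, f, h⟩
      exact ⟨e, f, h.symm⟩
    · rintro ⟨e, f, h⟩
      exact ⟨e, f, h.symm⟩
  have h2 : {y : Fin 3 → ZMod p | ∃ e f, y = dbl c e f}.ncard ≤ p ^ 2 := by
    rw [h1]
    refine (Set.ncard_image_le Set.finite_univ).trans ?_
    rw [Set.ncard_univ, Nat.card_eq_fintype_card, Fintype.card_prod, ZMod.card, pow_two]
  have h3 : ({y : Fin 3 → ZMod p | ∃ e f, y = dbl c e f}.ncard : ℝ) ≤ (p : ℝ) ^ 2 := by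
    exact_mod_cast h2
  have h4 : (2 : ℝ) ≤ p := by exact_mod_cast (Fact.out : p.Prime).two_le
  nlinarith [pow_pos (show (0 : ℝ) < p by linarith) 2]

theorem flx_card (c : ZMod p) (hp2 : p ≠ 2) : (1 / 8 : ℝ) * (p : ℝ) ^ 3 ≤
    (({y : Fin 3 → ZMod p | ∃ α β e, y = flx c α β e}ᶜ).ncard : ℝ) := by
  rw [compl_card]
  let f : ZMod p × ZMod p × ZMod p → (Fin 3 → ZMod p) := fun x => flx c x.1 x.2.1 x.2.2
  have h1 : {y : Fin 3 → ZMod p | ∃ α β e, y = flx c α β e} = f '' Set.univ := by
    ext y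
    simp only [Set.mem_setOf_eq, Set.image_univ, Set.mem_range, Prod.exists]
    constructor
    · rintro ⟨α, β, e, h⟩
      exact ⟨α, β, e, h.symm⟩
    · rintro ⟨α, β, e, h⟩
      exact ⟨α, β, e, h.symm⟩
  let A : Finset (ZMod p × ZMod p × ZMod p) := Finset.univ.filter fun x => x.1 ≠ 0 ∨ x.2.1 ≠ 0
  let A0 : Finset (ZMod p × ZMod p × ZMod p) := Finset.univ.filter fun x => ¬ (x.1 ≠ 0 ∨ x.2.1 ≠ 0)
  have hA : A.card + A0.card = p ^ 3 := by
    have := Finset.card_filter_add_card_filter_not (s := (Finset.univ : Finset (ZMod p × ZMod p × ZMod p)))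
      (fun x => x.1 ≠ 0 ∨ x.2.1 ≠ 0)
    rw [Finset.card_univ, Fintype.card_prod, Fintype.card_prod, ZMod.card] at this
    rw [show p ^ 3 = p * (p * p) by ring]
    exact this
  have hA0 : A0.card ≤ p := by
    have : A0 ⊆ Finset.univ.image (fun e : ZMod p => ((0 : ZMod p), (0 : ZMod p), e)) := by
      intro x hx
      rw [Finset.mem_filter] at hx
      rw [Finset.mem_image]
      have h2 := hx.2
      push Not at h2
      exact ⟨x.2.2, Finset.mem_univ _, Prod.ext h2.1.symm (Prod.ext h2.2.symm rfl)⟩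
    refine (Finset.card_le_card this).trans (Finset.card_image_le.trans ?_)
    rw [Finset.card_univ, ZMod.card]
  have h2p : (2 : ZMod p) ≠ 0 := by
    intro h0
    have h5 : ((2 : ℕ) : ZMod p) = 0 := by exact_mod_cast h0
    rw [ZMod.natCast_eq_zero_iff] at h5
    exact hp2 ((Nat.prime_dvd_prime_iff_eq Fact.out Nat.prime_two).1 h5)
  have hhalf : 2 * (A.image f).card ≤ A.card := by
    refine Finset.mul_card_image_le_card (f := f) A 2 ?_
    intro y hy
    rw [Finset.mem_image] at hy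
    obtain ⟨x, hx, rfl⟩ := hy
    have hx' := (Finset.mem_filter.1 hx).2
    have hne : x ≠ (-x.1, -x.2.1, x.2.2) := by
      intro h
      have h3 : x.1 = -x.1 := congrArg Prod.fst h
      have h4 : x.2.1 = -x.2.1 := congrArg (fun t : ZMod p × ZMod p × ZMod p => t.2.1) h
      have h5 : x.1 = 0 := by
        have : 2 * x.1 = 0 := by linear_combination h3
        exact (mul_eq_zero.1 this).resolve_left h2p
      have h6 : x.2.1 = 0 := by
        have : 2 * x.2.1 = 0 := by linear_combination h4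
        exact (mul_eq_zero.1 this).resolve_left h2p
      rcases hx' with h7 | h7
      · exact h7 h5
      · exact h7 h6
    have hsub : ({x, (-x.1, -x.2.1, x.2.2)} : Finset (ZMod p × ZMod p × ZMod p)) ⊆
        A.filter fun t => f t = f x := by
      intro t ht
      rw [Finset.mem_insert, Finset.mem_singleton] at ht
      rw [Finset.mem_filter]
      rcases ht with rfl | rfl
      · exact ⟨hx, rfl⟩
      · refine ⟨Finset.mem_filter.2 ⟨Finset.mem_univ _, ?_⟩, ?_⟩
        · rcases hx' with h7 | h7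
          · exact Or.inl (neg_ne_zero.2 h7)
          · exact Or.inr (neg_ne_zero.2 h7)
        · show flx c (-x.1) (-x.2.1) x.2.2 = flx c x.1 x.2.1 x.2.2
          unfold flx
          congr 1
          · ring
          · congr 1
            · ring
            · congr 1
              ring
    have := Finset.card_le_card hsub
    rwa [Finset.card_pair hne] at this
  have h3 : {y : Fin 3 → ZMod p | ∃ α β e, y = flx c α β e}.ncard ≤ (A.image f).card + A0.card := by
    rw [h1]
    have h4 : f '' Set.univ ⊆ ((A.image f ∪ A0.image f : Finset (Fin 3 → ZMod p)) :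
        Set (Fin 3 → ZMod p)) := by
      rintro _ ⟨x, -, rfl⟩
      rw [Finset.coe_union, Set.mem_union, Finset.mem_coe, Finset.mem_coe, Finset.mem_image,
        Finset.mem_image]
      by_cases hx : x.1 ≠ 0 ∨ x.2.1 ≠ 0
      · exact Or.inl ⟨x, Finset.mem_filter.2 ⟨Finset.mem_univ _, hx⟩, rfl⟩
      · exact Or.inr ⟨x, Finset.mem_filter.2 ⟨Finset.mem_univ _, hx⟩, rfl⟩
    refine (Set.ncard_le_ncard h4 (Finset.finite_toSet _)).trans ?_
    rw [Set.ncard_coe_finset]
    exact (Finset.card_union_le _ _).trans (Nat.add_le_add_left Finset.card_image_le _)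
  have h4 : 2 * {y : Fin 3 → ZMod p | ∃ α β e, y = flx c α β e}.ncard ≤ p ^ 3 + p := by omega
  have h5 : 2 * ({y : Fin 3 → ZMod p | ∃ α β e, y = flx c α β e}.ncard : ℝ) ≤ (p : ℝ) ^ 3 + p := by
    exact_mod_cast h4
  have h6 : (3 : ℝ) ≤ p := by
    have := (Fact.out : p.Prime).two_le
    have : 3 ≤ p := by omega
    exact_mod_cast this
  nlinarith [pow_pos (show (0 : ℝ) < p by linarith) 2, mul_self_nonneg ((p : ℝ) - 3)]

end counts

end Pool.Agent.Helper23K9.Q4
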