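import Pool.Agent.Helper23K9.Q4.Main
import Pool.Agent.Helper23K9.Q3.Crit

/-!
The criterion over a field which need not contain the cube roots of unity.
-/

set_option autoImplicit false
set_option linter.all false

open Polynomial IsDedekindDomain WeierstrassCurve WeierstrassCurve.Affine
open scoped Classical IntermediateField

namespace Pool.Agent.Helper23K9.Q4

open Pool.Agent.TH115.GD (vInf pl Pt act incl rs ak IsCoc LocTriv Sep Comp IsTower Preserves
  LocallyTrivial act_act act_inj preserves sepKΩ exists_conj fixed_point)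
open Pool.Agent.Helper7K9.T3 (TateAt IsTateClass IsTC IsInv tate_of_part crv3 isE3 third cube_roots
  three_smul)
open Pool.Agent.Helper23K9.T5 (exists_mid chg chg_act chg_act' chg_class rs_restrict)
open Pool.Agent.Helper23K9.Q5
open Pool.Agent.Helper23K9.Q3

section tran

variable {k k1 k' K F : Type} [Field k] [Field k1] [Field k'] [Algebra k k1]
    [Algebra k1 k'] [Algebra k k'] [IsScalarTower k k1 k'] [Field K] [Algebra k[X] K]
    [Field F] [Algebra k'[X] F] [IsFractionRing k'[X] F] [Algebra K F]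

/-- **The criterion for quadratic twists**, with conditions over `k1`. -/
theorem tate_twD (hT : IsTower k k' K F) (h2k : (2 : k) ≠ 0) (h3k : (3 : k) ≠ 0) {z0 : k1}
    (hz0 : z0 ^ 2 + z0 + 1 = 0) {pa pb : k[X]} {pa1 pb1 : k1[X]}
    (ha1 : pa1 = pa.map (algebraMap k k1)) (hb1 : pb1 = pb.map (algebraMap k k1))
    (hpb : pb1 ≠ 0) (hpd : pa1 ^ 3 - 27 * pb1 ≠ 0)
    (hs1 : ∀ π : k1[X], Irreducible π → π ∣ pb1 → π.Separable)
    (hs2 : ∀ π : k1[X], Irreducible π → π ∣ pa1 ^ 3 - 27 * pb1 → π.Separable)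
    {a b d : K} (ea : a = algebraMap k[X] K pa) (eb : b = algebraMap k[X] K pb)
    {D : k[X]} (hD : Odd D.natDegree) (hsq : Squarefree (D.map (algebraMap k k')))
    (ed : d = algebraMap k[X] K D)
    (hr1 : ∀ θ ρ : k', (pb1.map (algebraMap k1 k')).eval θ = 0 →
      ρ ^ 2 = (D.map (algebraMap k k')).eval θ → ρ ≠ 0 →
      ∃ s0 : k' ≃ₐ[k1] k', s0 θ = θ ∧ s0 ρ = -ρ)
    (hr2 : ∀ θ ρ : k', ((pa1 ^ 3 - 27 * pb1).map (algebraMap k1 k')).eval θ = 0 →
      ρ ^ 2 = (D.map (algebraMap k k')).eval θ → ρ ≠ 0 →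
      ∃ s0 : k' ≃ₐ[k1] k', s0 θ = θ ∧ s0 ρ = -ρ)
    (hno : ∀ (p q w : k1[X]) (κ : k1), q ≠ 0 →
      (∀ π, Irreducible π → π ∣ p → π ∣ q → π ∣ D.map (algebraMap k k1)) →
      p ^ 2 - D.map (algebraMap k k1) * q ^ 2 = C κ * w ^ 3 → D.natDegree < 2 * w.natDegree) :
    TateAt (F := F) 3 k' (qtw d (crv3 a b)) ∧
      ∀ P : Pt (qtw d (crv3 a b)) K, ∃! Q : Pt (qtw d (crv3 a b)) K, 3 • Q = P := by
  haveI := hT.sep
  haveI : IsFractionRing k[X] K := hT.fracK
  haveI : IsSepClosure K (Sep F) := sepKΩ hT.map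
  haveI : Algebra.IsSeparable K (Sep F) := IsSepClosure.separable
  haveI : IsGalois K (Sep F) := inferInstance
  have hpres : Preserves K F (Sep F) := preserves hT.map
  obtain ⟨K1, iK1, iX1, iKK1, iK1F, tow, hT1, hpol⟩ := exists_mid (k1 := k1) hT
  haveI := hT1.fracK
  haveI := hT1.sep
  have h31 : (3 : k1) ≠ 0 := by
    have h1 : (3 : k1) = algebraMap k k1 3 := (map_ofNat _ _).symm
    rw [h1]
    exact (_root_.map_ne_zero _).2 h3k
  have h21 : (2 : k1) ≠ 0 := by
    have h1 : (2 : k1) = algebraMap k k1 2 := (map_ofNat _ _).symm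
    rw [h1]
    exact (_root_.map_ne_zero _).2 h2k
  have ea1 : algebraMap K K1 a = algebraMap k1[X] K1 pa1 := by rw [ea, hpol, ha1]
  have eb1 : algebraMap K K1 b = algebraMap k1[X] K1 pb1 := by rw [eb, hpol, hb1]
  have ed1 : algebraMap K K1 d = algebraMap k1[X] K1 (D.map (algebraMap k k1)) := by
    rw [ed, hpol]
  have hW : qtw (algebraMap K K1 d) (crv3 (algebraMap K K1 a) (algebraMap K K1 b)) =
      (qtw d (crv3 a b)).map (algebraMap K K1) := by
    rw [crv3_map, qtw_map]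
  have hDD : (D.map (algebraMap k k1)).map (algebraMap k1 k') = D.map (algebraMap k k') := by
    rw [Polynomial.map_map, ← IsScalarTower.algebraMap_eq]
  have hD1 : Odd (D.map (algebraMap k k1)).natDegree := by rwa [natDegree_map]
  have hD0 : D ≠ 0 := by
    rintro rfl
    simp at hD
  obtain ⟨key, tor⟩ := key_twD hT1 h21 h31 hz0 hpb hpd hs1 hs2 ea1 eb1 hD1 (by rw [hDD]; exact hsq)
    ed1 (by rw [hDD]; exact hr1) (by rw [hDD]; exact hr2) (fun p q w κ hq hcf h => by
      rw [natDegree_map]; exact hno p q w κ hq hcf h)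
  have inj1 := IsFractionRing.injective k1[X] K1
  have h3K1 : (3 : K1) ≠ 0 := by
    have : (3 : K1) = algebraMap k1[X] K1 (C 3) := by rw [map_ofNat, map_ofNat]
    rw [this, Ne, map_eq_zero_iff _ inj1]
    exact C_ne_zero.2 h31
  have hbK1 : algebraMap K K1 b ≠ 0 := by
    rw [eb1, Ne, map_eq_zero_iff _ inj1]
    exact hpb
  have hdK1 : (algebraMap K K1 a) ^ 3 - 27 * algebraMap K K1 b ≠ 0 := by
    have : (algebraMap K K1 a) ^ 3 - 27 * algebraMap K K1 b =
        algebraMap k1[X] K1 (pa1 ^ 3 - 27 * pb1) := by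
      rw [ea1, eb1, map_sub, map_pow, map_mul, map_ofNat]
    rw [this, Ne, map_eq_zero_iff _ inj1]
    exact hpd
  have h := isE3 (algebraMap K K1 a) (algebraMap K K1 b) (Sep F) h3K1 hbK1 hdK1
  have hd0 : algebraMap K K1 d ≠ 0 := by
    rw [ed1, Ne, map_eq_zero_iff _ inj1]
    exact (Polynomial.map_ne_zero_iff (algebraMap k k1).injective).2 hD0
  have hE : (crv3 (algebraMap K K1 a) (algebraMap K K1 b)).Δ ≠ 0 := by
    rw [crv3_disc]
    exact mul_ne_zero (pow_ne_zero 3 hbK1) hdK1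
  have h2Ω : (2 : Sep F) ≠ 0 := by
    have h2K : (2 : K1) ≠ 0 := by
      have : (2 : K1) = algebraMap k1[X] K1 (C 2) := by rw [map_ofNat, map_ofNat]
      rw [this, Ne, map_eq_zero_iff _ inj1]
      exact C_ne_zero.2 h21
    have : (2 : Sep F) = algebraMap K1 (Sep F) 2 := (map_ofNat _ _).symm
    rw [this]
    exact (_root_.map_ne_zero _).2 h2K
  haveI : NeZero ((2 : ℕ) : Sep F) := ⟨by exact_mod_cast h2Ω⟩
  obtain ⟨r, hr⟩ := IsSepClosed.exists_pow_nat_eq (algebraMap K1 (Sep F) (algebraMap K K1 d)) 2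
  have hr0 : r ≠ 0 := by
    rintro rfl
    rw [zero_pow (by norm_num)] at hr
    exact (_root_.map_ne_zero _).2 hd0 hr.symm
  have h3r := cube_roots (Sep F) h.three
  have hζ : (algebraMap K1 (Sep F) (algebraMap k1[X] K1 (C z0))) ^ 2 +
      algebraMap K1 (Sep F) (algebraMap k1[X] K1 (C z0)) + 1 = 0 := by
    have e : (C z0 : k1[X]) ^ 2 + C z0 + 1 = 0 := by
      rw [← C_pow, ← C_add, ← C_1, ← C_add, hz0, C_0]
    have := congrArg (fun p => algebraMap K1 (Sep F) (algebraMap k1[X] K1 p)) e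
    simp only [map_add, map_pow, map_one, map_zero] at this
    exact this
  -- division by three
  have hdiv1 : ∀ X : Pt (qtw (algebraMap K K1 d) (crv3 (algebraMap K K1 a) (algebraMap K K1 b)))
      (Sep F), ∃ Y : Pt (qtw (algebraMap K K1 d) (crv3 (algebraMap K K1 a) (algebraMap K K1 b)))
      (Sep F), 3 • Y = X := by
    intro X
    obtain ⟨Y, hY⟩ := third h hζ h3r ((tw hE h2Ω hr hr0).symm X)
    refine ⟨tw hE h2Ω hr hr0 Y, ?_⟩
    rw [← map_nsmul, three_smul]
    rw [hY, AddEquiv.apply_symm_apply]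
  have hdiv : ∀ X : Pt (qtw d (crv3 a b)) (Sep F), ∃ Y : Pt (qtw d (crv3 a b)) (Sep F),
      3 • Y = X := by
    intro X
    obtain ⟨Y, hY⟩ := hdiv1 (chg hW (Sep F) X)
    refine ⟨(chg hW (Sep F)).symm Y, ?_⟩
    apply (chg hW (Sep F)).injective
    rw [map_nsmul, AddEquiv.apply_symm_apply, hY]
  constructor
  · refine tate_of_part hdiv fun c hc => ?_
    obtain ⟨H, hH, hcH⟩ := key _ (Slm3.ofTate (chg_class hW hc))
    refine ⟨0, (chg hW (Sep F)).symm H, ?_, fun σ => ?_⟩
    · apply (chg hW (Sep F)).injective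
      rw [map_nsmul, AddEquiv.apply_symm_apply, hH, map_zero, map_zero]
    · apply (chg hW (Sep F)).injective
      have h1 := hcH σ
      have h2 := chg_act hW (L := Sep F) (L' := Sep F) (rs K1 σ) ((chg hW (Sep F)).symm H)
      rw [rs_restrict, AddEquiv.apply_symm_apply] at h2
      rw [h1, map_sub, AddEquiv.apply_symm_apply, h2]
  · intro P
    have hrs : ∀ (σ : Sep F ≃ₐ[F] Sep F) (Y : Pt (qtw d (crv3 a b)) (Sep F)),
        chg hW (Sep F) (act (qtw d (crv3 a b)) (rs K σ) Y) =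
          act (qtw (algebraMap K K1 d) (crv3 (algebraMap K K1 a) (algebraMap K K1 b))) (rs K1 σ)
            (chg hW (Sep F) Y) :=
      fun σ Y => chg_act' hW (rs K1 σ) (rs K σ) (fun _ => rfl) Y
    have htor : ∀ Y : Pt (qtw d (crv3 a b)) (Sep F),
        (∀ σ : Sep F ≃ₐ[F] Sep F, act (qtw d (crv3 a b)) (rs K σ) Y = Y) → 3 • Y = 0 → Y = 0 := by
      intro Y hY h0
      have h1 := tor (chg hW (Sep F) Y) (fun σ => by rw [← hrs, hY])
        (by rw [← map_nsmul, h0, map_zero])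
      exact (chg hW (Sep F)).injective (h1.trans (map_zero _).symm)
    obtain ⟨R, hR⟩ := hdiv1 (chg hW (Sep F) (act (qtw d (crv3 a b)) (incl K K (Sep F)) P))
    have hR1 : 3 • R = act (qtw (algebraMap K K1 d) (crv3 (algebraMap K K1 a)
        (algebraMap K K1 b))) (incl K1 K1 (Sep F))
        (chg hW K1 (act (qtw d (crv3 a b)) (incl K K K1) P)) := by
      have h1 : ((incl K1 K1 (Sep F)).restrictScalars K).comp (incl K K K1) = incl K K (Sep F) :=
        AlgHom.ext fun x => (IsScalarTower.algebraMap_apply K K1 (Sep F) x).symm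
      rw [← chg_act, act_act, h1, hR]
    obtain ⟨H, hH, hcH⟩ := key _ (Slm3.ofPt (lt_zero _) (fun _ => rfl) hR1)
    obtain ⟨Y, hY⟩ : ∃ Y, Y = (chg hW (Sep F)).symm (R - H) := ⟨_, rfl⟩
    have hYc : chg hW (Sep F) Y = R - H := by rw [hY, AddEquiv.apply_symm_apply]
    have hY5 : 3 • Y = act (qtw d (crv3 a b)) (incl K K (Sep F)) P := by
      apply (chg hW (Sep F)).injective
      rw [map_nsmul, hYc, smul_sub, hH, sub_zero, hR]
    have hYF : ∀ σ : Sep F ≃ₐ[F] Sep F, act (qtw d (crv3 a b)) (rs K σ) Y = Y := by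
      intro σ
      apply (chg hW (Sep F)).injective
      rw [hrs, hYc, map_sub]
      have h1 := hcH σ
      rw [sub_eq_sub_iff_sub_eq_sub] at h1
      exact h1
    have hYK : ∀ τ : Sep F ≃ₐ[K] Sep F, act (qtw d (crv3 a b)) (ak τ) Y = Y := by
      intro τ
      rw [← sub_eq_zero]
      apply htor
      · intro σ
        obtain ⟨σ', hσ'⟩ := exists_conj hpres τ σ
        have h1 : (ak τ).comp (rs K σ') = (rs K σ).comp (ak τ) := AlgHom.ext fun x => hσ' x
        rw [map_sub, hYF, act_act, ← h1, ← act_act, hYF]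
      · have h1 : (ak τ).comp (incl K K (Sep F)) = incl K K (Sep F) :=
          AlgHom.ext fun x => τ.commutes x
        rw [smul_sub, ← map_nsmul, hY5, act_act, h1, sub_self]
    obtain ⟨Q, hQ⟩ := fixed_point (K := K) (F := K) (Ω := Sep F) (qtw d (crv3 a b)) Y
      fun τ => hYK τ
    refine ⟨Q, ?_, fun Q' hQ' => ?_⟩
    · apply act_inj (qtw d (crv3 a b)) (incl K K (Sep F))
      rw [map_nsmul, hQ, hY5]
    · apply act_inj (qtw d (crv3 a b)) (incl K K (Sep F))
      rw [hQ, ← sub_eq_zero]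
      apply htor
      · intro σ
        have h1 : (rs K σ).comp (incl K K (Sep F)) = incl K K (Sep F) :=
          AlgHom.ext fun x => (rs K σ).commutes x
        rw [map_sub, hYF, act_act, h1]
      · have hQ'' : 3 • Q' = P := hQ'
        rw [smul_sub, ← map_nsmul, hQ'', hY5, sub_self]

end tran

end Pool.Agent.Helper23K9.Q4
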