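import Pool.Agent.Helper23K9.Q4.Loc

/-!
Characters of `Gal(Ω / L)` which are inverted by the automorphisms with `r ↦ -r`.
-/

set_option autoImplicit false
set_option linter.all false

open Polynomial IsDedekindDomain
open scoped Classical

namespace Pool.Agent.Helper23K9.Q4

open Pool.Agent.TH115.GD (pl cm cm_mem cm_val Preserves restr lift preserves val_poly mem_pl wv wv_coe
  Comp exists_conj exists_root_of_mem splits_of_sep)
open Pool.Agent.Helper7K9.T3 (om om_mul om_pow om_one om_cube om_of_Cu Cu cube_F om_galois)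
open Pool.Agent.Helper23K9.Q3 (K3)

section cu

theorem Cu.of_mul {x y g : WithZero (Multiplicative ℤ)} (hx : Cu x) (hx0 : x ≠ 0)
    (h : x * y = g ^ 3) : Cu y := by
  obtain ⟨β, rfl⟩ := hx
  have hβ : β ≠ 0 := by
    rintro rfl
    exact hx0 (zero_pow three_ne_zero)
  refine ⟨g / β, ?_⟩
  rw [div_pow, ← h]
  field_simp

end cu

section val

variable {k' F0 L : Type} [Field k'] [Field F0] [Algebra k'[X] F0]
  [IsFractionRing k'[X] F0] [Field L] [Algebra F0 L] {D : k'[X]}
  {r : L} (hr : r ^ 2 = algebraMap F0 L (algebraMap k'[X] F0 D)) {v : HeightOneSpectrum k'[X]}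
  {W : Valuation L (WithZero (Multiplicative ℤ))}
  (hW : ∀ x : F0, W (algebraMap F0 L x) = v.valuation F0 x)

include hW in
theorem W_le (p : k'[X]) : W (algebraMap F0 L (algebraMap k'[X] F0 p)) ≤ 1 := by
  rw [hW, v.valuation_of_algebraMap]
  exact v.intValuation_le_one _

include hW in
theorem W_lt (p : k'[X]) : W (algebraMap F0 L (algebraMap k'[X] F0 p)) < 1 ↔ p ∈ v.asIdeal := by
  rw [hW, v.valuation_of_algebraMap, HeightOneSpectrum.intValuation_lt_one_iff_mem]

include hW in
theorem W_one {p : k'[X]} (hp : p ∉ v.asIdeal) : W (algebraMap F0 L (algebraMap k'[X] F0 p)) = 1 :=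
  le_antisymm (W_le hW p) (not_lt.1 fun h => hp ((W_lt hW p).1 h))

theorem C_not_mem (v : HeightOneSpectrum k'[X]) {c : k'} (hc : c ≠ 0) : (C c : k'[X]) ∉ v.asIdeal := by
  intro h
  apply v.isPrime.ne_top
  exact Ideal.eq_top_of_isUnit_mem _ h (isUnit_C.2 (isUnit_iff_ne_zero.2 hc))

include hW hr in
theorem W_r (hv : D ∉ v.asIdeal) : W r = 1 := by
  have h1 : (W r) ^ 2 = 1 := by
    rw [← map_pow, hr, W_one hW hv]
  exact (pow_eq_one_iff.1 h1).resolve_right (by norm_num)

include hW hr in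
/-- The two conjugates of an element without common factor are not both divisible by `v`. -/
theorem not_both (h2 : (2 : k') ≠ 0) (hv : D ∉ v.asIdeal) {a b : k'[X]} (hab : IsCoprime a b) :
    W (algebraMap F0 L (algebraMap k'[X] F0 a) + algebraMap F0 L (algebraMap k'[X] F0 b) * r) = 1 ∨
    W (algebraMap F0 L (algebraMap k'[X] F0 a) - algebraMap F0 L (algebraMap k'[X] F0 b) * r) =
      1 := by
  obtain ⟨A, hA⟩ : ∃ A, A = algebraMap F0 L (algebraMap k'[X] F0 a) := ⟨_, rfl⟩
  obtain ⟨B, hB⟩ : ∃ B, B = algebraMap F0 L (algebraMap k'[X] F0 b) := ⟨_, rfl⟩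
  rw [← hA, ← hB]
  have hrW := W_r hr hW hv
  have hAW : W A ≤ 1 := by rw [hA]; exact W_le hW a
  have hBW : W (B * r) ≤ 1 := by rw [map_mul, hrW, mul_one, hB]; exact W_le hW b
  have e1 : W (A + B * r) ≤ 1 := (W.map_add _ _).trans (max_le hAW hBW)
  have e2 : W (A - B * r) ≤ 1 := (W.map_sub _ _).trans (max_le hAW hBW)
  rcases e1.lt_or_eq with h1 | h1
  · rcases e2.lt_or_eq with h3 | h3
    · exfalso
      have h4 : W (algebraMap F0 L (algebraMap k'[X] F0 (C 2 * a))) < 1 := by
        have : algebraMap F0 L (algebraMap k'[X] F0 (C 2 * a)) = (A + B * r) + (A - B * r) := by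
          have h5 : (C 2 : k'[X]) = 2 := map_ofNat C 2
          rw [h5, hA]
          simp only [map_mul, map_ofNat]
          ring
        rw [this]
        exact Valuation.map_add_lt _ h1 h3
      have h6 : W (algebraMap F0 L (algebraMap k'[X] F0 (C 2 * b))) < 1 := by
        have : algebraMap F0 L (algebraMap k'[X] F0 (C 2 * b)) * r = (A + B * r) - (A - B * r) := by
          have h5 : (C 2 : k'[X]) = 2 := map_ofNat C 2
          rw [h5, hB]
          simp only [map_mul, map_ofNat]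
          ring
        have h7 : W (algebraMap F0 L (algebraMap k'[X] F0 (C 2 * b)) * r) < 1 := by
          rw [this]
          exact (W.map_sub _ _).trans_lt (max_lt h1 h3)
        rwa [map_mul, hrW, mul_one] at h7
      rw [W_lt hW] at h4 h6
      have h8 := (v.isPrime.mem_or_mem h4).resolve_left (C_not_mem v h2)
      have h9 := (v.isPrime.mem_or_mem h6).resolve_left (C_not_mem v h2)
      obtain ⟨x, y, hxy⟩ := hab
      apply v.isPrime.ne_top
      rw [Ideal.eq_top_iff_one, ← hxy]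
      exact v.asIdeal.add_mem (v.asIdeal.mul_mem_left _ h8) (v.asIdeal.mul_mem_left _ h9)
    · exact Or.inr h3
  · exact Or.inl h1

include hW hr in
/-- The order of the constant at a good place. -/
theorem goodc (h2 : (2 : k') ≠ 0) (hv : D ∉ v.asIdeal) {c g0 : F0} (hc : c ≠ 0) {a b : k'[X]}
    (hab : IsCoprime a b) (hN : c ^ 2 * algebraMap k'[X] F0 (a ^ 2 - D * b ^ 2) = g0 ^ 3)
    (hg0 : g0 ≠ 0)
    (hCu : Cu (W (algebraMap F0 L c * (algebraMap F0 L (algebraMap k'[X] F0 a) +
      algebraMap F0 L (algebraMap k'[X] F0 b) * r)))) : om v c = 0 := by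
  apply om_of_Cu
  rw [← hW]
  have hN' : (algebraMap F0 L c * (algebraMap F0 L (algebraMap k'[X] F0 a) +
      algebraMap F0 L (algebraMap k'[X] F0 b) * r)) * (algebraMap F0 L c *
      (algebraMap F0 L (algebraMap k'[X] F0 a) - algebraMap F0 L (algebraMap k'[X] F0 b) * r)) =
      (algebraMap F0 L g0) ^ 3 := by
    rw [← map_pow, ← hN]
    simp only [map_mul, map_sub, map_pow, ← hr]
    ring
  rcases not_both hr hW h2 hv hab with h1 | h3
  · rwa [map_mul, h1, mul_one] at hCu
  · have h4 := congrArg W hN'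
    rw [map_mul, map_mul W (algebraMap F0 L c) (algebraMap F0 L (algebraMap k'[X] F0 a) -
      algebraMap F0 L (algebraMap k'[X] F0 b) * r), h3, mul_one, map_pow] at h4
    refine Cu.of_mul hCu ?_ h4
    intro h5
    rw [h5, zero_mul] at h4
    have h6 : W (algebraMap F0 L g0) ≠ 0 := by
      rw [Valuation.ne_zero_iff]
      exact (_root_.map_ne_zero _).2 hg0
    exact pow_ne_zero 3 h6 h4.symm

theorem Cu_of_om {x : F0} (hx : x ≠ 0) (h : om v x = 0) : Cu (v.valuation F0 x) := by
  unfold om at h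
  rw [ZMod.intCast_zmod_eq_zero_iff_dvd] at h
  obtain ⟨m, hm⟩ := h
  have h0 : v.valuation F0 x ≠ 0 := (Valuation.ne_zero_iff _).2 hx
  refine ⟨WithZero.exp (-m), ?_⟩
  rw [← WithZero.exp_log h0, ← WithZero.exp_nsmul]
  congr 1
  push_cast at hm
  rw [nsmul_eq_mul]
  push_cast
  omega

include hW hr in
/-- The valuations of an element without ramification. -/
theorem W_Cu (h2 : (2 : k') ≠ 0) (hv : D ∉ v.asIdeal) {c g0 : F0} (hc : c ≠ 0) {a b : k'[X]}
    (hab : IsCoprime a b) (hN : c ^ 2 * algebraMap k'[X] F0 (a ^ 2 - D * b ^ 2) = g0 ^ 3)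
    (hom : om v c = 0) :
    Cu (W (algebraMap F0 L c * (algebraMap F0 L (algebraMap k'[X] F0 a) +
      algebraMap F0 L (algebraMap k'[X] F0 b) * r))) := by
  have h1 := Cu_of_om hc hom
  rw [← hW] at h1
  rw [map_mul]
  refine h1.mul ?_
  rcases not_both hr hW h2 hv hab with h3 | h3
  · rw [h3]; exact Cu.one
  · have hN' : (algebraMap F0 L c) ^ 2 * ((algebraMap F0 L (algebraMap k'[X] F0 a) +
        algebraMap F0 L (algebraMap k'[X] F0 b) * r) *
        (algebraMap F0 L (algebraMap k'[X] F0 a) - algebraMap F0 L (algebraMap k'[X] F0 b) * r)) =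
        (algebraMap F0 L g0) ^ 3 := by
      rw [← map_pow, ← map_pow, ← hN]
      simp only [map_mul, map_sub, map_pow, ← hr]
      ring
    have h4 := congrArg W hN'
    rw [map_mul, map_mul W (_ + _), h3, mul_one, map_pow, map_pow] at h4
    refine Cu.of_mul (h1.pow 2) ?_ h4
    apply pow_ne_zero
    rw [Valuation.ne_zero_iff]
    exact (_root_.map_ne_zero _).2 hc

include hW hr in
/-- Common factors of representatives. -/
theorem om_cont (h2 : (2 : k') ≠ 0) (hv : D ∉ v.asIdeal) {T1 : L →+* L} (hT1r : T1 r = -r)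
    (hT1F : ∀ x : F0, T1 (algebraMap F0 L x) = algebraMap F0 L x) {c g0 : F0} (hc : c ≠ 0)
    {a b : k'[X]} (hab : IsCoprime a b) (hN : c ^ 2 * algebraMap k'[X] F0 (a ^ 2 - D * b ^ 2) = g0 ^ 3)
    (hom : om v c = 0) {p q G : k'[X]} (hpq : IsCoprime p q) {x : L}
    (hf0 : algebraMap F0 L c * (algebraMap F0 L (algebraMap k'[X] F0 a) +
      algebraMap F0 L (algebraMap k'[X] F0 b) * r) ≠ 0)
    (hx : (algebraMap F0 L c * (algebraMap F0 L (algebraMap k'[X] F0 a) +
      algebraMap F0 L (algebraMap k'[X] F0 b) * r)) * (algebraMap F0 L (algebraMap k'[X] F0 G) *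
      (algebraMap F0 L (algebraMap k'[X] F0 p) + algebraMap F0 L (algebraMap k'[X] F0 q) * r)) =
        x ^ 3) : om v (algebraMap k'[X] F0 G) = 0 := by
  obtain ⟨W0, hW0, h1⟩ : ∃ W0 : Valuation L (WithZero (Multiplicative ℤ)),
      (∀ x : F0, W0 (algebraMap F0 L x) = v.valuation F0 x) ∧
      W0 (algebraMap F0 L (algebraMap k'[X] F0 p) + algebraMap F0 L (algebraMap k'[X] F0 q) * r) =
        1 := by
    rcases not_both hr hW h2 hv hpq with h1 | h3
    · exact ⟨W, hW, h1⟩
    · refine ⟨W.comap T1, fun x => ?_, ?_⟩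
      · show W (T1 _) = _
        rw [hT1F, hW]
      · show W (T1 _) = 1
        rw [map_add, map_mul, hT1r, hT1F, hT1F, mul_neg, ← sub_eq_add_neg]
        exact h3
  have h4 := W_Cu hr hW0 h2 hv hc hab hN hom
  have h5 := congrArg W0 hx
  rw [map_mul, map_mul W0 (algebraMap F0 L (algebraMap k'[X] F0 G)), h1, mul_one, map_pow] at h5
  have h6 := Cu.of_mul h4 ((Valuation.ne_zero_iff _).2 hf0) h5
  rw [hW0] at h6
  exact om_of_Cu v h6

variable {θ ρ : k'}

theorem sub_mem_pl (p : k'[X]) : p - C (p.eval θ) ∈ (pl θ).asIdeal := by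
  rw [mem_pl, IsRoot.def, eval_sub, eval_C, sub_self]

include hr in
/-- A unit at a point. -/
theorem W_unit (hW : ∀ x : F0, W (algebraMap F0 L x) = (pl θ).valuation F0 x)
    (hv : D ∉ (pl θ).asIdeal)
    (hρ : W (r - algebraMap F0 L (algebraMap k'[X] F0 (C ρ))) < 1) {a b : k'[X]}
    (hab : a.eval θ + b.eval θ * ρ ≠ 0) : W (algebraMap F0 L (algebraMap k'[X] F0 a) +
      algebraMap F0 L (algebraMap k'[X] F0 b) * r) = 1 := by
  have hrW := W_r hr hW hv
  have e1 := W_one hW (C_not_mem (pl θ) hab)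
  have h1 := (W_lt hW (a - C (a.eval θ))).2 (sub_mem_pl a)
  have h2 := (W_lt hW (b - C (b.eval θ))).2 (sub_mem_pl b)
  have e2 : algebraMap F0 L (algebraMap k'[X] F0 a) + algebraMap F0 L (algebraMap k'[X] F0 b) * r =
      algebraMap F0 L (algebraMap k'[X] F0 (C (a.eval θ + b.eval θ * ρ))) +
      (algebraMap F0 L (algebraMap k'[X] F0 (a - C (a.eval θ))) +
      (algebraMap F0 L (algebraMap k'[X] F0 (b - C (b.eval θ))) * r +
      algebraMap F0 L (algebraMap k'[X] F0 (C (b.eval θ))) *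
        (r - algebraMap F0 L (algebraMap k'[X] F0 (C ρ))))) := by
    simp only [map_add, map_sub, map_mul]
    ring
  have h3 : W (algebraMap F0 L (algebraMap k'[X] F0 (b - C (b.eval θ))) * r) < 1 := by
    rw [map_mul, hrW, mul_one]
    exact h2
  have h4 : W (algebraMap F0 L (algebraMap k'[X] F0 (C (b.eval θ))) *
      (r - algebraMap F0 L (algebraMap k'[X] F0 (C ρ)))) < 1 := by
    rw [map_mul]
    exact (mul_le_of_le_one_left' (W_le hW _)).trans_lt hρ
  rw [e2, Valuation.map_add_eq_of_lt_left, e1]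
  rw [e1]
  exact Valuation.map_add_lt _ h1 (Valuation.map_add_lt _ h3 h4)

end val

end Pool.Agent.Helper23K9.Q4
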