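import Pool.Agent.Helper23K9.Q4.Van

/-!
The vanishing of characters of `Gal(Ω / L)`.
-/

set_option autoImplicit false
set_option linter.all false

open Polynomial IsDedekindDomain
open scoped Classical

namespace Pool.Agent.Helper23K9.Q4

open Pool.Agent.TH115.GD (pl cm cm_mem cm_val Preserves restr lift preserves val_poly mem_pl wv wv_coe
  Comp exists_conj exists_root_of_mem splits_of_sep)
open Pool.Agent.Helper7K9.T3 (om om_mul om_pow om_one om_cube om_of_Cu Cu cube_F om_galois plI cube_dvd)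
open Pool.Agent.Helper23K9.Q3 (K3)

section van

variable {k k' K F0 L Ω : Type} [Field k] [Field k'] [Algebra k k'] [IsSepClosure k k'] [Field K]
  [Algebra k[X] K] [IsFractionRing k[X] K] [Field F0] [Algebra k'[X] F0] [IsFractionRing k'[X] F0]
  [Algebra K F0] [Field L] [Algebra F0 L] [Algebra K L]
  [IsScalarTower K F0 L] [Field Ω] [Algebra F0 Ω] [Algebra L Ω] [Algebra K Ω]
  [IsScalarTower F0 L Ω] [IsScalarTower K F0 Ω] [IsScalarTower K L Ω] [IsSepClosure F0 Ω]
  (hKF : ∀ p : k[X], algebraMap K F0 (algebraMap k[X] K p) =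
      algebraMap k'[X] F0 (p.map (algebraMap k k')))
  {D : k[X]} (hD : Odd D.natDegree) (hsq : Squarefree (D.map (algebraMap k k'))) {r : L}
  (hL : IsL (F0 := F0) (D.map (algebraMap k k')) r)

omit [IsSepClosure k k'] [IsFractionRing k[X] K] [Algebra K F0] [Algebra K L]
  [IsScalarTower K F0 L] [Algebra K Ω] [IsScalarTower K F0 Ω] [IsScalarTower K L Ω]
  [IsSepClosure F0 Ω] [Algebra F0 Ω] [IsScalarTower F0 L Ω] [Algebra L Ω] [Field Ω] in
include hL in
theorem IsL.ind0 {A B : F0} (h : algebraMap F0 L A + algebraMap F0 L B * r = 0) : A = 0 ∧ B = 0 := by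
  by_cases hB : B = 0
  · rw [hB, map_zero, zero_mul, add_zero] at h
    exact ⟨(map_eq_zero_iff _ (algebraMap F0 L).injective).1 h, hB⟩
  · exfalso
    apply hL.nm (-A / B)
    have hB' : algebraMap F0 L B ≠ 0 := (_root_.map_ne_zero _).2 hB
    rw [map_div₀, map_neg, div_eq_iff hB']
    linear_combination -h

include hL in
omit [IsFractionRing k[X] K] [Algebra K F0] [Algebra K L]
  [IsScalarTower K F0 L] [Algebra K Ω] [IsScalarTower K F0 Ω] [IsScalarTower K L Ω]
  [IsSepClosure F0 Ω] [Algebra F0 Ω] [IsScalarTower F0 L Ω] [Algebra L Ω] [Field Ω] in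
/-- The normal form. -/
theorem IsL.normal {f0 : L} (hf0 : f0 ≠ 0) : ∃ (c : F0) (a b : k'[X]), c ≠ 0 ∧ IsCoprime a b ∧
    f0 = algebraMap F0 L c * (algebraMap F0 L (algebraMap k'[X] F0 a) +
      algebraMap F0 L (algebraMap k'[X] F0 b) * r) := by
  obtain ⟨U, V, e, he, h⟩ := hL.quot f0
  have hei : algebraMap k'[X] F0 e ≠ 0 := by simpa using he
  have hei' : algebraMap F0 L (algebraMap k'[X] F0 e) ≠ 0 := (_root_.map_ne_zero _).2 hei
  have hf : f0 = (algebraMap F0 L (algebraMap k'[X] F0 U) +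
      algebraMap F0 L (algebraMap k'[X] F0 V) * r) / algebraMap F0 L (algebraMap k'[X] F0 e) := by
    rw [eq_div_iff hei', mul_comm]
    exact h
  by_cases hU : U = 0
  · have hV : V ≠ 0 := by
      rintro rfl
      apply hf0
      rw [hf, hU]
      simp
    refine ⟨algebraMap k'[X] F0 V / algebraMap k'[X] F0 e, 0, 1,
      div_ne_zero (by simpa using hV) hei, isCoprime_zero_left.2 isUnit_one, ?_⟩
    rw [hf, hU]
    simp only [map_zero, map_one, map_div₀]
    ring
  · obtain ⟨G, n1, n2, hcop, rfl, rfl⟩ := coprime_quot (w := V) hU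
    have hG : G ≠ 0 := left_ne_zero_of_mul hU
    refine ⟨algebraMap k'[X] F0 G / algebraMap k'[X] F0 e, n1, n2,
      div_ne_zero (by simpa using hG) hei, hcop, ?_⟩
    rw [hf]
    simp only [map_mul, map_div₀]
    ring

include hKF hD hsq hL in
theorem vanD [IsGalois F0 Ω] (h2 : (2 : k') ≠ 0) (h3 : (3 : k') ≠ 0) {z0 : k}
    (hz0 : z0 ^ 2 + z0 + 1 = 0) {χ : (Ω ≃ₐ[L] Ω) → Ω} {s : Ω} {f0 : L} (hk : K3 χ s f0)
    (hτ : ∀ (τ : Ω ≃ₐ[K] Ω) (σ : Ω ≃ₐ[L] Ω), τ (χ σ) = χ σ) (hχ0 : ∀ σ, χ σ ≠ 0)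
    (hχ : ∀ τ : Ω ≃ₐ[K] Ω, τ (algebraMap L Ω r) = -algebraMap L Ω r →
      ∀ σ σ' : Ω ≃ₐ[L] Ω, (∀ x, τ (σ' x) = σ (τ x)) → χ σ' = (χ σ)⁻¹)
    {P : k[X]} (hP : P ≠ 0) (hsep : ∀ π : k[X], Irreducible π → π ∣ P → π.Separable)
    (hbad : ∀ θ ρ : k', (P.map (algebraMap k k')).eval θ = 0 →
      ρ ^ 2 = (D.map (algebraMap k k')).eval θ → ρ ≠ 0 →
      ∃ s0 : k' ≃ₐ[k] k', s0 θ = θ ∧ s0 ρ = -ρ)
    (hex : ∀ v : HeightOneSpectrum k'[X], D.map (algebraMap k k') ∉ v.asIdeal →
      ∃ W : Valuation L (WithZero (Multiplicative ℤ)),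
        (∀ x : F0, W (algebraMap F0 L x) = v.valuation F0 x) ∧
        (P.map (algebraMap k k') ∉ v.asIdeal → Cu (W f0)))
    (hno : ∀ (p q w : k[X]) (κ : k), q ≠ 0 → (∀ π, Irreducible π → π ∣ p → π ∣ q → π ∣ D) →
      p ^ 2 - D * q ^ 2 = C κ * w ^ 3 →
      D.natDegree < 2 * w.natDegree) (σ : Ω ≃ₐ[L] Ω) : χ σ = 1 := by
  haveI : IsSepClosed k' := IsSepClosure.sep_closed k
  haveI : IsSepClosed Ω := IsSepClosure.sep_closed F0
  haveI : IsGalois L Ω := IsGalois.tower_top_of_isGalois F0 L Ω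
  have hpresL : Preserves K L Ω := hL.pres hKF
  have hpres0 : Preserves K F0 Ω := preserves hKF
  have hf0 : f0 ≠ 0 := hk.fne
  have injL := (algebraMap L Ω).injective
  have hD' : Odd (D.map (algebraMap k k')).natDegree := by rwa [natDegree_map]
  obtain ⟨τ1, hτ1⟩ := hL.exists_neg (Ω := Ω)
  -- automorphisms with `r ↦ -r`
  have hneg : ∀ τ : Ω ≃ₐ[K] Ω, τ (algebraMap L Ω r) = -algebraMap L Ω r →
      ∃ g : L, τ (algebraMap L Ω f0) * algebraMap L Ω f0 = algebraMap L Ω (g ^ 3) := by
    intro τ hτr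
    obtain ⟨g, hg⟩ : τ s * s ∈ Set.range (algebraMap L Ω) := by
      rw [InfiniteGalois.mem_range_algebraMap_iff_fixed]
      intro σ
      obtain ⟨σ', hσ'⟩ := exists_conj hpresL τ σ
      rw [map_mul, ← hσ', hk.act, hk.act, map_mul, hτ, hχ τ hτr σ σ' hσ']
      field_simp [hχ0 σ]
    refine ⟨g, ?_⟩
    rw [map_pow, hg, ← hk.cube, map_pow]
    ring
  -- automorphisms with `r ↦ r`
  have hpos : ∀ τ : Ω ≃ₐ[K] Ω, τ (algebraMap L Ω r) = algebraMap L Ω r →
      ∃ g : L, τ (algebraMap L Ω f0) = algebraMap L Ω (f0 * g ^ 3) := by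
    intro τ hτr
    have hχp : ∀ σ σ' : Ω ≃ₐ[L] Ω, (∀ x, τ (σ' x) = σ (τ x)) → χ σ' = χ σ := by
      intro σ σ' h
      obtain ⟨σ'', h''⟩ := exists_conj hpresL (τ1.restrictScalars K) σ'
      have e1 := hχ (τ1.restrictScalars K) hτ1 σ' σ'' h''
      have e2 := hχ ((τ1.restrictScalars K).trans τ) (by
        show τ (τ1 (algebraMap L Ω r)) = _
        rw [hτ1, map_neg, hτr]) σ σ'' (by
        intro x
        show τ ((τ1.restrictScalars K) (σ'' x)) = σ (τ ((τ1.restrictScalars K) x))
        rw [h'', h])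
      rw [e1] at e2
      exact inv_injective e2
    obtain ⟨g, hg⟩ : τ s / s ∈ Set.range (algebraMap L Ω) := by
      rw [InfiniteGalois.mem_range_algebraMap_iff_fixed]
      intro σ
      obtain ⟨σ', hσ'⟩ := exists_conj hpresL τ σ
      rw [map_div₀, ← hσ', hk.act, hk.act, map_mul, hτ, hχp σ σ' hσ']
      have := hχ0 σ
      have := hk.ne
      field_simp
    refine ⟨g, ?_⟩
    have := hk.ne
    rw [map_mul, map_pow, hg, ← hk.cube, map_pow]
    field_simp
  -- conjugation
  obtain ⟨T1, hT1⟩ := factor ((τ1 : Ω →+* Ω).comp (algebraMap L Ω)) (algebraMap L Ω) (fun x =>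
    hpresL (τ1.restrictScalars K) x)
  have hT1r : T1 r = -r := by
    apply injL
    rw [hT1, map_neg]
    exact hτ1
  have hT1F : ∀ x : F0, T1 (algebraMap F0 L x) = algebraMap F0 L x := by
    intro x
    apply injL
    rw [hT1]
    show τ1 (algebraMap L Ω (algebraMap F0 L x)) = _
    rw [← IsScalarTower.algebraMap_apply F0 L Ω, τ1.commutes]
  obtain ⟨c, a, b, hc, hab, hf⟩ := hL.normal hf0
  obtain ⟨g, hg⟩ := hneg (τ1.restrictScalars K) hτ1
  have hg' : T1 f0 * f0 = g ^ 3 := by
    apply injL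
    rw [map_mul, hT1]
    exact hg
  have hN1 : algebraMap F0 L (c ^ 2 * algebraMap k'[X] F0 (a ^ 2 - D.map (algebraMap k k') * b ^ 2)) =
      g ^ 3 := by
    rw [← hg', hf]
    simp only [map_mul, map_add, map_sub, map_pow, hT1F, hT1r, ← hL.sq]
    ring
  obtain ⟨g0, hg0⟩ : ∃ g0 : F0, g = algebraMap F0 L g0 := by
    obtain ⟨G, H, hGH⟩ := hL.span g
    by_cases hH : H = 0
    · exact ⟨G, by rw [hGH, hH, map_zero, zero_mul, add_zero]⟩
    · exfalso
      obtain ⟨ν, hν⟩ : ∃ ν, ν = c ^ 2 * algebraMap k'[X] F0 (a ^ 2 -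
        D.map (algebraMap k k') * b ^ 2) := ⟨_, rfl⟩
      obtain ⟨d, hd⟩ : ∃ d, d = algebraMap k'[X] F0 (D.map (algebraMap k k')) := ⟨_, rfl⟩
      have hsq' : r ^ 2 = algebraMap F0 L d := by rw [hd]; exact hL.sq
      rw [← hν, hGH] at hN1
      have e1 : algebraMap F0 L (G ^ 3 + 3 * G * H ^ 2 * d - ν) +
          algebraMap F0 L (3 * G ^ 2 * H + H ^ 3 * d) * r = 0 := by
        simp only [map_add, map_sub, map_mul, map_pow, map_ofNat, ← hsq']
        linear_combination -hN1
      have e2 := (hL.ind0 e1).2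
      obtain ⟨z, hz⟩ : ∃ z : F0, z = algebraMap k'[X] F0 (C (algebraMap k k' z0)) := ⟨_, rfl⟩
      have hz1 : z ^ 2 + z + 1 = 0 := by
        rw [hz, ← map_pow, ← map_add, ← map_one (algebraMap k'[X] F0), ← map_add, ← C_pow, ← C_add,
          ← C_1, ← C_add, ← map_pow, ← map_add, ← map_one (algebraMap k k'), ← map_add, hz0, map_zero,
          C_0, map_zero]
      apply not_sq (F0 := F0) hD' ((2 * z + 1) * G / H)
      rw [← hd, div_pow, div_eq_iff (pow_ne_zero 2 hH)]
      have e3 : 3 * G ^ 2 + H ^ 2 * d = 0 := by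
        apply mul_left_cancel₀ hH
        linear_combination e2
      linear_combination 4 * G ^ 2 * hz1 - e3
  have hN : c ^ 2 * algebraMap k'[X] F0 (a ^ 2 - D.map (algebraMap k k') * b ^ 2) = g0 ^ 3 := by
    apply (algebraMap F0 L).injective
    rw [hN1, hg0, map_pow]
  have hg00 : g0 ≠ 0 := by
    rintro rfl
    rw [map_zero] at hg0
    rw [hg0, zero_pow three_ne_zero] at hg'
    exact mul_ne_zero ((_root_.map_ne_zero T1).2 hf0) hf0 hg'
  have hom : ∀ v : HeightOneSpectrum k'[X], D.map (algebraMap k k') ∉ v.asIdeal → om v c = 0 := by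
    intro v hv
    obtain ⟨W, hW, hCu⟩ := hex v hv
    by_cases hPv : P.map (algebraMap k k') ∈ v.asIdeal
    · have hP' : P.map (algebraMap k k') ≠ 0 :=
        (Polynomial.map_ne_zero_iff (algebraMap k k').injective).2 hP
      obtain ⟨θ, hθ, e⟩ := exists_root_of_mem hP' (splits_of_sep hP hsep) hPv
      subst e
      have hθ0 : (P.map (algebraMap k k')).eval θ = 0 := (mem_roots hP').1 hθ
      haveI : NeZero ((2 : ℕ) : k') := ⟨by exact_mod_cast h2⟩
      obtain ⟨ρ0, hρ0⟩ := IsSepClosed.exists_pow_nat_eq ((D.map (algebraMap k k')).eval θ) 2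
      -- the sign
      obtain ⟨ρ1, hρ1, hρW⟩ : ∃ ρ : k', ρ ^ 2 = (D.map (algebraMap k k')).eval θ ∧
          W (r - algebraMap F0 L (algebraMap k'[X] F0 (C ρ))) < 1 := by
        have e1 : W ((r - algebraMap F0 L (algebraMap k'[X] F0 (C ρ0))) *
            (r - algebraMap F0 L (algebraMap k'[X] F0 (C (-ρ0))))) < 1 := by
          have e2 : (r - algebraMap F0 L (algebraMap k'[X] F0 (C ρ0))) *
              (r - algebraMap F0 L (algebraMap k'[X] F0 (C (-ρ0)))) =
              algebraMap F0 L (algebraMap k'[X] F0 (D.map (algebraMap k k') -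
                C ((D.map (algebraMap k k')).eval θ))) := by
            rw [← hρ0]
            simp only [C_neg, C_pow, map_neg, map_sub, map_pow, ← hL.sq]
            ring
          rw [e2]
          exact (W_lt hW _).2 (sub_mem_pl _)
        rw [map_mul] at e1
        rcases lt_or_ge (W (r - algebraMap F0 L (algebraMap k'[X] F0 (C ρ0)))) 1 with h4 | h4
        · exact ⟨ρ0, hρ0, h4⟩
        · refine ⟨-ρ0, by rw [neg_sq, hρ0], ?_⟩
          by_contra h5
          rw [not_lt] at h5
          exact absurd e1 (not_lt.2 (one_le_mul h4 h5))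
      have hDθ : (D.map (algebraMap k k')).eval θ ≠ 0 := by
        intro h4
        apply hv
        rw [mem_pl]
        exact h4
      have hρn : ρ1 ≠ 0 := by
        rintro rfl
        rw [zero_pow two_ne_zero] at hρ1
        exact hDθ hρ1.symm
      obtain ⟨W2, ρ, hW2, hρ, hρ', hWρ, hne⟩ : ∃ (W2 : Valuation L (WithZero (Multiplicative ℤ)))
          (ρ : k'), (∀ x : F0, W2 (algebraMap F0 L x) = (pl θ).valuation F0 x) ∧
          ρ ^ 2 = (D.map (algebraMap k k')).eval θ ∧ ρ ≠ 0 ∧
          W2 (r - algebraMap F0 L (algebraMap k'[X] F0 (C ρ))) < 1 ∧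
          a.eval θ + b.eval θ * ρ ≠ 0 := by
        by_cases h4 : a.eval θ + b.eval θ * ρ1 = 0
        · refine ⟨W.comap T1, -ρ1, fun x => ?_, by rw [neg_sq, hρ1], neg_ne_zero.2 hρn, ?_, ?_⟩
          · show W (T1 _) = _
            rw [hT1F, hW]
          · show W (T1 _) < 1
            rw [map_sub, hT1r, hT1F, C_neg, map_neg, map_neg]
            have e5 : -r - -algebraMap F0 L (algebraMap k'[X] F0 (C ρ1)) =
              -(r - algebraMap F0 L (algebraMap k'[X] F0 (C ρ1))) := by ring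
            rw [e5, Valuation.map_neg]
            exact hρW
          · intro h5
            have e6 : 2 * a.eval θ = 0 := by linear_combination h4 + h5
            have e7 : 2 * (b.eval θ * ρ1) = 0 := by linear_combination h4 - h5
            have e8 := (mul_eq_zero.1 e6).resolve_left h2
            have e9 := (mul_eq_zero.1 ((mul_eq_zero.1 e7).resolve_left h2)).resolve_right hρn
            obtain ⟨x, y, hxy⟩ := hab
            have := congrArg (eval θ) hxy
            rw [eval_add, eval_mul, eval_mul, e8, e9, mul_zero, mul_zero, add_zero, eval_one] at this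
            exact zero_ne_one this
        · exact ⟨W, ρ1, hW, hρ1, hρn, hρW, h4⟩
      obtain ⟨s0, hs0, hs0'⟩ := hbad θ ρ hθ0 hρ hρ'
      obtain ⟨τ, hτr, hτp⟩ := hL.lift (Ω := Ω) hKF s0 true
      obtain ⟨g1, hg1⟩ := hneg τ hτr
      obtain ⟨cs, hcs⟩ := hpres0 τ c
      have hcs0 : cs ≠ 0 := by
        rintro rfl
        rw [map_zero] at hcs
        exact (_root_.map_ne_zero τ).2 ((_root_.map_ne_zero (algebraMap F0 Ω)).2 hc) hcs
      have hy : (algebraMap F0 L cs * (algebraMap F0 L (algebraMap k'[X] F0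
          (a.map (s0 : k' →+* k'))) + algebraMap F0 L (algebraMap k'[X] F0
          (-(b.map (s0 : k' →+* k')))) * r)) * f0 = g1 ^ 3 := by
        apply injL
        rw [← hg1, map_mul]
        congr 1
        rw [hf]
        have q1 : ∀ x : F0, algebraMap L Ω (algebraMap F0 L x) = algebraMap F0 Ω x := fun x =>
          (IsScalarTower.algebraMap_apply F0 L Ω x).symm
        simp only [map_mul, map_add, map_neg, q1, hcs, hτp, hτr, if_true]
        ring
      have u1 := W_unit hL.sq hW2 hv hWρ (a := a) (b := b) hne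
      have u2 := W_unit hL.sq hW2 hv hWρ (a := a.map (s0 : k' →+* k'))
        (b := -(b.map (s0 : k' →+* k'))) (by
          have t1 : (a.map (s0 : k' →+* k')).eval θ = s0 (a.eval θ) := by
            conv_lhs => rw [← hs0]
            rw [eval_map, show s0 θ = (s0 : k' →+* k') θ from rfl, eval₂_at_apply]
            rfl
          have t2 : (b.map (s0 : k' →+* k')).eval θ = s0 (b.eval θ) := by
            conv_lhs => rw [← hs0]
            rw [eval_map, show s0 θ = (s0 : k' →+* k') θ from rfl, eval₂_at_apply]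
            rfl
          rw [eval_neg, t1, t2]
          have t3 : s0 (a.eval θ) + -s0 (b.eval θ) * ρ = s0 (a.eval θ + b.eval θ * ρ) := by
            rw [map_add, map_mul, hs0']
            ring
          rw [t3]
          exact (_root_.map_ne_zero s0).2 hne)
      have hcc : Cu ((pl θ).valuation F0 (cs * c)) := by
        have e1 := congrArg W2 hy
        rw [hf, map_mul, map_mul W2 (algebraMap F0 L cs), map_mul W2 (algebraMap F0 L c), u1, u2,
          mul_one, mul_one, ← map_mul W2, ← map_mul, hW2, map_pow] at e1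
        rw [e1]
        exact Cu.cube _
      have e2 := om_of_Cu _ hcc
      rw [om_mul _ hcs0 hc] at e2
      have e3 := om_galois τ s0 hτp hc hcs θ
      rw [hs0] at e3
      rw [e3] at e2
      exact zm1 _ (by linear_combination e2)
    · refine goodc hL.sq hW h2 hv hc hab hN hg00 ?_
      rw [← hf]
      exact hCu hPv
  have hred := to_Rd hD' hsq h3 hL.sq hc hab hN hom
  rw [← hf, natDegree_map] at hred
  have hinj : Function.Injective ((algebraMap F0 L).comp (algebraMap k'[X] F0)) :=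
    (algebraMap F0 L).injective.comp (IsFractionRing.injective k'[X] F0)
  obtain ⟨x, hx⟩ := descend ((algebraMap F0 L).comp (algebraMap k'[X] F0)) hinj hL.sq hD hsq h2 h3
    hz0 (fun x => hL.quot x) hf0 (fun s0 => by
      obtain ⟨τ, hτr, hτp⟩ := hL.lift (Ω := Ω) hKF s0 false
      obtain ⟨g1, hg1⟩ := hpos τ hτr
      obtain ⟨T, hT⟩ := factor ((τ : Ω →+* Ω).comp (algebraMap L Ω)) (algebraMap L Ω) (fun x =>
        hpresL τ x)
      refine ⟨T, fun p => ?_, ?_, g1, ?_⟩
      · apply injL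
        rw [hT]
        show τ (algebraMap L Ω (algebraMap F0 L (algebraMap k'[X] F0 p))) =
          algebraMap L Ω (algebraMap F0 L (algebraMap k'[X] F0 (p.map (s0 : k' →+* k'))))
        rw [← IsScalarTower.algebraMap_apply F0 L Ω, ← IsScalarTower.algebraMap_apply F0 L Ω, hτp]
      · apply injL
        rw [hT]
        exact hτr
      · apply injL
        rw [hT]
        exact hg1) hred (fun p q w hR ϖ hϖ hϖD hϖp hϖq => by
      have hpq : p ≠ 0 ∨ q ≠ 0 := by
        by_contra h0
        push Not at h0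
        have h4 := hR.nrm
        rw [h0.1, h0.2] at h4
        apply pow_ne_zero 3 hR.ne
        rw [← h4]
        ring
      obtain ⟨G, p1, q1, hcop, e1, e2⟩ := coprime_quot' hpq
      obtain ⟨x, hx⟩ := hR.cub
      have hG0 : G ≠ 0 := by
        rintro rfl
        rw [zero_mul] at e1 e2
        rcases hpq with h4 | h4
        · exact h4 e1
        · exact h4 e2
      have hϖG : ϖ ∣ G := by
        obtain ⟨A, B, hAB⟩ := hcop
        have h4 : G = A * p + B * q := by
          rw [e1, e2]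
          linear_combination (-G) * hAB
        rw [h4]
        exact dvd_add (hϖp.mul_left _) (hϖq.mul_left _)
      have hvD : D.map (algebraMap k k') ∉ (plI hϖ).asIdeal := by
        intro h4
        apply hϖD
        have h5 : D.map (algebraMap k k') ∈ Ideal.span {ϖ} := h4
        exact Ideal.mem_span_singleton.1 h5
      obtain ⟨W, hW, -⟩ := hex (plI hϖ) hvD
      have h6 := om_cont hL.sq hW h2 hvD hT1r hT1F hc hab hN (hom _ hvD) (G := G) hcop (x := x)
        (by rw [← hf]; exact hf0) (by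
          rw [← hf, ← hx, e1, e2]
          simp only [RingHom.comp_apply, map_mul]
          ring)
      have h7 := cube_dvd hϖ hG0 hϖG h6
      exact ⟨by rw [e1]; exact h7.mul_right _, by rw [e2]; exact h7.mul_right _⟩) hno
  -- the character vanishes
  obtain ⟨z, hz⟩ : ∃ z : F0, z = algebraMap k'[X] F0 (C (algebraMap k k' z0)) := ⟨_, rfl⟩
  have hz1 : z ^ 2 + z + 1 = 0 := by
    rw [hz, ← map_pow, ← map_add, ← map_one (algebraMap k'[X] F0), ← map_add, ← C_pow, ← C_add,
      ← C_1, ← C_add, ← map_pow, ← map_add, ← map_one (algebraMap k k'), ← map_add, hz0, map_zero,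
      C_0, map_zero]
  obtain ⟨zL, hzL⟩ : ∃ zL : L, zL = algebraMap F0 L z := ⟨_, rfl⟩
  have hz2 : (algebraMap L Ω zL) ^ 2 + algebraMap L Ω zL + 1 = 0 := by
    rw [hzL, ← map_pow, ← map_add, ← map_one (algebraMap L Ω), ← map_add, ← map_pow, ← map_add,
      ← map_one (algebraMap F0 L), ← map_add, hz1, map_zero, map_zero]
  have hxn : algebraMap L Ω x ≠ 0 := by
    rw [Ne, map_eq_zero]
    rintro rfl
    rw [zero_pow three_ne_zero] at hx
    exact hf0 hx
  obtain ⟨ω, hω⟩ : ∃ ω, ω = s / algebraMap L Ω x := ⟨_, rfl⟩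
  have hω3 : ω ^ 3 = 1 := by
    rw [hω, div_pow, hk.cube, hx, map_pow]
    exact div_self (pow_ne_zero 3 hxn)
  have hσω : σ ω = ω := by
    have h5 : (ω - 1) * ((ω - algebraMap L Ω zL) * (ω - (algebraMap L Ω zL) ^ 2)) = 0 := by
      have : (ω - 1) * ((ω - algebraMap L Ω zL) * (ω - (algebraMap L Ω zL) ^ 2)) = ω ^ 3 - 1 := by
        linear_combination (-(ω ^ 2) + ω * algebraMap L Ω zL - algebraMap L Ω zL + 1) * hz2
      rw [this, hω3, sub_self]
    rcases mul_eq_zero.1 h5 with h6 | h6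
    · rw [sub_eq_zero.1 h6, map_one]
    · rcases mul_eq_zero.1 h6 with h7 | h7
      · rw [sub_eq_zero.1 h7, σ.commutes]
      · rw [sub_eq_zero.1 h7, map_pow, σ.commutes]
  have ht : s = ω * algebraMap L Ω x := by rw [hω, div_mul_cancel₀ _ hxn]
  have h1 : σ s = s := by rw [ht, map_mul, hσω, σ.commutes]
  have h4 := hk.act σ
  rw [h1] at h4
  exact (mul_right_cancel₀ hk.ne (by rw [one_mul]; exact h4)).symm

end van

end Pool.Agent.Helper23K9.Q4
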