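import Pool.Agent.Helper23K9.Q4.Sie
import Pool.Agent.Helper23K9.Q4.Crit

/-!
Sets of density zero of cubic polynomials.
-/

set_option autoImplicit false
set_option linter.all false

open Polynomial NumberField
open scoped Classical

namespace Pool.Agent.Helper23K9.Q4

open Pool.Agent.R939.EI
open Pool.Agent.Helper23K9.Q5

/-- The cubic polynomial with leading coefficient `c` and given lower coefficients. -/
noncomputable def cub {R : Type} [CommRing R] (c : R) (a : Fin 3 → R) : R[X] :=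
  C c * X ^ 3 + C (a 2) * X ^ 2 + C (a 1) * X + C (a 0)

section cub

variable {R : Type} [CommRing R]

theorem cub_inj {c : R} {a b : Fin 3 → R} (h : cub c a = cub c b) : a = b := by
  funext i
  fin_cases i
  · have := congrArg (fun q : R[X] => q.coeff 0) h
    simpa [cub, coeff_X, coeff_C] using this
  · have := congrArg (fun q : R[X] => q.coeff 1) h
    simpa [cub, coeff_X, coeff_C] using this
  · have := congrArg (fun q : R[X] => q.coeff 2) h
    simpa [cub, coeff_X, coeff_C] using this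

theorem cub_map {S : Type} [CommRing S] (f : R →+* S) (c : R) (a : Fin 3 → R) :
    (cub c a).map f = cub (f c) (fun i => f (a i)) := by
  simp only [cub, Polynomial.map_add, Polynomial.map_mul, Polynomial.map_pow, map_X, map_C]

theorem cub_deg {c : R} (hc : c ≠ 0) (a : Fin 3 → R) : (cub c a).natDegree = 3 := by
  unfold cub
  compute_degree!

theorem cub_ne {c : R} (hc : c ≠ 0) (a : Fin 3 → R) : cub c a ≠ 0 := by
  intro h
  have := cub_deg hc a
  rw [h, natDegree_zero] at this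
  omega

theorem cub_lead {c : R} (a : Fin 3 → R) : (cub c a).coeff 3 = c := by
  simp [cub, coeff_X, coeff_C]

theorem cub_monic [Nontrivial R] (a : Fin 3 → R) : (cub 1 a).Monic := by
  unfold cub
  rw [C_1, one_mul]
  monicity!

theorem cub_dbl (c e f : R) : cub c (dbl c e f) = C c * ((X - C e) ^ 2 * (X - C f)) := by
  simp only [cub, dbl, Matrix.cons_val_zero, Matrix.cons_val_one, Matrix.cons_val]
  simp only [C_neg, C_add, C_mul, C_pow]
  have h2 : (C (2 : R) : R[X]) = 2 := map_ofNat C 2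
  rw [h2]
  ring

theorem cub_flx (c α β e : R) :
    cub c (flx c α β e) = (C α * X + C β) ^ 2 + C c * (X - C e) ^ 3 := by
  simp only [cub, flx, Matrix.cons_val_zero, Matrix.cons_val_one, Matrix.cons_val]
  simp only [C_sub, C_add, C_mul, C_pow]
  have h2 : (C (2 : R) : R[X]) = 2 := map_ofNat C 2
  have h3 : (C (3 : R) : R[X]) = 3 := map_ofNat C 3
  rw [h2, h3]
  ring

theorem root_int {k : Type} [Field k] (c e : k) {a : Fin 3 → k} : (cub c a).eval e =
    c * e ^ 3 + a 2 * e ^ 2 + a 1 * e + a 0 := by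
  simp only [cub, eval_add, eval_mul, eval_pow, eval_X, eval_C]

end cub

section zer

variable {k M : Type} [Field k] [NumberField k] [Field M] [NumberField M] [Algebra k M]
  {J : Type} [Fintype J] (B : Module.Basis J ℤ (𝓞 k))

/-- An element which is integral over the ring of integers. -/
theorem int_of {x : M} (h : IsIntegral (𝓞 M) x) : ∃ y : 𝓞 M, algebraMap (𝓞 M) M y = x :=
  IsIntegrallyClosed.algebraMap_eq_of_integral h

/-- Multiples of a nonzero integer. -/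
theorem exists_mul {γ : 𝓞 M} (hγ : γ ≠ 0) : ∃ n : ℤ, n ≠ 0 ∧ ∀ (p : ℕ) (_ : p.Prime)
    (φ : 𝓞 M →+* ZMod p), ¬ p ∣ n.natAbs → φ γ ≠ 0 := by
  have hγM : algebraMap (𝓞 M) M γ ≠ 0 := by
    rw [Ne, map_eq_zero_iff _ (IsFractionRing.injective (𝓞 M) M)]
    exact hγ
  obtain ⟨n, u, -, hn, e, -⟩ := exists_den (algebraMap (𝓞 M) M γ)⁻¹ (algebraMap (𝓞 M) M γ)⁻¹
  refine ⟨n, hn, fun p hp φ hpn h0 => ?_⟩
  have h1 : (n : 𝓞 M) = u * γ := by
    apply IsFractionRing.injective (𝓞 M) M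
    rw [map_mul, e, map_intCast]
    field_simp
  have h2 := congrArg φ h1
  rw [map_mul, h0, mul_zero, map_intCast, ZMod.intCast_zmod_eq_zero_iff_dvd] at h2
  exact hpn (Int.natCast_dvd.1 h2)

/-- The cubic polynomial as a polynomial over `M`. -/
noncomputable def cM (M : Type) [Field M] [Algebra k M] (B : Module.Basis J ℤ (𝓞 k))
    (x : Fin 3 × J → ℤ) : Fin 3 → M :=
  fun i => algebraMap k M (algebraMap (𝓞 k) k (el3 B x i))

omit [NumberField k] [NumberField M] in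
theorem cM_eq (x : Fin 3 × J → ℤ) (i : Fin 3) : cM M B x i =
    algebraMap (𝓞 M) M (algebraMap (𝓞 k) (𝓞 M) (el3 B x i)) := rfl

/-- Almost all cubic polynomials are separable. -/
theorem zr_dbl {γ : 𝓞 M} (hγ : γ ≠ 0) :
    Zr {x : Fin 3 × J → ℤ | ¬ (cub (algebraMap (𝓞 M) M γ) (cM M B x)).Separable} := by
  obtain ⟨n, hn, hnγ⟩ := exists_mul hγ
  refine (zr3 (M := M) B (δ := 1 / 4) (by norm_num) (by norm_num) (N := n.natAbs)
    (Int.natAbs_ne_zero.2 hn)
    (fun p φ => {y : Fin 3 → ZMod p | ¬ p ∣ n.natAbs ∧ y ∉ {y : Fin 3 → ZMod p |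
      ∃ e f, y = dbl (φ γ) e f}}) (fun p _ φ hp => ?_)).mono ?_
  · have e1 : {y : Fin 3 → ZMod p | ¬ p ∣ n.natAbs ∧ y ∉ {y : Fin 3 → ZMod p |
        ∃ e f, y = dbl (φ γ) e f}} = {y : Fin 3 → ZMod p | ∃ e f, y = dbl (φ γ) e f}ᶜ := by
      ext y
      simp only [Set.mem_setOf_eq, Set.mem_compl_iff, hp, not_false_eq_true, true_and]
    rw [e1]
    exact dbl_card _
  intro x hx p φ hp hmem
  haveI : Fact p.Prime := ⟨hp⟩
  obtain ⟨hpn, hmem⟩ := hmem
  have hφγ := hnγ p hp φ hpn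
  obtain ⟨c, hc⟩ : ∃ c, c = algebraMap (𝓞 M) M γ := ⟨_, rfl⟩
  have hc0 : c ≠ 0 := by
    rw [hc, Ne, map_eq_zero_iff _ (IsFractionRing.injective (𝓞 M) M)]
    exact hγ
  rw [← hc] at hx
  rw [Set.mem_setOf_eq, PerfectField.separable_iff_squarefree,
    squarefree_iff_irreducible_sq_not_dvd_of_ne_zero (cub_ne hc0 _)] at hx
  push Not at hx
  obtain ⟨π, hπ, hdvd⟩ := hx
  have hπ0 : π ≠ 0 := hπ.ne_zero
  have hdeg : π.natDegree = 1 := by
    have h1 := natDegree_le_of_dvd hdvd (cub_ne hc0 _)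
    rw [natDegree_mul hπ0 hπ0, cub_deg hc0] at h1
    have h2 := hπ.natDegree_pos
    omega
  obtain ⟨e, he⟩ : ∃ e : M, IsRoot π e := exists_root_of_degree_eq_one (by
    rw [degree_eq_natDegree hπ0, hdeg]
    rfl)
  obtain ⟨g, hg⟩ : (X - C e) ^ 2 ∣ cub c (cM M B x) := by
    rw [pow_two]
    exact (mul_dvd_mul (dvd_iff_isRoot.2 he) (dvd_iff_isRoot.2 he)).trans hdvd
  have hm2 : ((X - C e) ^ 2 : M[X]).Monic := (monic_X_sub_C e).pow 2
  have hg0 : g ≠ 0 := by
    rintro rfl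
    rw [mul_zero] at hg
    exact cub_ne hc0 _ hg
  have hgd : g.natDegree = 1 := by
    have h1 := congrArg natDegree hg
    rw [hm2.natDegree_mul' hg0, cub_deg hc0, natDegree_pow, natDegree_X_sub_C] at h1
    omega
  have hgl : g.coeff 1 = c := by
    have h1 : (cub c (cM M B x)).leadingCoeff = g.leadingCoeff := by
      rw [hg, leadingCoeff_monic_mul hm2]
    rw [leadingCoeff, leadingCoeff, cub_deg hc0, hgd, cub_lead] at h1
    exact h1.symm
  obtain ⟨f, hf⟩ : ∃ f, f = -(g.coeff 0) / c := ⟨_, rfl⟩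
  have hgX : g = C c * (X - C f) := by
    have h1 := eq_X_add_C_of_natDegree_le_one hgd.le
    have h3 : g.coeff 0 = -(c * f) := by
      rw [hf]
      field_simp
    rw [hgl, h3] at h1
    rw [h1, C_neg, C_mul]
    ring
  have hg' : cub c (cM M B x) = C c * ((X - C e) ^ 2 * (X - C f)) := by
    rw [hg, hgX]
    ring
  rw [← cub_dbl] at hg'
  have ha := cub_inj hg'
  obtain ⟨A, hA⟩ : ∃ A : Fin 3 → 𝓞 M, A = fun i => algebraMap (𝓞 k) (𝓞 M) (el3 B x i) := ⟨_, rfl⟩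
  have hAa : ∀ i, algebraMap (𝓞 M) M (A i) = dbl c e f i := by
    intro i
    rw [hA, ← ha]
    rfl
  have r0 : algebraMap (𝓞 M) M (A 0) = -(c * (e ^ 2 * f)) := by rw [hAa]; simp [dbl]
  have r1 : algebraMap (𝓞 M) M (A 1) = c * (e ^ 2 + 2 * e * f) := by rw [hAa]; simp [dbl]
  have r2 : algebraMap (𝓞 M) M (A 2) = -(c * (2 * e + f)) := by rw [hAa]; simp [dbl]
  -- integrality
  obtain ⟨E, hE⟩ := int_of (M := M) (x := c * e) ⟨cub 1 ![γ ^ 2 * A 0, γ * A 1, A 2],
    cub_monic _, by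
      rw [← eval_map, cub_map, root_int]
      simp only [Matrix.cons_val_zero, Matrix.cons_val_one, Matrix.cons_val, map_mul, map_pow,
        map_one, ← hc, r0, r1, r2]
      ring⟩
  obtain ⟨G, hG⟩ : ∃ G : 𝓞 M, algebraMap (𝓞 M) M G = c * f := by
    refine ⟨-(A 2) - 2 * E, ?_⟩
    rw [map_sub, map_neg, r2, map_mul, hE, map_ofNat]
    ring
  have q0 : γ ^ 2 * A 0 = -(E ^ 2 * G) := by
    apply IsFractionRing.injective (𝓞 M) M
    simp only [map_neg, map_mul, map_pow, ← hc, hE, hG, r0]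
    ring
  have q1 : γ * A 1 = E ^ 2 + 2 * E * G := by
    apply IsFractionRing.injective (𝓞 M) M
    simp only [map_add, map_mul, map_pow, map_ofNat, ← hc, hE, hG, r1]
    ring
  have q2 : A 2 = -(2 * E + G) := by
    apply IsFractionRing.injective (𝓞 M) M
    simp only [map_neg, map_add, map_mul, map_ofNat, hE, hG, r2]
    ring
  apply hmem
  have t0 := congrArg φ q0
  have t1 := congrArg φ q1
  have t2 := congrArg φ q2
  simp only [map_add, map_neg, map_mul, map_pow, map_ofNat] at t0 t1 t2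
  have hAφ : ∀ i, φ (algebraMap (𝓞 k) (𝓞 M) (el3 B x i)) = φ (A i) := by
    intro i
    rw [hA]
  obtain ⟨g1, hg1⟩ : ∃ g1, g1 = φ γ := ⟨_, rfl⟩
  rw [← hg1] at t0 t1 hφγ ⊢
  refine ⟨φ E / g1, φ G / g1, ?_⟩
  have eE : φ E = g1 * (φ E / g1) := by field_simp
  have eG : φ G = g1 * (φ G / g1) := by field_simp
  generalize φ E / g1 = u at *
  generalize φ G / g1 = v at *
  rw [eE, eG] at t0 t1 t2
  funext i
  rw [hAφ]
  fin_cases i
  · show φ (A 0) = -(g1 * (u ^ 2 * v))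
    apply mul_left_cancel₀ (pow_ne_zero 2 hφγ)
    rw [t0]
    ring
  · show φ (A 1) = g1 * (u ^ 2 + 2 * u * v)
    apply mul_left_cancel₀ hφγ
    rw [t1]
    ring
  · show φ (A 2) = -(g1 * (2 * u + v))
    rw [t2]
    ring

omit [NumberField k] [NumberField M] [Algebra k M] in
/-- Cubic polynomials such that the elliptic curve has a point of order three. -/
theorem not_NoThree {c : M} (hc0 : c ≠ 0) {a : Fin 3 → M} (h : ¬ NoThree (cub c a)) :
    ∃ α β e : M, a = flx c α β e := by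
  unfold NoThree at h
  push Not at h
  obtain ⟨p, q, w, κ, hq, -, e, hd⟩ := h
  have hodd : Odd (cub c a).natDegree := by
    rw [cub_deg hc0]
    exact ⟨1, rfl⟩
  have h1 := norm_deg hodd (u := p) hq
  rw [cub_deg hc0] at h1 hd
  rw [e] at h1
  have h2 : (C κ * w ^ 3).natDegree ≤ 3 * w.natDegree := by
    refine (natDegree_C_mul_le _ _).trans ?_
    rw [natDegree_pow]
  have hw1 : w.natDegree = 1 := by omega
  have hq1 : q.natDegree = 0 := by omega
  obtain ⟨q0, hq0⟩ : ∃ c, q = C c := ⟨_, eq_C_of_natDegree_eq_zero hq1⟩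
  have hq00 : q0 ≠ 0 := by
    rintro rfl
    exact hq (by rw [hq0, C_0])
  obtain ⟨w1, w0, hw10, hw⟩ : ∃ w1 w0 : M, w1 ≠ 0 ∧ w = C w1 * X + C w0 := by
    refine ⟨w.coeff 1, w.coeff 0, ?_, eq_X_add_C_of_natDegree_le_one hw1.le⟩
    intro h0
    have h3 : w.leadingCoeff = 0 := by
      rw [leadingCoeff, hw1]
      exact h0
    rw [leadingCoeff_eq_zero] at h3
    rw [h3, natDegree_zero] at hw1
    exact zero_ne_one hw1
  obtain ⟨ε, hε⟩ : ∃ ε, ε = -w0 / w1 := ⟨_, rfl⟩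
  have hww : w = C w1 * (X - C ε) := by
    rw [hw, hε, mul_sub, ← C_mul]
    have : w1 * (-w0 / w1) = -w0 := by field_simp
    rw [this, C_neg]
    ring
  obtain ⟨u, hu⟩ : ∃ u, u = C q0⁻¹ * p := ⟨_, rfl⟩
  obtain ⟨μ, hμ⟩ : ∃ μ, μ = κ * w1 ^ 3 / q0 ^ 2 := ⟨_, rfl⟩
  have key : cub c a = u ^ 2 - C μ * (X - C ε) ^ 3 := by
    have hqq : (C q0 : M[X]) * C q0⁻¹ = 1 := by
      rw [← C_mul, mul_inv_cancel₀ hq00, C_1]
    have hμ' : (C μ : M[X]) = C κ * C w1 ^ 3 * C q0⁻¹ ^ 2 := by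
      rw [← C_pow, ← C_pow, ← C_mul, ← C_mul, hμ]
      congr 1
      field_simp
    rw [hww, hq0] at e
    rw [hu, hμ']
    linear_combination (-(C q0⁻¹) ^ 2) * e - (cub c a) * (C q0 * C q0⁻¹ + 1) * hqq
  -- the degree of `u`
  have hud : u.natDegree ≤ 1 := by
    by_contra hcon
    have h4 : 4 ≤ (u ^ 2).natDegree := by
      rw [natDegree_pow]
      omega
    have h5 : (C μ * (X - C ε) ^ 3 : M[X]).natDegree ≤ 3 := by
      refine (natDegree_C_mul_le _ _).trans ?_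
      rw [natDegree_pow, natDegree_X_sub_C]
    have h6 : (u ^ 2 - C μ * (X - C ε) ^ 3).natDegree = (u ^ 2).natDegree :=
      natDegree_sub_eq_left_of_natDegree_lt (by omega)
    rw [← key, cub_deg hc0] at h6
    omega
  obtain ⟨α, β, hαβ⟩ : ∃ α β : M, u = C α * X + C β :=
    ⟨_, _, eq_X_add_C_of_natDegree_le_one hud⟩
  have hμ1 : μ = -c := by
    have h7 := congrArg (fun q : M[X] => q.coeff 3) key
    rw [hαβ] at h7
    have e1 : ((C α * X + C β) ^ 2 - C μ * (X - C ε) ^ 3 : M[X]) = cub (-μ)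
        ![β ^ 2 + μ * ε ^ 3, 2 * α * β - 3 * μ * ε ^ 2, α ^ 2 + 3 * μ * ε] := by
      simp only [cub, Matrix.cons_val_zero, Matrix.cons_val_one, Matrix.cons_val]
      simp only [C_neg, C_add, C_sub, C_mul, C_pow]
      have h2 : (C (2 : M) : M[X]) = 2 := map_ofNat C 2
      have h3 : (C (3 : M) : M[X]) = 3 := map_ofNat C 3
      rw [h2, h3]
      ring
    rw [e1] at h7
    simp only [cub_lead] at h7
    linear_combination h7
  refine ⟨α, β, ε, cub_inj (c := c) ?_⟩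
  rw [key, cub_flx, hμ1, hαβ, C_neg]
  ring

/-- Almost all cubic polynomials have no points of order three. -/
theorem zr_flx {γ : 𝓞 M} (hγ : γ ≠ 0) :
    Zr {x : Fin 3 × J → ℤ | ¬ NoThree (cub (algebraMap (𝓞 M) M γ) (cM M B x))} := by
  obtain ⟨n, hn, hnγ⟩ := exists_mul hγ
  refine (zr3 (M := M) B (δ := 1 / 8) (by norm_num) (by norm_num) (N := 6 * n.natAbs)
    (mul_ne_zero (by norm_num) (Int.natAbs_ne_zero.2 hn))
    (fun p φ => {y : Fin 3 → ZMod p | ¬ p ∣ 6 * n.natAbs ∧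
      y ∉ {y : Fin 3 → ZMod p | ∃ α β e, y = flx (φ γ) α β e}})
    (fun p _ φ hp => ?_)).mono ?_
  · have e1 : {y : Fin 3 → ZMod p | ¬ p ∣ 6 * n.natAbs ∧
        y ∉ {y : Fin 3 → ZMod p | ∃ α β e, y = flx (φ γ) α β e}} =
        {y : Fin 3 → ZMod p | ∃ α β e, y = flx (φ γ) α β e}ᶜ := by
      ext y
      simp only [Set.mem_setOf_eq, Set.mem_compl_iff, hp, not_false_eq_true, true_and]
    rw [e1]
    refine flx_card _ ?_
    rintro rfl
    exact hp ((by norm_num : 2 ∣ 6).mul_right _)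
  intro x hx p φ hp hmem
  haveI : Fact p.Prime := ⟨hp⟩
  obtain ⟨hp6, hmem⟩ := hmem
  have hφγ := hnγ p hp φ (fun h => hp6 (h.mul_left _))
  obtain ⟨c, hc⟩ : ∃ c, c = algebraMap (𝓞 M) M γ := ⟨_, rfl⟩
  have hc0 : c ≠ 0 := by
    rw [hc, Ne, map_eq_zero_iff _ (IsFractionRing.injective (𝓞 M) M)]
    exact hγ
  rw [← hc] at hx
  obtain ⟨α, β, e, ha⟩ := not_NoThree hc0 hx
  obtain ⟨A, hA⟩ : ∃ A : Fin 3 → 𝓞 M, A = fun i => algebraMap (𝓞 k) (𝓞 M) (el3 B x i) := ⟨_, rfl⟩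
  have hAa : ∀ i, algebraMap (𝓞 M) M (A i) = flx c α β e i := by
    intro i
    rw [hA, ← ha]
    rfl
  have r0 : algebraMap (𝓞 M) M (A 0) = β ^ 2 - c * e ^ 3 := by rw [hAa]; simp [flx]
  have r1 : algebraMap (𝓞 M) M (A 1) = 2 * α * β + 3 * c * e ^ 2 := by rw [hAa]; simp [flx]
  have r2 : algebraMap (𝓞 M) M (A 2) = α ^ 2 - 3 * c * e := by rw [hAa]; simp [flx]
  -- integrality
  obtain ⟨E, hE⟩ := int_of (M := M) (x := 3 * c * e) ⟨X ^ 4 + (C (4 * A 2) * X ^ 3 +
      C (18 * (γ * A 1)) * X ^ 2 +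
      C (108 * (γ ^ 2 * A 0)) * X + C (27 * (4 * A 2 * (γ ^ 2 * A 0) - (γ * A 1) ^ 2))), by
      refine monic_X_pow_add (n := 4) ?_
      refine lt_of_le_of_lt (b := ((3 : ℕ) : WithBot ℕ)) ?_ (by exact_mod_cast (by norm_num : 3 < 4))
      compute_degree
      exact le_rfl, by
      rw [eval₂_add, eval₂_add, eval₂_add, eval₂_add, eval₂_mul, eval₂_mul, eval₂_mul, eval₂_X_pow,
        eval₂_X_pow, eval₂_X_pow, eval₂_C, eval₂_C, eval₂_C, eval₂_C, eval₂_X]
      simp only [map_mul, map_sub, map_pow, map_ofNat, r0, r1, r2, ← hc]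
      ring⟩
  obtain ⟨α1, hα⟩ := int_of (M := M) (x := α) (IsIntegral.of_pow (n := 2) (by norm_num) (by
    have : α ^ 2 = algebraMap (𝓞 M) M (A 2 + E) := by
      rw [map_add, hE, r2]; ring
    rw [this]
    exact isIntegral_algebraMap))
  obtain ⟨β1, hβ⟩ := int_of (M := M) (x := 9 * c * β) (IsIntegral.of_pow (n := 2) (by norm_num) (by
    have : (9 * c * β) ^ 2 = algebraMap (𝓞 M) M (81 * (γ ^ 2 * A 0) + 3 * E ^ 3) := by
      simp only [map_add, map_mul, map_pow, map_ofNat, hE, r0, ← hc]; ring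
    rw [this]
    exact isIntegral_algebraMap))
  have q0 : 81 * (γ ^ 2 * A 0) = β1 ^ 2 - 3 * E ^ 3 := by
    apply IsFractionRing.injective (𝓞 M) M
    simp only [map_sub, map_mul, map_pow, map_ofNat, hE, hβ, r0, ← hc]
    ring
  have q1 : 9 * (γ * A 1) = 2 * α1 * β1 + 3 * E ^ 2 := by
    apply IsFractionRing.injective (𝓞 M) M
    simp only [map_add, map_mul, map_pow, map_ofNat, hE, hβ, hα, r1, ← hc]
    ring
  have q2 : A 2 = α1 ^ 2 - E := by
    apply IsFractionRing.injective (𝓞 M) M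
    simp only [map_sub, map_mul, map_pow, map_ofNat, hE, hα, r2]
  apply hmem
  have h3p : (3 : ZMod p) ≠ 0 := by
    intro h0
    have h5 : ((3 : ℕ) : ZMod p) = 0 := by exact_mod_cast h0
    rw [ZMod.natCast_eq_zero_iff] at h5
    exact hp6 ((h5.trans (by norm_num : 3 ∣ 6)).mul_right _)
  have h9p : (9 : ZMod p) ≠ 0 := by
    have : (9 : ZMod p) = 3 * 3 := by norm_num
    rw [this]
    exact mul_ne_zero h3p h3p
  have t0 := congrArg φ q0
  have t1 := congrArg φ q1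
  have t2 := congrArg φ q2
  simp only [map_add, map_sub, map_mul, map_pow, map_ofNat] at t0 t1 t2
  have hAφ : ∀ i, φ (algebraMap (𝓞 k) (𝓞 M) (el3 B x i)) = φ (A i) := by
    intro i
    rw [hA]
  have h81 : (81 : ZMod p) ≠ 0 := by
    have : (81 : ZMod p) = 9 * 9 := by norm_num
    rw [this]
    exact mul_ne_zero h9p h9p
  obtain ⟨g1, hg1⟩ : ∃ g1, g1 = φ γ := ⟨_, rfl⟩
  rw [← hg1] at t0 t1 hφγ ⊢
  refine ⟨φ α1, φ β1 / (9 * g1), φ E / (3 * g1), ?_⟩
  have e9 : φ β1 = 9 * g1 * (φ β1 / (9 * g1)) := by field_simp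
  have e3 : φ E = 3 * g1 * (φ E / (3 * g1)) := by field_simp
  generalize φ β1 / (9 * g1) = u at *
  generalize φ E / (3 * g1) = v at *
  rw [e9, e3] at t0 t1
  rw [e3] at t2
  funext i
  rw [hAφ]
  fin_cases i
  · show φ (A 0) = u ^ 2 - g1 * v ^ 3
    apply mul_left_cancel₀ (mul_ne_zero h81 (pow_ne_zero 2 hφγ))
    linear_combination t0
  · show φ (A 1) = 2 * φ α1 * u + 3 * g1 * v ^ 2
    apply mul_left_cancel₀ (mul_ne_zero h9p hφγ)
    linear_combination t1
  · show φ (A 2) = (φ α1) ^ 2 - 3 * g1 * v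
    rw [t2]

/-- The values at a point are rarely squares. -/
theorem zr_val (γ : 𝓞 M) (θ : M) :
    Zr {x : Fin 3 × J → ℤ | IsSquare ((cub (algebraMap (𝓞 M) M γ) (cM M B x)).eval θ)} := by
  obtain ⟨n, θ1, -, hn, e, -⟩ := exists_den θ θ
  refine (zr3 (M := M) B (δ := 1 / 4) (by norm_num) (by norm_num) (N := 2 * n.natAbs)
    (mul_ne_zero (by norm_num) (Int.natAbs_ne_zero.2 hn))
    (fun p φ => {y : Fin 3 → ZMod p | ¬ IsSquare ((n : ZMod p) * (φ γ * φ θ1 ^ 3) +
      ((n : ZMod p) ^ 2 * φ θ1 ^ 2 * y 2 + (n : ZMod p) ^ 3 * φ θ1 * y 1 + (n : ZMod p) ^ 4 * y 0))})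
    (fun p _ φ hp => ?_)).mono ?_
  · have hp2 : p ≠ 2 := by
      rintro rfl
      exact hp (dvd_mul_right _ _)
    have hpn : (n : ZMod p) ≠ 0 := by
      intro h0
      rw [ZMod.intCast_zmod_eq_zero_iff_dvd] at h0
      exact hp ((Int.natCast_dvd.1 h0).mul_left _)
    have hF : ringChar (ZMod p) ≠ 2 := by
      rw [ZMod.ringChar_zmod_n]
      exact hp2
    obtain ⟨κ, hκ⟩ : ∃ κ, κ = (n : ZMod p) * (φ γ * φ θ1 ^ 3) := ⟨_, rfl⟩
    rw [← hκ]
    let f : (Fin 3 → ZMod p) →+ ZMod p :=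
      { toFun := fun y => (n : ZMod p) ^ 2 * φ θ1 ^ 2 * y 2 + (n : ZMod p) ^ 3 * φ θ1 * y 1 +
          (n : ZMod p) ^ 4 * y 0
        map_zero' := by simp
        map_add' := fun y y' => by
          simp only [Pi.add_apply]
          ring }
    have hfe : ∀ y, f y = (n : ZMod p) ^ 2 * φ θ1 ^ 2 * y 2 + (n : ZMod p) ^ 3 * φ θ1 * y 1 +
          (n : ZMod p) ^ 4 * y 0 := fun y => rfl
    have hsurj : Function.Surjective f := by
      intro u
      refine ⟨![u / (n : ZMod p) ^ 4, 0, 0], ?_⟩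
      rw [hfe]
      simp only [Matrix.cons_val_zero, Matrix.cons_val_one, Matrix.cons_val]
      field_simp
      ring
    obtain ⟨T, hT⟩ : ∃ T : Finset (ZMod p), T = Finset.univ.filter fun u : ZMod p =>
      ¬ IsSquare (κ + u) := ⟨_, rfl⟩
    have hTc : p ≤ 2 * T.card + 1 := by
      have h2 := card_chi hF (κ := -1) (Or.inr rfl)
      rw [ZMod.card] at h2
      refine h2.symm.le.trans (Nat.add_le_add_right (Nat.mul_le_mul_left 2 ?_) 1)
      apply Finset.card_le_card_of_injOn (fun y => y - κ)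
      · intro y hy
        rw [Finset.mem_coe, Finset.mem_filter] at hy
        rw [Finset.mem_coe, hT, Finset.mem_filter]
        refine ⟨Finset.mem_univ _, ?_⟩
        rw [add_sub_cancel]
        exact Pool.Agent.Helper23K9.Q5.not_sq hy.2
      · intro y _ y' _ h0
        exact sub_left_injective h0
    have hcard : (Finset.univ.filter fun y : Fin 3 → ZMod p => f y ∈ T).card *
        Fintype.card (ZMod p) = T.card * Fintype.card (Fin 3 → ZMod p) := by
      convert pre_card f hsurj T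
    rw [card3, ZMod.card] at hcard
    have hset : {y : Fin 3 → ZMod p | ¬ IsSquare (κ +
      ((n : ZMod p) ^ 2 * φ θ1 ^ 2 * y 2 + (n : ZMod p) ^ 3 * φ θ1 * y 1 +
        (n : ZMod p) ^ 4 * y 0))} =
      ((Finset.univ.filter fun y : Fin 3 → ZMod p => f y ∈ T : Finset (Fin 3 → ZMod p)) :
        Set (Fin 3 → ZMod p)) := by
      ext y
      rw [Finset.mem_coe, Finset.mem_filter, hT, Finset.mem_filter, hfe]
      simp only [Set.mem_setOf_eq, Finset.mem_univ, true_and]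
    rw [hset, Set.ncard_coe_finset]
    obtain ⟨Y, hY⟩ : ∃ Y, Y = (Finset.univ.filter fun y : Fin 3 → ZMod p => f y ∈ T).card :=
      ⟨_, rfl⟩
    rw [← hY] at hcard ⊢
    have h3 : 3 ≤ p := by
      have := (Fact.out : p.Prime).two_le
      omega
    have h4 : (Y : ℝ) * p = T.card * (p : ℝ) ^ 3 := by exact_mod_cast hcard
    have h5 : (p : ℝ) ≤ 2 * T.card + 1 := by exact_mod_cast hTc
    have h6 : (3 : ℝ) ≤ p := by exact_mod_cast h3
    have h7 : (0 : ℝ) < p := by linarith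
    refine le_of_mul_le_mul_right ?_ h7
    rw [h4]
    have h8 : (1 / 4 : ℝ) * p ≤ T.card := by linarith
    calc 1 / 4 * (p : ℝ) ^ 3 * p = (1 / 4 * p) * (p : ℝ) ^ 3 := by ring
      _ ≤ _ := mul_le_mul_of_nonneg_right h8 (by positivity)
  · intro x hx p φ hp hmem
    haveI : Fact p.Prime := ⟨hp⟩
    apply hmem
    obtain ⟨w, hw⟩ := hx
    obtain ⟨A, hA⟩ : ∃ A : Fin 3 → 𝓞 M, A = fun i => algebraMap (𝓞 k) (𝓞 M) (el3 B x i) := ⟨_, rfl⟩
    have hAa : ∀ i, algebraMap (𝓞 M) M (A i) = cM M B x i := by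
      intro i
      rw [hA]
      rfl
    obtain ⟨G, hG⟩ : ∃ G : 𝓞 M, G = (n : 𝓞 M) * (γ * θ1 ^ 3) + ((n : 𝓞 M) ^ 2 * θ1 ^ 2 * A 2 +
      (n : 𝓞 M) ^ 3 * θ1 * A 1 + (n : 𝓞 M) ^ 4 * A 0) := ⟨_, rfl⟩
    have hGw : algebraMap (𝓞 M) M G = ((n : M) ^ 2 * w) ^ 2 := by
      rw [root_int] at hw
      rw [hG]
      simp only [map_add, map_mul, map_pow, map_intCast, e, hAa]
      linear_combination (n : M) ^ 4 * hw
    obtain ⟨w0, hw0⟩ : ∃ w0 : 𝓞 M, algebraMap (𝓞 M) M w0 = (n : M) ^ 2 * w := by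
      apply IsIntegrallyClosed.exists_algebraMap_eq_of_isIntegral_pow (n := 2) (by norm_num)
      rw [← hGw]
      exact isIntegral_algebraMap
    have h2 : G = w0 * w0 := by
      apply IsFractionRing.injective (𝓞 M) M
      rw [hGw, map_mul, hw0, pow_two]
    refine ⟨φ w0, ?_⟩
    rw [← map_mul, ← h2, hG, hA]
    simp only [map_add, map_mul, map_pow, map_intCast]

end zer

end Pool.Agent.Helper23K9.Q4
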